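import Pool.Agent.Lib.MP_3145b1_co.RT.Spec

/-!
# MP_3145b1_co, project RT: linear threshold functions are in the class `RG 1`
-/

set_option autoImplicit false

namespace Pool.Agent.MP3145b1.RT

open Finset Pool.Agent.MP3145b1 Pool.Agent.MP3145b1.RC Pool.Agent.MP3145b1.RD

/-- the linear threshold function (halfspace): `1` if `θ ≤ ∑ i, a i * x i` and `-1` otherwise, where the
variable `x i` is `-1` if the bit `i` is `true` and `1` if it is `false` -/
noncomputable def ltf {N : ℕ} (a : Fin N → ℝ) (θ : ℝ) (x : Fin N → Bool) : ℝ :=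
  if θ ≤ ∑ i, a i * (if x i then (-1 : ℝ) else 1) then 1 else -1

/-- the variables as gates -/
noncomputable def Ltf_u (N : ℕ) (i : ℕ) : (Fin N → Bool) → ℝ :=
  if h : i < N then (fun x => if x ⟨i, h⟩ then -1 else 1) else (fun _ => if false then -1 else 1)

theorem Ltf_sum {N : ℕ} (b : Fin N → ℝ) (x : Fin N → Bool) :
    ∑ i ∈ range N, (if Ltf_u N i x = -1 then (if h : i < N then b ⟨i, h⟩ else 0) else 0) =
      ∑ i, (if x i then b i else 0) := by
  rw [Finset.sum_range]
  refine Finset.sum_congr rfl fun i _ => ?_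
  simp only [Ltf_u, i.isLt, dif_pos, Fin.eta]
  cases x i
  · norm_num
  · norm_num

/-- indicators of an interval of a linear form are in the class -/
theorem Ltf_thr {N : ℕ} (w : ℕ) (b : Fin N → ℝ) (t1 t2 : ℝ) :
    RG w (fun x : Fin N → Bool => if t1 ≤ ∑ i, (if x i then b i else 0) ∧
      ∑ i, (if x i then b i else 0) < t2 then -1 else 1) := by
  have h := RG.thr (w := w) (N := N) (fun i => if h : i < N then {⟨i, h⟩} else ∅) (Ltf_u N)
    (by
      intro i j hij
      beta_reduce
      split_ifs with h1 h2
      · rw [Finset.disjoint_singleton]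
        intro h
        exact hij (congrArg Fin.val h)
      · exact Finset.disjoint_empty_right _
      · exact Finset.disjoint_empty_left _
      · exact Finset.disjoint_empty_left _)
    (by
      intro i x y hxy
      unfold Ltf_u
      by_cases h1 : i < N
      · have e := hxy ⟨i, h1⟩ (by simp [h1])
        simp only [dif_pos h1, e]
      · simp only [dif_neg h1])
    (by
      intro i
      unfold Ltf_u
      by_cases h1 : i < N
      · rw [dif_pos h1]
        exact RG.var _
      · rw [dif_neg h1]
        exact RG.const false)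
    N (fun i => if h : i < N then b ⟨i, h⟩ else 0) t1 t2
  have e : (fun x : Fin N → Bool => if t1 ≤ ∑ i ∈ range N, (if Ltf_u N i x = -1 then
      (if h : i < N then b ⟨i, h⟩ else 0) else 0) ∧ ∑ i ∈ range N, (if Ltf_u N i x = -1 then
      (if h : i < N then b ⟨i, h⟩ else 0) else 0) < t2 then (-1 : ℝ) else 1) =
      (fun x : Fin N → Bool => if t1 ≤ ∑ i, (if x i then b i else 0) ∧
      ∑ i, (if x i then b i else 0) < t2 then -1 else 1) := by
    funext x
    rw [Ltf_sum]
  rw [← e]
  exact h

/-- linear threshold functions are in the class -/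
theorem Ltf_mem {N : ℕ} (w : ℕ) (a : Fin N → ℝ) (θ : ℝ) : RG w (ltf a θ) := by
  have h := RG.neg _ (Ltf_thr w (fun i => -(2 * a i)) (θ - ∑ i, a i)
    (∑ i, |2 * a i| + 1))
  have e : (fun x : Fin N → Bool => -(if θ - ∑ i, a i ≤ ∑ i, (if x i then -(2 * a i) else 0) ∧
      ∑ i, (if x i then -(2 * a i) else 0) < ∑ i, |2 * a i| + 1 then (-1 : ℝ) else 1)) = ltf a θ := by
    funext x
    have h1 : ∑ i, (if x i then -(2 * a i) else 0) < ∑ i, |2 * a i| + 1 := by
      have : ∑ i, (if x i then -(2 * a i) else 0) ≤ ∑ i, |2 * a i| := by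
        refine Finset.sum_le_sum fun i _ => ?_
        split_ifs
        · exact neg_le_abs _
        · exact abs_nonneg _
      linarith
    have h2 : ∑ i, a i * (if x i then (-1 : ℝ) else 1) =
        ∑ i, a i + ∑ i, (if x i then -(2 * a i) else 0) := by
      rw [← Finset.sum_add_distrib]
      refine Finset.sum_congr rfl fun i _ => ?_
      split_ifs
      · ring
      · ring
    unfold ltf
    rw [h2]
    by_cases h3 : θ - ∑ i, a i ≤ ∑ i, (if x i then -(2 * a i) else 0)
    · rw [if_pos ⟨h3, h1⟩, if_pos (by linarith)]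
      norm_num
    · rw [if_neg (fun h => h3 h.1), if_neg (by intro h; exact h3 (by linarith))]
  rw [← e]
  exact h

end Pool.Agent.MP3145b1.RT
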