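import Pool.Agent.Lib.MP_3145b1_co.RT.Spec

/-!
# MP_3145b1_co, project RT: pivotal probability above 1/2
-/

set_option autoImplicit false

namespace Pool.Agent.MP3145b1.RT

open Finset Pool.Agent.MP3145b1 Pool.Agent.MP3145b1.RC Pool.Agent.MP3145b1.RD

/-- indicator of `h y = e` -/
private noncomputable def TBig_I (e : ℝ) (h : ℝ → ℝ) (y : ℝ) : ℝ := if h y = e then 1 else 0

private theorem TBig_I_nonneg (e : ℝ) (h : ℝ → ℝ) (y : ℝ) : 0 ≤ TBig_I e h y := by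
  unfold TBig_I
  split_ifs <;> norm_num

private theorem TBig_val (A : ℝ) {F : ℝ → ℝ} (hF : ∀ y, F y = 1 ∨ F y = -1) (y : ℝ) :
    (hA A F y ^ 2 = TBig_I 1 (hA A F) y + TBig_I (-1) (hA A F) y) ∧
    (hA A F y = TBig_I 1 (hA A F) y - TBig_I (-1) (hA A F) y) ∧
    TBig_I 1 (hA A F) y + TBig_I (-1) (hA A F) y ≤ 1 := by
  unfold TBig_I hA
  rcases hF y with h1 | h1 <;> rcases hF (y + A) with h2 | h2 <;> rw [h1, h2] <;> norm_num

private theorem TBig_dev (A q e : ℝ) {F : ℝ → ℝ} (hF : ∀ y, F y = 1 ∨ F y = -1) (h0 : 0 ≤ q) (h1 : q ≤ 1)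
    (he : e = 1 ∨ e = -1) (y : ℝ) :
    (gA q A F y - e * (2 * q - 1)) ^ 2 ≤ 4 * (1 - TBig_I e (hA A F) y) := by
  have hq0 : 0 ≤ q ^ 2 := sq_nonneg q
  have hq1 : q ^ 2 ≤ 1 := by nlinarith
  unfold TBig_I hA gA
  rcases he with he | he <;> subst he <;> rcases hF y with h2 | h2 <;> rcases hF (y + A) with h3 | h3 <;>
    rw [h2, h3] <;> norm_num <;> nlinarith

private theorem TBig_real (P1 P2 : ℝ) (h1 : 1 / 4 ≤ P1) (h2 : 0 ≤ P2) (h3 : P1 + P2 ≤ 1) :
    4 * (1 - P1) ≤ 16 * (P1 + P2 - (P1 - P2) ^ 2) := by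
  have h4 : 0 ≤ P2 * (1 - P2 + 2 * P1) := mul_nonneg h2 (by linarith)
  have h5 : 0 ≤ (P1 - 1 / 4) * (1 - P1) := mul_nonneg (by linarith) (by linarith)
  nlinarith

theorem rTBig : S_TBig := by
  intro a p J A q F z hp hq0 hq1 hF hW
  set P1 := Av a p J (TBig_I 1 (hA A F)) z with hP1
  set P2 := Av a p J (TBig_I (-1) (hA A F)) z with hP2
  have e2 : Av a p J (fun y => hA A F y ^ 2) z = P1 + P2 := by
    rw [Av_congr a p J (fun y => (TBig_val A hF y).1) z, hP1, hP2]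
    exact Av_add a p J _ _ z
  have e1 : Av a p J (hA A F) z = P1 - P2 := by
    rw [Av_congr a p J (fun y => (TBig_val A hF y).2.1) z, hP1, hP2]
    exact Av_sub a p J _ _ z
  have n1 : 0 ≤ P1 := Av_nonneg a hp J (fun y => TBig_I_nonneg _ _ y) z
  have n2 : 0 ≤ P2 := Av_nonneg a hp J (fun y => TBig_I_nonneg _ _ y) z
  have n3 : P1 + P2 ≤ 1 := by
    rw [← e2, Av_congr a p J (fun y => (TBig_val A hF y).1) z]
    exact Av_le_const a hp J (fun y => (TBig_val A hF y).2.2) z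
  have key : ∀ e : ℝ, e = 1 ∨ e = -1 →
      Av a p J (fun y => gA q A F y ^ 2) z - Av a p J (gA q A F) z ^ 2 ≤
        4 * (1 - Av a p J (TBig_I e (hA A F)) z) := by
    intro e he
    refine (Av_var_le a p J (gA q A F) (e * (2 * q - 1)) z).trans ?_
    refine (Av_mono a hp J (fun y => TBig_dev A q e hF hq0 hq1 he y) z).trans (le_of_eq ?_)
    rw [Av_mul a p J 4 (fun y => 1 - TBig_I e (hA A F) y) z,
      Av_sub a p J (fun _ => (1 : ℝ)) (TBig_I e (hA A F)) z, Av_const]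
  rw [e2] at hW
  rw [e2, e1]
  by_cases hc : 1 / 4 ≤ P1
  · exact (key 1 (Or.inl rfl)).trans (TBig_real P1 P2 hc n2 n3)
  · have hc2 : 1 / 4 ≤ P2 := by linarith
    have h3 := (key (-1) (Or.inr rfl)).trans (TBig_real P2 P1 hc2 n1 (by linarith))
    refine h3.trans (le_of_eq ?_)
    ring

end Pool.Agent.MP3145b1.RT
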