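import Pool.Agent.Lib.MP_3145b1_co.RT.Spec

/-!
# MP_3145b1_co, project RT, module TBlI: block inequality for the interval gate
-/

set_option autoImplicit false

namespace Pool.Agent.MP3145b1.RT

open Finset Pool.Agent.MP3145b1 Pool.Agent.MP3145b1.RC Pool.Agent.MP3145b1.RD

/-- variance of a difference -/
private theorem TBlI_var (a : ℕ → ℝ) {p : ℕ → ℝ} (hp : ∀ i, 0 ≤ p i ∧ p i ≤ 1) (B : Finset ℕ)
    (F G : ℝ → ℝ) (z V W : ℝ)
    (hF : Av a p B (fun y => F y ^ 2) z - Av a p B F z ^ 2 ≤ V)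
    (hG : Av a p B (fun y => G y ^ 2) z - Av a p B G z ^ 2 ≤ W) :
    Av a p B (fun y => (F y - G y) ^ 2) z - Av a p B (fun y => F y - G y) z ^ 2 ≤ 2 * (V + W) := by
  have h1 := Av_var_nonneg a hp B (fun y => F y + G y) z
  have e1 : Av a p B (fun y => (F y - G y) ^ 2) z =
      2 * Av a p B (fun y => F y ^ 2) z + 2 * Av a p B (fun y => G y ^ 2) z -
        Av a p B (fun y => (F y + G y) ^ 2) z := by
    rw [← Av_mul, ← Av_mul, ← Av_add, ← Av_sub]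
    exact Av_congr a p B (fun y => by ring) z
  rw [Av_add] at h1
  rw [Av_sub, e1]
  nlinarith

/-- the interval gate is short: `(g - 1)^2 ≤ 4 h^2` -/
private theorem TBlI_pt (θ1 θ2 A q y : ℝ) (hs : θ2 - θ1 < A) (hq0 : 0 ≤ q) (hq1 : q ≤ 1) :
    (gA q A (Og θ1 θ2) y - 1) ^ 2 ≤ 4 * hA A (Og θ1 θ2) y ^ 2 := by
  unfold gA hA Og
  by_cases h1 : θ1 ≤ y ∧ y < θ2
  · have h2 : ¬ (θ1 ≤ y + A ∧ y + A < θ2) := fun h => by linarith [h.2, h1.1]
    rw [if_pos h1, if_neg h2]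
    nlinarith
  · by_cases h2 : θ1 ≤ y + A ∧ y + A < θ2
    · rw [if_neg h1, if_pos h2]
      nlinarith
    · rw [if_neg h1, if_neg h2]
      nlinarith

/-- the interval gate as a difference of step functions -/
private theorem TBlI_og (θ1 θ2 y : ℝ) (h : θ1 ≤ θ2) : Og θ1 θ2 y = 1 - 2 * (Hv θ1 y - Hv θ2 y) := by
  unfold Og Hv
  by_cases h1 : θ1 ≤ y
  · by_cases h2 : θ2 ≤ y
    · rw [if_neg (fun h' => by linarith [h'.2]), if_pos h1, if_pos h2]; norm_num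
    · rw [if_pos ⟨h1, not_le.1 h2⟩, if_pos h1, if_neg h2]; norm_num
  · rw [if_neg (fun h' => h1 h'.1), if_neg h1, if_neg (fun h' => h1 (h.trans h'))]; norm_num

/-- the windows for a long interval -/
private theorem TBlI_win (θ1 θ2 A y : ℝ) (hA0 : 0 < A) (hs : A ≤ θ2 - θ1) :
    Wn θ1 A y + Wn θ2 A y = hA A (Og θ1 θ2) y ^ 2 := by
  unfold Wn hA Og
  by_cases h1 : θ1 ≤ y
  · have e1 : ¬ (θ1 - A ≤ y ∧ y < θ1) := fun h => by linarith [h.2]
    rw [if_neg e1]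
    by_cases h2 : y < θ2
    · rw [if_pos (⟨h1, h2⟩ : θ1 ≤ y ∧ y < θ2)]
      by_cases h3 : y + A < θ2
      · rw [if_pos (⟨by linarith, h3⟩ : θ1 ≤ y + A ∧ y + A < θ2),
          if_neg (fun h => by linarith [h.1] : ¬ (θ2 - A ≤ y ∧ y < θ2))]
        norm_num
      · rw [if_neg (fun h => h3 h.2 : ¬ (θ1 ≤ y + A ∧ y + A < θ2)),
          if_pos (⟨by linarith [not_lt.1 h3], h2⟩ : θ2 - A ≤ y ∧ y < θ2)]
        norm_num
    · rw [if_neg (fun h => h2 h.2 : ¬ (θ1 ≤ y ∧ y < θ2)),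
        if_neg (fun h => h2 h.2 : ¬ (θ2 - A ≤ y ∧ y < θ2)),
        if_neg (fun h => by linarith [h.2, not_lt.1 h2] : ¬ (θ1 ≤ y + A ∧ y + A < θ2))]
      norm_num
  · have h1' : y < θ1 := not_le.1 h1
    rw [if_neg (fun h => h1 h.1 : ¬ (θ1 ≤ y ∧ y < θ2)),
      if_neg (fun h => by linarith [h.1] : ¬ (θ2 - A ≤ y ∧ y < θ2))]
    by_cases h3 : θ1 - A ≤ y
    · rw [if_pos (⟨h3, h1'⟩ : θ1 - A ≤ y ∧ y < θ1),
        if_pos (⟨by linarith, by linarith⟩ : θ1 ≤ y + A ∧ y + A < θ2)]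
      norm_num
    · rw [if_neg (fun h => h3 h.1 : ¬ (θ1 - A ≤ y ∧ y < θ1)),
        if_neg (fun h => h3 (by linarith [h.1]) : ¬ (θ1 ≤ y + A ∧ y + A < θ2))]
      norm_num

theorem rTBlI (h1 : S_TStp) : S_TBlI := by
  intro a p B θ1 θ2 A q z hA0 hB hAb hq0 hq1
  have hp := hB.2
  have hnn : 0 ≤ Av a p B (fun y => hA A (Og θ1 θ2) y ^ 2) z :=
    Av_nonneg a hp B (fun y => sq_nonneg _) z
  by_cases hs : θ2 - θ1 < A
  · have e := Av_var_le a p B (gA q A (Og θ1 θ2)) 1 z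
    have e2 := Av_mono a hp B (fun y => TBlI_pt θ1 θ2 A q y hs hq0 hq1) z
    rw [Av_mul a p B 4 (fun y => hA A (Og θ1 θ2) y ^ 2)] at e2
    linarith
  · have hs' : A ≤ θ2 - θ1 := not_lt.1 hs
    have hV := TBlI_var a hp B _ _ z _ _ (h1 a p B θ1 A q z hA0 hB hAb hq0 hq1)
      (h1 a p B θ2 A q z hA0 hB hAb hq0 hq1)
    have hw : Av a p B (Wn θ1 A) z + Av a p B (Wn θ2 A) z =
        Av a p B (fun y => hA A (Og θ1 θ2) y ^ 2) z := by
      rw [← Av_add]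
      exact Av_congr a p B (fun y => TBlI_win θ1 θ2 A y hA0 hs') z
    have eg : gA q A (Og θ1 θ2) =
        fun y => 1 - 2 * (gA q A (Hv θ1) y - gA q A (Hv θ2) y) := by
      funext y
      unfold gA
      rw [TBlI_og θ1 θ2 y (by linarith), TBlI_og θ1 θ2 (y + A) (by linarith)]
      ring
    have em : Av a p B (gA q A (Og θ1 θ2)) z =
        1 - 2 * Av a p B (fun y => gA q A (Hv θ1) y - gA q A (Hv θ2) y) z := by
      rw [eg, Av_sub a p B (fun _ => 1) (fun y => 2 * (gA q A (Hv θ1) y - gA q A (Hv θ2) y)),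
        Av_const, Av_mul]
    have es : Av a p B (fun y => gA q A (Og θ1 θ2) y ^ 2) z =
        1 - 4 * Av a p B (fun y => gA q A (Hv θ1) y - gA q A (Hv θ2) y) z +
          4 * Av a p B (fun y => (gA q A (Hv θ1) y - gA q A (Hv θ2) y) ^ 2) z := by
      have e3 := Av_add a p B (fun y => 1 - 4 * (gA q A (Hv θ1) y - gA q A (Hv θ2) y))
        (fun y => 4 * (gA q A (Hv θ1) y - gA q A (Hv θ2) y) ^ 2) z
      rw [Av_sub a p B (fun _ => 1) (fun y => 4 * (gA q A (Hv θ1) y - gA q A (Hv θ2) y)),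
        Av_const, Av_mul, Av_mul a p B 4 (fun y => (gA q A (Hv θ1) y - gA q A (Hv θ2) y) ^ 2)] at e3
      rw [← e3, eg]
      exact Av_congr a p B (fun y => by ring) z
    rw [em, es]
    nlinarith

end Pool.Agent.MP3145b1.RT
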