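import Pool.Agent.Lib.MP_3145b1_co.RT.Spec

/-! Module TBlS: block inequality for symmetric gates. -/

set_option autoImplicit false

namespace Pool.Agent.MP3145b1.RT

open Finset Pool.Agent.MP3145b1 Pool.Agent.MP3145b1.RC Pool.Agent.MP3145b1.RD

private lemma TBlS_one (P q u v w : ℝ) (hP0 : 0 ≤ P) (hP1 : P ≤ 1) (hq0 : 0 ≤ q) (hq1 : q ≤ 1) :
    P * (q * u + (1 - q) * v) ^ 2 + (1 - P) * (q * v + (1 - q) * w) ^ 2 -
      (P * (q * u + (1 - q) * v) + (1 - P) * (q * v + (1 - q) * w)) ^ 2 ≤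
    40 * (P * ((u - v) / 2) ^ 2 + (1 - P) * ((v - w) / 2) ^ 2) := by
  have e : P * (q * u + (1 - q) * v) ^ 2 + (1 - P) * (q * v + (1 - q) * w) ^ 2 -
      (P * (q * u + (1 - q) * v) + (1 - P) * (q * v + (1 - q) * w)) ^ 2 =
      P * (1 - P) * (q * (u - v) + (1 - q) * (v - w)) ^ 2 := by ring
  rw [e]
  have h1 : 0 ≤ 1 - P := by linarith
  have h2 : 0 ≤ 1 - q := by linarith
  have h3 : 0 ≤ P * (1 - P) := mul_nonneg hP0 h1
  have h4 : P * (1 - P) ≤ P := by nlinarith
  have h5 : P * (1 - P) ≤ 1 - P := by nlinarith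
  have h6 : (q * (u - v) + (1 - q) * (v - w)) ^ 2 ≤ 2 * (u - v) ^ 2 + 2 * (v - w) ^ 2 := by
    have k1 : (q * (u - v) + (1 - q) * (v - w)) ^ 2 ≤
        2 * (q * (u - v)) ^ 2 + 2 * ((1 - q) * (v - w)) ^ 2 := by
      nlinarith [sq_nonneg (q * (u - v) - (1 - q) * (v - w))]
    have k2 : (q * (u - v)) ^ 2 ≤ (u - v) ^ 2 := by
      rw [mul_pow]
      have : q ^ 2 ≤ 1 := by nlinarith
      nlinarith [sq_nonneg (u - v)]
    have k3 : ((1 - q) * (v - w)) ^ 2 ≤ (v - w) ^ 2 := by
      rw [mul_pow]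
      have : (1 - q) ^ 2 ≤ 1 := by nlinarith
      nlinarith [sq_nonneg (v - w)]
    linarith
  have h7 : P * (1 - P) * (q * (u - v) + (1 - q) * (v - w)) ^ 2 ≤
      P * (1 - P) * (2 * (u - v) ^ 2 + 2 * (v - w) ^ 2) := mul_le_mul_of_nonneg_left h6 h3
  have h8 : P * (1 - P) * (u - v) ^ 2 ≤ P * (u - v) ^ 2 :=
    mul_le_mul_of_nonneg_right h4 (sq_nonneg _)
  have h9 : P * (1 - P) * (v - w) ^ 2 ≤ (1 - P) * (v - w) ^ 2 :=
    mul_le_mul_of_nonneg_right h5 (sq_nonneg _)
  have h10 : 0 ≤ P * (u - v) ^ 2 := mul_nonneg hP0 (sq_nonneg _)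
  have h11 : 0 ≤ (1 - P) * (v - w) ^ 2 := mul_nonneg h1 (sq_nonneg _)
  have h12 : 40 * (P * ((u - v) / 2) ^ 2 + (1 - P) * ((v - w) / 2) ^ 2) =
      10 * (P * (u - v) ^ 2) + 10 * ((1 - P) * (v - w) ^ 2) := by ring
  rw [h12]
  nlinarith

private lemma TBlS_sq4 {q c u v : ℝ} (hq0 : 0 ≤ q) (hq1 : q ≤ 1) (hc : c = 1 ∨ c = -1)
    (hu : u = 1 ∨ u = -1) (hv : v = 1 ∨ v = -1) : (q * u + (1 - q) * v - c) ^ 2 ≤ 4 := by
  rcases hc with rfl | rfl <;> rcases hu with rfl | rfl <;> rcases hv with rfl | rfl <;> nlinarith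

private lemma TBlS_up {f : ℕ → ℝ} {k0 k : ℕ} (hk : k0 ≤ k) (h : ∀ j, k0 ≤ j → j ≤ k → f j = f (j + 1)) :
    f k = f k0 ∧ f (k + 1) = f k0 := by
  induction k, hk using Nat.le_induction with
  | base => exact ⟨rfl, (h k0 le_rfl le_rfl).symm⟩
  | succ k hk ih =>
    have ih' := ih (fun j h1 h2 => h j h1 (by omega))
    refine ⟨ih'.2, ?_⟩
    rw [← h (k + 1) (by omega) le_rfl]
    exact ih'.2

private lemma TBlS_down {f : ℕ → ℝ} {k0 k : ℕ} (hk : k < k0) (h : ∀ j, k ≤ j → j < k0 → f j = f (j + 1)) :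
    f k = f k0 ∧ f (k + 1) = f k0 := by
  have h1 : ∀ d, k + d ≤ k0 → f (k + d) = f k := by
    intro d
    induction d with
    | zero => intro _; rfl
    | succ d ih =>
      intro hd
      rw [← ih (by omega)]
      exact (h (k + d) (by omega) (by omega)).symm
  have h2 := h1 (k0 - k) (by omega)
  rw [show k + (k0 - k) = k0 by omega] at h2
  exact ⟨h2.symm, (h1 1 (by omega)).trans h2.symm⟩

theorem rTBlS (h1 : S_TPos) : S_TBlS := by
  intro a p B F q z hBd ha hAb hq0 hq1 hF
  have hp := hBd.2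
  rcases hAb with hAb | hAb
  · -- one variable
    obtain ⟨i, rfl⟩ := Finset.card_eq_one.1 hAb
    have hai : a i = 1 := ha i (Finset.mem_singleton_self i)
    have key : ∀ G : ℝ → ℝ, Av a p {i} G z = p i * G z + (1 - p i) * G (z + 1) := by
      intro G
      have h2 := Av_insert a p ∅ i (Finset.notMem_empty i) G z
      rw [Av_empty, Av_empty, hai] at h2
      exact h2
    rw [key, key, key]
    unfold gA hA
    exact TBlS_one (p i) q (F z) (F (z + 1)) (F (z + 1 + 1)) (hp i).1 (hp i).2 hq0 hq1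
  · -- small variance
    have hcard : ∀ S : Finset ℕ, S ⊆ B → z + ∑ i ∈ S, a i = z + (S.card : ℝ) := by
      intro S hS
      rw [Finset.sum_congr rfl (fun i hi => ha i (hS hi)), Finset.sum_const, nsmul_eq_mul, mul_one]
    obtain ⟨f, hf⟩ : ∃ f : ℕ → ℝ, ∀ k, f k = F (z + k) := ⟨fun k => F (z + k), fun _ => rfl⟩
    have hfv : ∀ k, f k = 1 ∨ f k = -1 := fun k => by rw [hf]; exact hF _
    have hg : ∀ k : ℕ, gA q 1 F (z + k) = q * f k + (1 - q) * f (k + 1) := by
      intro k
      unfold gA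
      rw [hf, hf]
      push_cast
      rw [add_assoc]
    have hh' : ∀ k : ℕ, hA 1 F (z + k) = (f k - f (k + 1)) / 2 := by
      intro k
      unfold hA
      rw [hf, hf]
      push_cast
      rw [add_assoc]
    have hh1 : ∀ k : ℕ, f k ≠ f (k + 1) → hA 1 F (z + k) ^ 2 = 1 := by
      intro k hk
      rw [hh']
      rcases hfv k with h2 | h2 <;> rcases hfv (k + 1) with h3 | h3 <;> rw [h2, h3] at hk ⊢
      · exact absurd rfl hk
      · norm_num
      · norm_num
      · exact absurd rfl hk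
    have hex : ∃ k : ℕ, mn a p B - 1 / 2 < k := exists_nat_gt _
    classical
    obtain ⟨k0, hk0, hk0m⟩ : ∃ k0 : ℕ, mn a p B - 1 / 2 < k0 ∧ ∀ k : ℕ, k < k0 → (k : ℝ) ≤ mn a p B - 1 / 2 :=
      ⟨Nat.find hex, Nat.find_spec hex, fun k hk => not_lt.1 (Nat.find_min hex hk)⟩
    obtain ⟨W, hW⟩ : ∃ W, W = Av a p B (fun y => hA 1 F y ^ 2) z := ⟨_, rfl⟩
    have hW0 : 0 ≤ W := by
      rw [hW]
      exact Av_nonneg a hp B (fun y => sq_nonneg _) z
    -- windows
    have hwin : ∀ k1 : ℕ, f k1 ≠ f (k1 + 1) → Av a p B (Wn (z + k1 + 1) 1) z ≤ W := by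
      intro k1 hk1
      rw [hW]
      apply Av_mono_on a hp B z
      intro S hS
      rw [hcard S hS]
      by_cases hk : S.card = k1
      · rw [hk, hh1 k1 hk1]
        exact Wn_le _ _ _
      · have h2 : Wn (z + k1 + 1) 1 (z + (S.card : ℝ)) = 0 := by
          unfold Wn
          rw [if_neg]
          rintro ⟨h3, h4⟩
          apply hk
          have h5 : (k1 : ℝ) ≤ S.card := by linarith
          have h6 : (S.card : ℝ) < k1 + 1 := by linarith
          have h5' : k1 ≤ S.card := by exact_mod_cast h5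
          have h6' : S.card < k1 + 1 := by exact_mod_cast h6
          omega
        rw [h2]
        exact sq_nonneg _
    -- right part
    obtain ⟨I1, hI1n, hI1, hI1a⟩ : ∃ I1 : ℝ → ℝ, (∀ y, 0 ≤ I1 y) ∧
        (∀ k : ℕ, k0 ≤ k → (gA q 1 F (z + k) - f k0) ^ 2 ≤ 4 * I1 (z + k)) ∧ Av a p B I1 z ≤ 5 * W := by
      by_cases hE : ∃ k, k0 ≤ k ∧ f k ≠ f (k + 1)
      · obtain ⟨k1, ⟨hk1a, hk1b⟩, hk1m⟩ : ∃ k1, (k0 ≤ k1 ∧ f k1 ≠ f (k1 + 1)) ∧
            ∀ k, k < k1 → ¬ (k0 ≤ k ∧ f k ≠ f (k + 1)) :=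
          ⟨Nat.find hE, Nat.find_spec hE, fun k hk => Nat.find_min hE hk⟩
        refine ⟨fun y => Wn (z + k1 + 1) 1 y + Hv (z + k1 + 1) y, ?_, ?_, ?_⟩
        · intro y
          have h2 : 0 ≤ Hv (z + k1 + 1) y := by unfold Hv; split_ifs <;> norm_num
          exact add_nonneg (Wn_nonneg _ _ _) h2
        · intro k hk
          by_cases hkk : k1 ≤ k
          · have hkr : (k1 : ℝ) ≤ k := by exact_mod_cast hkk
            have h2 : 1 ≤ Wn (z + k1 + 1) 1 (z + (k : ℝ)) + Hv (z + k1 + 1) (z + (k : ℝ)) := by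
              unfold Wn Hv
              by_cases h3 : z + k1 + 1 ≤ z + (k : ℝ)
              · rw [if_pos h3]
                split_ifs <;> norm_num
              · rw [if_neg h3, if_pos ⟨by linarith, not_le.1 h3⟩]
                norm_num
            rw [hg]
            have h3 := TBlS_sq4 hq0 hq1 (hfv k0) (hfv k) (hfv (k + 1))
            linarith
          · have h2 := TBlS_up hk (fun j hj1 hj2 => by
              by_contra h3
              exact hk1m j (by omega) ⟨hj1, h3⟩)
            rw [hg, h2.1, h2.2]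
            have h3 : 0 ≤ Wn (z + k1 + 1) 1 (z + (k : ℝ)) + Hv (z + k1 + 1) (z + (k : ℝ)) := by
              have h2 : 0 ≤ Hv (z + k1 + 1) (z + (k : ℝ)) := by unfold Hv; split_ifs <;> norm_num
              exact add_nonneg (Wn_nonneg _ _ _) h2
            have h4 : (q * f k0 + (1 - q) * f k0 - f k0) ^ 2 = 0 := by ring
            rw [h4]
            linarith
        · rw [Av_add]
          have h2 := hwin k1 hk1b
          have h3 := (h1 a p B (z + k1 + 1) 1 z one_pos hBd hAb).1 (by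
            have : (k0 : ℝ) ≤ k1 := by exact_mod_cast hk1a
            linarith)
          linarith
      · refine ⟨fun _ => 0, fun _ => le_rfl, ?_, ?_⟩
        · intro k hk
          have h2 := TBlS_up hk (fun j hj1 _ => by
            by_contra h3
            exact hE ⟨j, hj1, h3⟩)
          rw [hg, h2.1, h2.2]
          apply le_of_eq
          ring
        · rw [Av_const]
          linarith
    -- left part
    obtain ⟨I2, hI2n, hI2, hI2a⟩ : ∃ I2 : ℝ → ℝ, (∀ y, 0 ≤ I2 y) ∧
        (∀ k : ℕ, k < k0 → (gA q 1 F (z + k) - f k0) ^ 2 ≤ 4 * I2 (z + k)) ∧ Av a p B I2 z ≤ 5 * W := by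
      by_cases hE : ((range k0).filter (fun k => f k ≠ f (k + 1))).Nonempty
      · obtain ⟨k2, hk2, hk2m⟩ := Finset.exists_max_image _ (fun k => k) hE
        rw [Finset.mem_filter, Finset.mem_range] at hk2
        obtain ⟨hk2a, hk2b⟩ := hk2
        refine ⟨fun y => Wn (z + k2 + 1) 1 y + (if y < z + k2 + 1 - 1 then 1 else 0), ?_, ?_, ?_⟩
        · intro y
          refine add_nonneg (Wn_nonneg _ _ _) ?_
          split_ifs <;> norm_num
        · intro k hk
          by_cases hkk : k ≤ k2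
          · have hkr : (k : ℝ) ≤ k2 := by exact_mod_cast hkk
            have h2 : 1 ≤ Wn (z + k2 + 1) 1 (z + (k : ℝ)) +
                (if z + (k : ℝ) < z + k2 + 1 - 1 then (1 : ℝ) else 0) := by
              unfold Wn
              by_cases h3 : z + (k : ℝ) < z + k2 + 1 - 1
              · rw [if_pos h3]
                split_ifs <;> norm_num
              · rw [if_neg h3, if_pos ⟨not_lt.1 h3, by linarith⟩]
                norm_num
            rw [hg]
            have h3 := TBlS_sq4 hq0 hq1 (hfv k0) (hfv k) (hfv (k + 1))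
            linarith
          · have h2 := TBlS_down hk (fun j hj1 hj2 => by
              by_contra h3
              have h4 := hk2m j (Finset.mem_filter.2 ⟨Finset.mem_range.2 hj2, h3⟩)
              omega)
            rw [hg, h2.1, h2.2]
            have h3 : 0 ≤ Wn (z + k2 + 1) 1 (z + (k : ℝ)) +
                (if z + (k : ℝ) < z + k2 + 1 - 1 then (1 : ℝ) else 0) := by
              refine add_nonneg (Wn_nonneg _ _ _) ?_
              split_ifs <;> norm_num
            have h4 : (q * f k0 + (1 - q) * f k0 - f k0) ^ 2 = 0 := by ring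
            rw [h4]
            linarith
        · have h5 := Av_add a p B (Wn (z + k2 + 1) 1) (fun y => if y < z + k2 + 1 - 1 then 1 else 0) z
          rw [h5]
          have h2 := hwin k2 hk2b
          have h3 := (h1 a p B (z + k2 + 1) 1 z one_pos hBd hAb).2 (by
            have := hk0m k2 hk2a
            linarith)
          linarith
      · refine ⟨fun _ => 0, fun _ => le_rfl, ?_, ?_⟩
        · intro k hk
          have h2 := TBlS_down hk (fun j hj1 hj2 => by
            by_contra h3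
            exact hE ⟨j, Finset.mem_filter.2 ⟨Finset.mem_range.2 hj2, h3⟩⟩)
          rw [hg, h2.1, h2.2]
          apply le_of_eq
          ring
        · rw [Av_const]
          linarith
    have h2 := Av_var_le a p B (gA q 1 F) (f k0) z
    have h3 : Av a p B (fun y => (gA q 1 F y - f k0) ^ 2) z ≤ Av a p B (fun y => 4 * (I1 y + I2 y)) z := by
      apply Av_mono_on a hp B z
      intro S hS
      rw [hcard S hS]
      rcases le_or_gt k0 S.card with hk | hk
      · have h4 := hI1 S.card hk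
        have h5 := hI2n (z + (S.card : ℝ))
        linarith
      · have h4 := hI2 S.card hk
        have h5 := hI1n (z + (S.card : ℝ))
        linarith
    have h4 : Av a p B (fun y => 4 * (I1 y + I2 y)) z = 4 * (Av a p B I1 z + Av a p B I2 z) := by
      rw [Av_mul a p B 4 (fun y => I1 y + I2 y), Av_add]
    rw [h4] at h3
    rw [← hW]
    linarith

end Pool.Agent.MP3145b1.RT
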