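import Pool.Agent.Lib.MP_3145b1_co.RT.Spec

/-!
# MP_3145b1_co, RT: Fourier coefficients of a gate
-/

set_option autoImplicit false

namespace Pool.Agent.MP3145b1.RT

open Finset Pool.Agent.MP3145b1 Pool.Agent.MP3145b1.RC Pool.Agent.MP3145b1.RD

private theorem TCfo_split {N : ℕ} (U g0 g1 : (Fin N → Bool) → ℝ) (hU : ∀ y, U y = 1 ∨ U y = -1)
    (f : (Fin N → Bool) → ℝ) (hf1 : ∀ y, U y = -1 → f y = g1 y) (hf0 : ∀ y, U y ≠ -1 → f y = g0 y)
    (S : Finset (Fin N)) :
    coeff f S = (1 / 2) * (coeff g0 S + coeff g1 S) +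
      (1 / 2) * (coeff (fun y => U y * g0 y) S - coeff (fun y => U y * g1 y) S) := by
  unfold coeff
  have h : ∑ x : Fin N → Bool, f x * ∏ i ∈ S, (if x i then (-1 : ℝ) else 1) =
      (1 / 2) * (∑ x : Fin N → Bool, g0 x * ∏ i ∈ S, (if x i then (-1 : ℝ) else 1)) +
      (1 / 2) * (∑ x : Fin N → Bool, g1 x * ∏ i ∈ S, (if x i then (-1 : ℝ) else 1)) +
      (1 / 2) * (∑ x : Fin N → Bool, (U x * g0 x) * ∏ i ∈ S, (if x i then (-1 : ℝ) else 1)) -
      (1 / 2) * (∑ x : Fin N → Bool, (U x * g1 x) * ∏ i ∈ S, (if x i then (-1 : ℝ) else 1)) := by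
    rw [Finset.mul_sum, Finset.mul_sum, Finset.mul_sum, Finset.mul_sum, ← Finset.sum_add_distrib,
      ← Finset.sum_add_distrib, ← Finset.sum_sub_distrib]
    apply Finset.sum_congr rfl
    intro y _
    rcases hU y with h | h
    · rw [hf0 y (by rw [h]; norm_num), h]
      ring
    · rw [hf1 y h, h]
      ring
  rw [h]
  ring

private theorem TCfo_inter {N : ℕ} (P : ℕ → Finset (Fin N)) (hP : ∀ i j, i ≠ j → Disjoint (P i) (P j))
    (S : Finset (Fin N)) (i j : ℕ) (hij : j ≠ i) : (S \ P i) ∩ P j = S ∩ P j := by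
  ext a
  simp only [Finset.mem_inter, Finset.mem_sdiff]
  constructor
  · rintro ⟨⟨h1, _⟩, h3⟩
    exact ⟨h1, h3⟩
  · rintro ⟨h1, h3⟩
    exact ⟨⟨h1, fun h => Finset.disjoint_left.mp (hP j i hij) h3 h⟩, h3⟩

private theorem TCfo_TT {N : ℕ} (P : ℕ → Finset (Fin N)) (hP : ∀ i j, i ≠ j → Disjoint (P i) (P j)) (M : ℕ)
    (S : Finset (Fin N)) : TT P M (S \ P M) = TT P M S := by
  unfold TT
  apply Finset.filter_congr
  intro j hj
  rw [TCfo_inter P hP S M j (by rw [Finset.mem_range] at hj; omega)]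

private theorem TCfo_TT_sub {N : ℕ} (P : ℕ → Finset (Fin N)) (M : ℕ) (S : Finset (Fin N)) :
    TT P M S ⊆ range M := Finset.filter_subset _ _

private theorem TCfo_TT_mem {N : ℕ} (P : ℕ → Finset (Fin N)) (M : ℕ)
    (S : Finset (Fin N)) (hS : (S ∩ P M).Nonempty) : TT P (M + 1) S = insert M (TT P M S) := by
  unfold TT
  rw [Finset.range_add_one, Finset.filter_insert, if_pos hS]

private theorem TCfo_TT_not {N : ℕ} (P : ℕ → Finset (Fin N)) (M : ℕ)
    (S : Finset (Fin N)) (hS : ¬ (S ∩ P M).Nonempty) : TT P (M + 1) S = TT P M S := by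
  unfold TT
  rw [Finset.range_add_one, Finset.filter_insert, if_neg hS]

private theorem TCfo_sub {N : ℕ} (P : ℕ → Finset (Fin N)) (M : ℕ) (S : Finset (Fin N)) :
    S \ P M ⊆ (range M).biUnion P ↔ S ⊆ (range (M + 1)).biUnion P := by
  constructor
  · intro h a ha
    rw [Finset.mem_biUnion]
    by_cases hai : a ∈ P M
    · exact ⟨M, Finset.mem_range.mpr (Nat.lt_succ_self M), hai⟩
    · obtain ⟨j, hj, haj⟩ := Finset.mem_biUnion.mp (h (Finset.mem_sdiff.mpr ⟨ha, hai⟩))
      rw [Finset.mem_range] at hj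
      exact ⟨j, Finset.mem_range.mpr (by omega), haj⟩
  · intro h a ha
    rw [Finset.mem_sdiff] at ha
    obtain ⟨j, hj, haj⟩ := Finset.mem_biUnion.mp (h ha.1)
    rw [Finset.mem_range] at hj
    have hjM : j ≠ M := by
      rintro rfl
      exact ha.2 haj
    rw [Finset.mem_biUnion]
    exact ⟨j, Finset.mem_range.mpr (by omega), haj⟩

private theorem TCfo_Lp_mem {N : ℕ} (P : ℕ → Finset (Fin N)) (hP : ∀ i j, i ≠ j → Disjoint (P i) (P j)) (M : ℕ)
    (ψ : ℕ → Finset (Fin N) → ℝ) (S : Finset (Fin N)) (hS : (S ∩ P M).Nonempty) :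
    Lp P (M + 1) ψ S = ψ M (S ∩ P M) * Lp P M ψ (S \ P M) := by
  unfold Lp
  by_cases h : S ⊆ (range (M + 1)).biUnion P
  · rw [if_pos h, if_pos ((TCfo_sub P M S).mpr h), TCfo_TT_mem P M S hS, TCfo_TT P hP M S,
      Finset.prod_insert (fun h' => Finset.notMem_range_self (TCfo_TT_sub P M S h'))]
    congr 1
    apply Finset.prod_congr rfl
    intro j hj
    have hj' := Finset.mem_range.mp (TCfo_TT_sub P M S hj)
    rw [TCfo_inter P hP S M j (by omega)]
  · rw [if_neg h, if_neg (fun h' => h ((TCfo_sub P M S).mp h')), mul_zero]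

private theorem TCfo_Lp_not {N : ℕ} (P : ℕ → Finset (Fin N)) (M : ℕ)
    (ψ : ℕ → Finset (Fin N) → ℝ) (S : Finset (Fin N)) (hS : ¬ (S ∩ P M).Nonempty) :
    Lp P (M + 1) ψ S = Lp P M ψ S := by
  have hS0 : S ∩ P M = ∅ := Finset.not_nonempty_iff_eq_empty.mp hS
  have hS1 : S \ P M = S := by
    rw [Finset.sdiff_eq_self_iff_disjoint, Finset.disjoint_iff_inter_eq_empty]
    exact hS0
  have hsub := TCfo_sub P M S
  rw [hS1] at hsub
  unfold Lp
  by_cases h : S ⊆ (range (M + 1)).biUnion P
  · rw [if_pos h, if_pos (hsub.mpr h), TCfo_TT_not P M S hS]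
  · rw [if_neg h, if_neg (fun h' => h (hsub.mp h'))]

theorem rTCfo (h1 : S_Prd) : S_TCfo := by
  obtain ⟨hA, hB⟩ := h1
  intro N M a F P u hC
  obtain ⟨hP, hd, hu⟩ := hC
  induction M with
  | zero =>
    intro z S
    have hF : (fun x : Fin N → Bool => F (z + ∑ i ∈ range 0, (if u i x = -1 then a i else 0))) =
        fun _ => F z := by
      funext x
      simp
    rw [hF]
    by_cases hS : S = ∅
    · subst hS
      have hT : TT P 0 (∅ : Finset (Fin N)) = ∅ := by
        simp [TT]
      have hL : Lp P 0 (fun i R => coeff (u i) R) (∅ : Finset (Fin N)) = 1 := by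
        unfold Lp
        rw [if_pos (Finset.empty_subset _), hT, Finset.prod_empty]
      rw [hT, hL, Q.coeff_mean, Co_empty, Finset.range_zero, Av_empty]
      have : (fun y : Fin N → Bool => F z * sgn y ∅) = fun _ => F z := by
        funext y
        simp [sgn]
      rw [this, Q.mean_const]
      ring
    · have h0 : coeff (fun _ : Fin N → Bool => F z) S = 0 := by
        apply hB N ∅ _ (fun _ _ _ => rfl)
        intro h
        exact hS (Finset.subset_empty.mp h)
      rw [h0]
      unfold Lp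
      rw [if_neg (fun h => hS (Finset.subset_empty.mp (by simpa using h))), zero_mul]
  | succ M ih =>
    intro z S
    have hdis : Disjoint (P M) ((range M).biUnion P) := by
      rw [Finset.disjoint_left]
      intro b hb hb'
      obtain ⟨j, hj, hbj⟩ := Finset.mem_biUnion.mp hb'
      have hij : M ≠ j := by
        have := Finset.mem_range.mp hj
        omega
      exact Finset.disjoint_left.mp (hP _ _ hij) hb hbj
    have hdep : ∀ z : ℝ, Dp ((range M).biUnion P)
        (fun x : Fin N → Bool => F (z + ∑ i ∈ range M, (if u i x = -1 then a i else 0))) := by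
      intro z x y hxy
      have e : ∀ i ∈ range M, (if u i x = -1 then a i else 0) = (if u i y = -1 then a i else 0) := by
        intro i hi
        have : u i x = u i y := hd i x y (fun b hb => hxy b (Finset.mem_biUnion.mpr ⟨i, hi, hb⟩))
        rw [this]
      dsimp only
      rw [Finset.sum_congr rfl e]
    have hprod : ∀ z : ℝ, coeff (fun x : Fin N → Bool => u M x *
          F (z + ∑ i ∈ range M, (if u i x = -1 then a i else 0))) S =
        coeff (u M) (S ∩ P M) *
          coeff (fun x : Fin N → Bool => F (z + ∑ i ∈ range M, (if u i x = -1 then a i else 0))) (S \ P M) :=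
      fun z => hA N (P M) _ (u M) _ hdis (hd M) (hdep z) S
    have hsplit := TCfo_split (u M)
      (fun x : Fin N → Bool => F (z + ∑ i ∈ range M, (if u i x = -1 then a i else 0)))
      (fun x : Fin N → Bool => F (z + a M + ∑ i ∈ range M, (if u i x = -1 then a i else 0)))
      (hu M) (fun x : Fin N → Bool => F (z + ∑ i ∈ range (M + 1), (if u i x = -1 then a i else 0)))
      (fun y hy => by
        rw [Finset.sum_range_succ, if_pos hy]
        congr 1
        ring)
      (fun y hy => by
        rw [Finset.sum_range_succ, if_neg hy, add_zero]) S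
    rw [hprod, hprod] at hsplit
    rw [hsplit, Finset.range_add_one]
    have hM : M ∉ range M := Finset.notMem_range_self
    by_cases hS : (S ∩ P M).Nonempty
    · have h0 : ∀ z : ℝ, coeff (fun x : Fin N → Bool =>
          F (z + ∑ i ∈ range M, (if u i x = -1 then a i else 0))) S = 0 := by
        intro z
        apply hB N _ _ (hdep z)
        intro h
        obtain ⟨b, hb⟩ := hS
        rw [Finset.mem_inter] at hb
        exact Finset.disjoint_left.mp hdis hb.2 (h hb.1)
      rw [h0, h0, ih, ih, TCfo_TT P hP M S, TCfo_TT_mem P M S hS,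
        TCfo_Lp_mem P hP M (fun i R => coeff (u i) R) S hS,
        Co_insert_mem a (pb u) (range M) (TT P M S) M hM (TCfo_TT_sub P M S)]
      ring
    · have hS0 : S ∩ P M = ∅ := Finset.not_nonempty_iff_eq_empty.mp hS
      have hS1 : S \ P M = S := by
        rw [Finset.sdiff_eq_self_iff_disjoint, Finset.disjoint_iff_inter_eq_empty]
        exact hS0
      rw [hS0, hS1, ih, ih, TCfo_TT_not P M S hS, TCfo_Lp_not P M (fun i R => coeff (u i) R) S hS,
        Co_insert_not a (pb u) (range M) (TT P M S) M hM (TCfo_TT_sub P M S)]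
      have hp : coeff (u M) ∅ = 2 * pb u M - 1 := by
        unfold pb
        ring
      rw [hp]
      ring

end Pool.Agent.MP3145b1.RT
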