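import Pool.Agent.Lib.MP_3145b1_co.RT.Spec
set_option autoImplicit false
namespace Pool.Agent.MP3145b1.RT
open Finset Pool.Agent.MP3145b1 Pool.Agent.MP3145b1.RC Pool.Agent.MP3145b1.RD

private lemma TChb_sq (a p : ℕ → ℝ) (B : Finset ℕ) (z c : ℝ) :
    Av a p B (fun y => (y - c) ^ 2) z = vr a p B + (z + mn a p B - c) ^ 2 := by
  induction B using Finset.induction_on generalizing z with
  | empty => rw [Av_empty]; simp [vr, mn]
  | insert i B hi ih =>
    rw [Av_insert _ _ _ _ hi, ih, ih]
    unfold vr mn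
    rw [Finset.sum_insert hi, Finset.sum_insert hi]
    ring

theorem rTChb : S_TChb := by
  intro a p B hp z
  refine ⟨fun c => TChb_sq a p B z c, fun r hr => ?_⟩
  have h1 := TChb_sq a p B z (z + mn a p B)
  have h2 : Av a p B (fun y => 1 - 1 / r ^ 2 * (y - (z + mn a p B)) ^ 2) z ≤
      Av a p B (fun y => if |y - (z + mn a p B)| < r then 1 else 0) z := by
    refine Av_mono a hp B (fun y => ?_) z
    by_cases h : |y - (z + mn a p B)| < r
    · rw [if_pos h]
      have : 0 ≤ 1 / r ^ 2 * (y - (z + mn a p B)) ^ 2 := by positivity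
      linarith
    · rw [if_neg h]
      have h3 : r ≤ |y - (z + mn a p B)| := not_lt.1 h
      have h4 : r ^ 2 ≤ (y - (z + mn a p B)) ^ 2 := by
        rw [← sq_abs (y - (z + mn a p B))]
        exact pow_le_pow_left₀ hr.le h3 2
      have h5 : 1 ≤ 1 / r ^ 2 * (y - (z + mn a p B)) ^ 2 := by
        rw [one_div, inv_mul_eq_div, le_div_iff₀ (by positivity)]
        linarith
      linarith
  rw [Av_sub a p B (fun _ => (1 : ℝ)) (fun y => 1 / r ^ 2 * (y - (z + mn a p B)) ^ 2), Av_const, Av_mul, h1] at h2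
  have e : 1 / r ^ 2 * (vr a p B + (z + mn a p B - (z + mn a p B)) ^ 2) = vr a p B / r ^ 2 := by
    rw [sub_self]; ring
  rw [e] at h2
  exact h2

end Pool.Agent.MP3145b1.RT
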