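import Pool.Agent.Lib.MP_3145b1_co.RT.Spec

/-!
# MP_3145b1_co, project RT, module TChf: characteristic function
-/

set_option autoImplicit false

namespace Pool.Agent.MP3145b1.RT

open Finset Pool.Agent.MP3145b1 Pool.Agent.MP3145b1.RC Pool.Agent.MP3145b1.RD

private theorem TChf_cos_lower {x : ℝ} (hx : |x| ≤ 1) : 1 - Real.cos x ≥ 2 / 5 * x ^ 2 := by
  have h := Real.cos_bound hx
  have h2 := (abs_le.1 h).2
  have h3 : |x| ^ 4 = x ^ 2 * x ^ 2 := by
    rw [show |x| ^ 4 = (|x| ^ 2) ^ 2 by ring, sq_abs]; ring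
  rw [h3] at h2
  have h4 : x ^ 2 ≤ 1 := by
    rw [← sq_abs]; nlinarith [abs_nonneg x]
  nlinarith [sq_nonneg x]

private theorem TChf_cos_shift (a p : ℕ → ℝ) (B : Finset ℕ) (s c z t : ℝ) :
    Av a p B (fun y => Real.cos (s * (y - c))) (z + t) =
      Real.cos (s * t) * Av a p B (fun y => Real.cos (s * (y - c))) z -
        Real.sin (s * t) * Av a p B (fun y => Real.sin (s * (y - c))) z := by
  rw [← Av_shift, ← Av_mul, ← Av_mul, ← Av_sub]
  refine Av_congr a p B (fun y => ?_) z
  rw [show s * (y + t - c) = s * (y - c) + s * t by ring, Real.cos_add]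
  ring

private theorem TChf_sin_shift (a p : ℕ → ℝ) (B : Finset ℕ) (s c z t : ℝ) :
    Av a p B (fun y => Real.sin (s * (y - c))) (z + t) =
      Real.cos (s * t) * Av a p B (fun y => Real.sin (s * (y - c))) z +
        Real.sin (s * t) * Av a p B (fun y => Real.cos (s * (y - c))) z := by
  rw [← Av_shift, ← Av_mul, ← Av_mul, ← Av_add]
  refine Av_congr a p B (fun y => ?_) z
  rw [show s * (y + t - c) = s * (y - c) + s * t by ring, Real.sin_add]
  ring

private theorem TChf_main (a p : ℕ → ℝ) (A s c : ℝ) (hA : 0 ≤ A) (hs : |s| * A ≤ 1) (B : Finset ℕ) :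
    Bd a p B A → ∀ z : ℝ,
    Av a p B (fun y => Real.cos (s * (y - c))) z ^ 2 + Av a p B (fun y => Real.sin (s * (y - c))) z ^ 2 ≤
      Real.exp (-(4 / 5) * s ^ 2 * vr a p B) := by
  induction B using Finset.induction_on with
  | empty =>
    intro _ z
    rw [Av_empty, Av_empty]
    have : vr a p ∅ = 0 := by simp [vr]
    rw [this, mul_zero, Real.exp_zero]
    exact le_of_eq (by rw [add_comm]; exact Real.sin_sq_add_cos_sq _)
  | insert i B hi ih =>
    intro hBd z
    have hBd' : Bd a p B A := hBd.mono (Finset.subset_insert _ _)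
    have IH := ih hBd' z
    set C := Av a p B (fun y => Real.cos (s * (y - c))) z with hC
    set D := Av a p B (fun y => Real.sin (s * (y - c))) z with hD
    rw [Av_insert _ _ _ _ hi, Av_insert _ _ _ _ hi, TChf_cos_shift, TChf_sin_shift, ← hC, ← hD]
    have hai := hBd.1 i (Finset.mem_insert_self _ _)
    have hpi := hBd.2 i
    have hx : |s * a i| ≤ 1 := by
      rw [abs_mul, abs_of_nonneg hai.1]
      exact le_trans (mul_le_mul_of_nonneg_left hai.2 (abs_nonneg _)) hs
    have hcos := TChf_cos_lower hx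
    have hsc := Real.sin_sq_add_cos_sq (s * a i)
    have hvr : vr a p (insert i B) = p i * (1 - p i) * a i ^ 2 + vr a p B := by
      unfold vr; rw [Finset.sum_insert hi]
    have hv : 0 ≤ p i * (1 - p i) := mul_nonneg hpi.1 (by linarith [hpi.2])
    have e : (p i * C + (1 - p i) * (Real.cos (s * a i) * C - Real.sin (s * a i) * D)) ^ 2 +
        (p i * D + (1 - p i) * (Real.cos (s * a i) * D + Real.sin (s * a i) * C)) ^ 2 =
        (C ^ 2 + D ^ 2) * (1 - 2 * (p i * (1 - p i)) * (1 - Real.cos (s * a i))) := by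
      linear_combination ((1 - p i) ^ 2 * (C ^ 2 + D ^ 2)) * hsc
    rw [e]
    have h1 : 1 - 2 * (p i * (1 - p i)) * (1 - Real.cos (s * a i)) ≤
        Real.exp (-(4 / 5) * s ^ 2 * (p i * (1 - p i) * a i ^ 2)) := by
      have h2 := Real.add_one_le_exp (-(4 / 5) * s ^ 2 * (p i * (1 - p i) * a i ^ 2))
      have h3 := mul_le_mul_of_nonneg_left hcos hv
      nlinarith
    have h0 : 0 ≤ C ^ 2 + D ^ 2 := by positivity
    calc (C ^ 2 + D ^ 2) * (1 - 2 * (p i * (1 - p i)) * (1 - Real.cos (s * a i)))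
        ≤ (C ^ 2 + D ^ 2) * Real.exp (-(4 / 5) * s ^ 2 * (p i * (1 - p i) * a i ^ 2)) :=
          mul_le_mul_of_nonneg_left h1 h0
      _ ≤ Real.exp (-(4 / 5) * s ^ 2 * vr a p B) * Real.exp (-(4 / 5) * s ^ 2 * (p i * (1 - p i) * a i ^ 2)) :=
          mul_le_mul_of_nonneg_right IH (Real.exp_nonneg _)
      _ = Real.exp (-(4 / 5) * s ^ 2 * vr a p (insert i B)) := by
          rw [← Real.exp_add, hvr]; congr 1; ring

theorem rTChf : S_TChf := by
  intro a p B A s c z hBd hA hs
  have h := TChf_main a p A s c hA hs B hBd z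
  have h1 : Av a p B (fun y => Real.cos (s * (y - c))) z ^ 2 ≤
      Real.exp (-(2 / 5) * s ^ 2 * vr a p B) ^ 2 := by
    have e : Real.exp (-(2 / 5) * s ^ 2 * vr a p B) ^ 2 = Real.exp (-(4 / 5) * s ^ 2 * vr a p B) := by
      rw [← Real.exp_nat_mul]; congr 1; push_cast; ring
    rw [e]
    linarith [sq_nonneg (Av a p B (fun y => Real.sin (s * (y - c))) z)]
  exact (abs_le_of_sq_le_sq' h1 (Real.exp_nonneg _)).2

end Pool.Agent.MP3145b1.RT
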