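import Pool.Agent.Lib.MP_3145b1_co.RT.Spec

/-!
# MP_3145b1_co, project RT, module TCmp: the sharp entropy inequality is preserved by composition
-/

set_option autoImplicit false

namespace Pool.Agent.MP3145b1.RT

open Finset Pool.Agent.MP3145b1 Pool.Agent.MP3145b1.RC Pool.Agent.MP3145b1.RD

theorem rTCmp (h1 : S_Vsm) (h2 : S_TFml) : S_TCmp := by
  intro K N M P u f c hC hf hpg hu
  have hp : ∀ i, 0 ≤ pb u i ∧ pb u i ≤ 1 := fun i => (h1 N P u hC i).1
  obtain ⟨f1, f2, f3, f4⟩ := h2 N M P u f c hC hf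
  obtain ⟨Q, hQ⟩ : ∃ Q : ℕ → ℝ, Q = fun i =>
      ∑ T ∈ (range M).powerset.filter (fun T => i ∉ T), wt (pb u) T * c (insert i T) ^ 2 := ⟨_, rfl⟩
  have hQ0 : ∀ i, 0 ≤ Q i := by
    intro i
    rw [hQ]
    exact Finset.sum_nonneg fun T _ => mul_nonneg (wt_nonneg hp T) (sq_nonneg _)
  have hQi : ∀ i, ∑ T ∈ (range M).powerset.filter (fun T => i ∉ T),
      wt (pb u) T * c (insert i T) ^ 2 = Q i := by
    intro i
    rw [hQ]
  simp only [hQi] at f1 f2 f3
  have hs : ∑ S ∈ (univ : Finset (Finset (Fin N))).erase ∅, hh (coeff f S ^ 2) =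
      ∑ S : Finset (Fin N), hh (coeff f S ^ 2) - hh (coeff f ∅ ^ 2) := by
    rw [eq_sub_iff_add_eq, Finset.sum_erase_add _ _ (Finset.mem_univ _)]
  have hE : ∑ i ∈ range M, (∑ S ∈ (univ : Finset (Finset (Fin N))).erase ∅, hh (coeff (u i) S ^ 2)) *
      Q i ≤ K * (∑ i ∈ range M, influence (u i) * Q i) -
        K * (∑ i ∈ range M, 4 * (pb u i * (1 - pb u i)) * Q i) := by
    rw [Finset.mul_sum, Finset.mul_sum, ← Finset.sum_sub_distrib]
    refine Finset.sum_le_sum fun i _ => ?_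
    have e := (h1 N P u hC i).2.1
    have h := mul_le_mul_of_nonneg_right (hu i) (hQ0 i)
    rw [← e] at h
    refine h.trans (le_of_eq ?_)
    ring
  change ∑ S ∈ (univ : Finset (Finset (Fin N))).erase ∅, hh (coeff f S ^ 2) ≤
    K * (influence f - (1 - coeff f ∅ ^ 2))
  rw [hs, f1, f2, f4]
  rw [f3] at hpg
  have e : K * (∑ i ∈ range M, influence (u i) * Q i - (1 - c ∅ ^ 2)) =
      K * (∑ i ∈ range M, influence (u i) * Q i) - K * (1 - c ∅ ^ 2) := by ring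
  have e' : K * (∑ i ∈ range M, 4 * (pb u i * (1 - pb u i)) * Q i - (1 - c ∅ ^ 2)) =
      K * (∑ i ∈ range M, 4 * (pb u i * (1 - pb u i)) * Q i) - K * (1 - c ∅ ^ 2) := by ring
  rw [e'] at hpg
  rw [e]
  linarith

end Pool.Agent.MP3145b1.RT
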