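import Pool.Agent.Lib.MP_3145b1_co.RT.Spec

set_option autoImplicit false

namespace Pool.Agent.MP3145b1.RT

open Finset Pool.Agent.MP3145b1 Pool.Agent.MP3145b1.RC Pool.Agent.MP3145b1.RD

private theorem TEsn_r : Real.exp (-(2 / 5)) ≤ 17 / 25 := by
  have h1 : (37 / 25 : ℝ) ≤ Real.exp (2 / 5) := by
    have := Real.quadratic_le_exp_of_nonneg (x := (2 / 5 : ℝ)) (by norm_num)
    norm_num at this ⊢
    linarith
  rw [Real.exp_neg, inv_le_comm₀ (Real.exp_pos _) (by norm_num)]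
  refine le_trans ?_ h1
  norm_num

private theorem TEsn_T (r : ℝ) (h0 : 0 ≤ r) (h1 : r ≤ 17 / 25) (N : ℕ) :
    ∑ j ∈ range N, r ^ (N - j) ≤ 17 / 8 := by
  induction N with
  | zero => simp; norm_num
  | succ N ih =>
    rw [Finset.sum_range_succ]
    have e : ∑ j ∈ range N, r ^ (N + 1 - j) = r * ∑ j ∈ range N, r ^ (N - j) := by
      rw [Finset.mul_sum]
      refine Finset.sum_congr rfl fun j hj => ?_
      have : j < N := Finset.mem_range.1 hj
      rw [show N + 1 - j = (N - j) + 1 by omega, pow_succ]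
      ring
    rw [e, show N + 1 - N = 1 by omega, pow_one]
    have hT : 0 ≤ ∑ j ∈ range N, r ^ (N - j) := Finset.sum_nonneg fun j _ => pow_nonneg h0 _
    have hm : r * (∑ j ∈ range N, r ^ (N - j) + 1) ≤ 17 / 25 * (17 / 8 + 1) :=
      mul_le_mul h1 (by linarith) (by linarith) (by norm_num)
    linarith [hm, mul_add r (∑ j ∈ range N, r ^ (N - j)) 1]

private theorem TEsn_q (N j : ℕ) (h : j < N) :
    Real.exp (-(2 / 5) * ((N : ℝ) - j) ^ 2) ≤ Real.exp (-(2 / 5)) ^ (N - j) := by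
  rw [← Real.exp_nat_mul, Real.exp_le_exp, Nat.cast_sub h.le]
  have h1 : (1 : ℝ) ≤ (N : ℝ) - j := by
    have : ((j + 1 : ℕ) : ℝ) ≤ (N : ℝ) := by exact_mod_cast h
    push_cast at this
    linarith
  nlinarith

private theorem TEsn_s (x y : ℝ) :
    Real.exp (-(2 / 5) * (x - y) ^ 2) = Real.exp (-(2 / 5) * (y - x) ^ 2) := by
  congr 1
  ring

private theorem TEsn_D (N : ℕ) :
    ∑ j ∈ range N, ∑ k ∈ range N, Real.exp (-(2 / 5) * ((j : ℝ) - k) ^ 2) ≤ 7 * N := by
  induction N with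
  | zero => simp
  | succ N ih =>
    have e1 : ∑ j ∈ range (N + 1), ∑ k ∈ range (N + 1), Real.exp (-(2 / 5) * ((j : ℝ) - k) ^ 2) =
        (∑ j ∈ range N, ∑ k ∈ range N, Real.exp (-(2 / 5) * ((j : ℝ) - k) ^ 2) +
          ∑ j ∈ range N, Real.exp (-(2 / 5) * ((j : ℝ) - N) ^ 2)) +
        (∑ k ∈ range N, Real.exp (-(2 / 5) * ((N : ℝ) - k) ^ 2) +
          Real.exp (-(2 / 5) * ((N : ℝ) - N) ^ 2)) := by
      rw [Finset.sum_range_succ]
      congr 1
      · rw [← Finset.sum_add_distrib]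
        exact Finset.sum_congr rfl fun j _ => Finset.sum_range_succ _ _
      · exact Finset.sum_range_succ _ _
    have h2 : ∑ k ∈ range N, Real.exp (-(2 / 5) * ((N : ℝ) - k) ^ 2) ≤ 17 / 8 :=
      le_trans (Finset.sum_le_sum fun k hk => TEsn_q N k (Finset.mem_range.1 hk))
        (TEsn_T _ (Real.exp_pos _).le TEsn_r N)
    have h3 : ∑ j ∈ range N, Real.exp (-(2 / 5) * ((j : ℝ) - N) ^ 2) ≤ 17 / 8 := by
      refine le_trans (le_of_eq ?_) h2
      exact Finset.sum_congr rfl fun j _ => TEsn_s _ _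
    have h4 : Real.exp (-(2 / 5) * ((N : ℝ) - N) ^ 2) = 1 := by simp
    rw [e1, h4]
    push_cast
    linarith

private theorem TEsn_pt (N : ℕ) (u : ℝ) :
    (∑ j ∈ range N, Real.cos ((j : ℝ) * u)) ^ 2 + (∑ j ∈ range N, Real.sin ((j : ℝ) * u)) ^ 2 =
      ∑ j ∈ range N, ∑ k ∈ range N, Real.cos (((j : ℝ) - k) * u) := by
  rw [sq, sq, Finset.sum_mul_sum, Finset.sum_mul_sum, ← Finset.sum_add_distrib]
  refine Finset.sum_congr rfl fun j _ => ?_
  rw [← Finset.sum_add_distrib]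
  refine Finset.sum_congr rfl fun k _ => ?_
  rw [sub_mul, Real.cos_sub]

private theorem TEsn_w (N : ℕ) (θ A y : ℝ) (hA : 0 < A) (hN : 1 ≤ N) :
    49 / 64 * (N : ℝ) ^ 2 * Wn θ A y ≤
      ∑ j ∈ range N, ∑ k ∈ range N, Real.cos (((j : ℝ) - k) * (1 / (N * A) * (y - (θ - A / 2)))) := by
  rw [← TEsn_pt]
  have hN0 : (0 : ℝ) < N := by exact_mod_cast hN
  unfold Wn
  split_ifs with h
  · obtain ⟨h1, h2⟩ := h
    have hX : 7 / 8 * (N : ℝ) ≤
        ∑ j ∈ range N, Real.cos ((j : ℝ) * (1 / (N * A) * (y - (θ - A / 2)))) := by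
      have hc : ∀ j ∈ range N, (7 / 8 : ℝ) ≤ Real.cos ((j : ℝ) * (1 / (N * A) * (y - (θ - A / 2)))) := by
        intro j hj
        have hj' : (j : ℝ) ≤ N := by exact_mod_cast (Finset.mem_range.1 hj).le
        have hj0 : (0 : ℝ) ≤ j := Nat.cast_nonneg j
        have hu : |(j : ℝ) * (1 / (N * A) * (y - (θ - A / 2)))| ≤ 1 / 2 := by
          rw [abs_mul, abs_mul, abs_of_nonneg hj0, abs_of_pos (by positivity : (0 : ℝ) < 1 / (N * A))]
          have hy : |y - (θ - A / 2)| ≤ A / 2 := by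
            rw [abs_le]
            constructor <;> linarith
          calc (j : ℝ) * (1 / (N * A) * |y - (θ - A / 2)|) ≤ N * (1 / (N * A) * (A / 2)) := by
                refine mul_le_mul hj' (mul_le_mul_of_nonneg_left hy (by positivity)) (by positivity) hN0.le
            _ = 1 / 2 := by field_simp
        have hcos := Real.one_sub_sq_div_two_le_cos (x := (j : ℝ) * (1 / (N * A) * (y - (θ - A / 2))))
        have hsq : ((j : ℝ) * (1 / (N * A) * (y - (θ - A / 2)))) ^ 2 ≤ (1 / 2) ^ 2 :=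
          sq_le_sq' (abs_le.1 hu).1 (abs_le.1 hu).2
        linarith
      have := Finset.sum_le_sum hc
      rw [Finset.sum_const, Finset.card_range, nsmul_eq_mul] at this
      linarith
    have hX2 : (7 / 8 * (N : ℝ)) ^ 2 ≤
        (∑ j ∈ range N, Real.cos ((j : ℝ) * (1 / (N * A) * (y - (θ - A / 2))))) ^ 2 :=
      pow_le_pow_left₀ (by positivity) hX 2
    have hY := sq_nonneg (∑ j ∈ range N, Real.sin ((j : ℝ) * (1 / (N * A) * (y - (θ - A / 2)))))
    have e : (7 / 8 * (N : ℝ)) ^ 2 = 49 / 64 * (N : ℝ) ^ 2 * 1 := by ring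
    rw [e] at hX2
    linarith
  · rw [mul_zero]
    positivity

theorem rTEsn (h1 : S_TChf) : S_TEsn := by
  intro a p B A θ z N hA hB hN hv
  have hN0 : (0 : ℝ) < N := by exact_mod_cast hN
  have key : 49 / 64 * (N : ℝ) ^ 2 * Av a p B (Wn θ A) z ≤ 7 * N := by
    rw [← Av_mul]
    refine le_trans (Av_mono a hB.2 B (fun y => TEsn_w N θ A y hA hN) z) ?_
    rw [Av_sum a p B (range N)
      (fun j y => ∑ k ∈ range N, Real.cos (((j : ℝ) - k) * (1 / (N * A) * (y - (θ - A / 2))))) z]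
    refine le_trans (Finset.sum_le_sum fun j hj => ?_) (TEsn_D N)
    rw [Av_sum a p B (range N)
      (fun k y => Real.cos (((j : ℝ) - k) * (1 / (N * A) * (y - (θ - A / 2))))) z]
    refine Finset.sum_le_sum fun k hk => ?_
    have hj' : (j : ℝ) ≤ N := by exact_mod_cast (Finset.mem_range.1 hj).le
    have hk' : (k : ℝ) ≤ N := by exact_mod_cast (Finset.mem_range.1 hk).le
    have hj0 : (0 : ℝ) ≤ j := Nat.cast_nonneg j
    have hk0 : (0 : ℝ) ≤ k := Nat.cast_nonneg k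
    have hs : |((j : ℝ) - k) * (1 / (N * A))| * A ≤ 1 := by
      rw [abs_mul, abs_of_pos (by positivity : (0 : ℝ) < 1 / (N * A))]
      have hjk : |(j : ℝ) - k| ≤ N := by
        rw [abs_le]
        constructor <;> linarith
      calc |(j : ℝ) - k| * (1 / (N * A)) * A ≤ N * (1 / (N * A)) * A := by
            refine mul_le_mul_of_nonneg_right (mul_le_mul_of_nonneg_right hjk (by positivity)) hA.le
        _ = 1 := by field_simp
    have h2 := h1 a p B A (((j : ℝ) - k) * (1 / (N * A))) (θ - A / 2) z hB hA.le hs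
    have e : (fun y => Real.cos (((j : ℝ) - k) * (1 / (N * A)) * (y - (θ - A / 2)))) =
        fun y => Real.cos (((j : ℝ) - k) * (1 / (N * A) * (y - (θ - A / 2)))) := by
      funext y
      rw [mul_assoc]
    rw [e] at h2
    refine le_trans h2 ?_
    rw [Real.exp_le_exp]
    have hd : 1 ≤ (1 / (N * A)) ^ 2 * vr a p B := by
      have : (1 / (N * A)) ^ 2 * ((N : ℝ) ^ 2 * A ^ 2) = 1 := by field_simp
      calc (1 : ℝ) = (1 / (N * A)) ^ 2 * ((N : ℝ) ^ 2 * A ^ 2) := this.symm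
        _ ≤ (1 / (N * A)) ^ 2 * vr a p B := mul_le_mul_of_nonneg_left hv (by positivity)
    have hm := mul_le_mul_of_nonneg_left hd (sq_nonneg ((j : ℝ) - k))
    rw [mul_pow]
    nlinarith [hm]
  rw [le_div_iff₀ hN0]
  have h5 : 49 / 64 * (N : ℝ) * (Av a p B (Wn θ A) z * N) ≤ 7 * N := by
    calc 49 / 64 * (N : ℝ) * (Av a p B (Wn θ A) z * N) = 49 / 64 * (N : ℝ) ^ 2 * Av a p B (Wn θ A) z := by
          ring
      _ ≤ 7 * N := key
  have h6 : N * (49 / 64 * (Av a p B (Wn θ A) z * N)) ≤ N * 7 := by linarith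
  have h7 := le_of_mul_le_mul_left h6 hN0
  linarith

end Pool.Agent.MP3145b1.RT
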