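import Pool.Agent.Lib.MP_3145b1_co.RT.Spec

/-!
# MP_3145b1_co, project RT, module TGrp: partition in blocks
-/

set_option autoImplicit false

namespace Pool.Agent.MP3145b1.RT

open Finset Pool.Agent.MP3145b1 Pool.Agent.MP3145b1.RC Pool.Agent.MP3145b1.RD

private theorem TGrp_insert (a p : ℕ → ℝ) (B : Finset ℕ) (i : ℕ) (hi : i ∉ B) :
    vr a p (insert i B) = vr a p {i} + vr a p B := by
  unfold vr
  rw [Finset.sum_insert hi, Finset.sum_singleton]

theorem rTGrp : S_TGrp := by
  intro a p J A hp
  induction J using Finset.induction_on with
  | empty =>
    refine ⟨0, fun _ => ∅, ?_, ?_, ?_, ?_⟩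
    · intro b hb
      exact absurd hb (Nat.not_lt_zero _)
    · intro b b' hb
      exact absurd hb (Nat.not_lt_zero _)
    · intro i hi
      exact absurd hi (Finset.notMem_empty _)
    · intro b hb
      exact absurd hb (Nat.not_lt_zero _)
  | insert i J hi ih =>
    obtain ⟨m, Bl, h1, h2, h3, h4⟩ := ih
    have hnot : ∀ b, b < m → i ∉ Bl b := fun b hb h => hi ((h1 b hb).1 h)
    by_cases hlast : m = 0 ∨ A ^ 2 / 128 ≤ vr a p (Bl (m - 1))
    · refine ⟨m + 1, fun b => if b = m then {i} else Bl b, ?_, ?_, ?_, ?_⟩
      · intro b hb
        dsimp only
        by_cases hbm : b = m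
        · rw [if_pos hbm]
          exact ⟨Finset.singleton_subset_iff.2 (Finset.mem_insert_self _ _), Or.inl (Finset.card_singleton i)⟩
        · have hb1 : b < m := by omega
          rw [if_neg hbm]
          exact ⟨(h1 b hb1).1.trans (Finset.subset_insert _ _), (h1 b hb1).2⟩
      · intro b b' hb hb' hne
        dsimp only
        by_cases hbm : b = m
        · have hbm' : b' ≠ m := fun h => hne (hbm.trans h.symm)
          rw [if_pos hbm, if_neg hbm']
          exact Finset.disjoint_singleton_left.2 (hnot b' (by omega))
        · rw [if_neg hbm]
          by_cases hbm' : b' = m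
          · rw [if_pos hbm']
            exact Finset.disjoint_singleton_right.2 (hnot b (by omega))
          · rw [if_neg hbm']
            exact h2 b b' (by omega) (by omega) hne
      · intro j hj
        rcases Finset.mem_insert.1 hj with h | h
        · refine ⟨m, Nat.lt_succ_self m, ?_⟩
          dsimp only
          rw [if_pos rfl, h]
          exact Finset.mem_singleton_self i
        · obtain ⟨b, hb, hjb⟩ := h3 j h
          refine ⟨b, by omega, ?_⟩
          dsimp only
          rw [if_neg (show b ≠ m by omega)]
          exact hjb
      · intro b hb
        dsimp only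
        rw [if_neg (show b ≠ m by omega)]
        by_cases hb1 : b + 1 < m
        · exact h4 b hb1
        · have e : b = m - 1 := by omega
          rcases hlast with h | h
          · omega
          · rw [e]
            exact h
    · have hm : m ≠ 0 := fun h => hlast (Or.inl h)
      have hv : vr a p (Bl (m - 1)) < A ^ 2 / 128 := lt_of_not_ge fun h => hlast (Or.inr h)
      by_cases hvi : A ^ 2 / 128 ≤ vr a p {i}
      · refine ⟨m + 1, fun b => if b = 0 then {i} else Bl (b - 1), ?_, ?_, ?_, ?_⟩
        · intro b hb
          dsimp only
          by_cases hb0 : b = 0
          · rw [if_pos hb0]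
            exact ⟨Finset.singleton_subset_iff.2 (Finset.mem_insert_self _ _), Or.inl (Finset.card_singleton i)⟩
          · have hb1 : b - 1 < m := by omega
            rw [if_neg hb0]
            exact ⟨(h1 _ hb1).1.trans (Finset.subset_insert _ _), (h1 _ hb1).2⟩
        · intro b b' hb hb' hne
          dsimp only
          by_cases hb0 : b = 0
          · rw [if_pos hb0, if_neg (show b' ≠ 0 by omega)]
            exact Finset.disjoint_singleton_left.2 (hnot _ (by omega))
          · rw [if_neg hb0]
            by_cases hb0' : b' = 0
            · rw [if_pos hb0']
              exact Finset.disjoint_singleton_right.2 (hnot _ (by omega))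
            · rw [if_neg hb0']
              exact h2 _ _ (by omega) (by omega) (by omega)
        · intro j hj
          rcases Finset.mem_insert.1 hj with h | h
          · refine ⟨0, Nat.succ_pos m, ?_⟩
            dsimp only
            rw [if_pos rfl, h]
            exact Finset.mem_singleton_self i
          · obtain ⟨b, hb, hjb⟩ := h3 j h
            refine ⟨b + 1, by omega, ?_⟩
            dsimp only
            rw [if_neg (Nat.succ_ne_zero b), Nat.add_sub_cancel]
            exact hjb
        · intro b hb
          dsimp only
          by_cases hb0 : b = 0
          · rw [if_pos hb0]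
            exact hvi
          · rw [if_neg hb0]
            exact h4 _ (by omega)
      · have hvi' : vr a p {i} < A ^ 2 / 128 := lt_of_not_ge hvi
        refine ⟨m, fun b => if b = m - 1 then insert i (Bl b) else Bl b, ?_, ?_, ?_, ?_⟩
        · intro b hb
          dsimp only
          by_cases hbm : b = m - 1
          · rw [if_pos hbm]
            refine ⟨Finset.insert_subset_insert _ (h1 b hb).1, Or.inr ?_⟩
            rw [TGrp_insert a p (Bl b) i (hnot b hb), hbm]
            linarith
          · rw [if_neg hbm]
            exact ⟨(h1 b hb).1.trans (Finset.subset_insert _ _), (h1 b hb).2⟩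
        · intro b b' hb hb' hne
          dsimp only
          by_cases hbm : b = m - 1
          · rw [if_pos hbm, if_neg (show b' ≠ m - 1 by omega), Finset.disjoint_insert_left]
            exact ⟨hnot b' hb', h2 b b' hb hb' hne⟩
          · rw [if_neg hbm]
            by_cases hbm' : b' = m - 1
            · rw [if_pos hbm', Finset.disjoint_insert_right]
              exact ⟨hnot b hb, h2 b b' hb hb' hne⟩
            · rw [if_neg hbm']
              exact h2 b b' hb hb' hne
        · intro j hj
          rcases Finset.mem_insert.1 hj with h | h
          · refine ⟨m - 1, by omega, ?_⟩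
            dsimp only
            rw [if_pos rfl, h]
            exact Finset.mem_insert_self _ _
          · obtain ⟨b, hb, hjb⟩ := h3 j h
            refine ⟨b, hb, ?_⟩
            dsimp only
            by_cases hbm : b = m - 1
            · rw [if_pos hbm]
              exact Finset.mem_insert_of_mem hjb
            · rw [if_neg hbm]
              exact hjb
        · intro b hb
          dsimp only
          rw [if_neg (show b ≠ m - 1 by omega)]
          exact h4 b hb

end Pool.Agent.MP3145b1.RT
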