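import Pool.Agent.Lib.MP_3145b1_co.RT.Spec

/-!
# MP_3145b1_co, project RT: symmetric gates of a composition
-/

set_option autoImplicit false

namespace Pool.Agent.MP3145b1.RT

open Finset Pool.Agent.MP3145b1 Pool.Agent.MP3145b1.RC Pool.Agent.MP3145b1.RD

private theorem TGsy_pb {N : ℕ} (P : ℕ → Finset (Fin N)) (u : ℕ → (Fin N → Bool) → ℝ) (hC : Cp P u)
    (i : ℕ) : 0 ≤ pb u i ∧ pb u i ≤ 1 := by
  obtain ⟨_, _, hval⟩ := hC
  have hpar : ∑ S : Finset (Fin N), coeff (u i) S ^ 2 = 1 := by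
    rw [Q.parseval]
    have h2 : (fun x => u i x ^ 2) = fun _ : Fin N → Bool => (1 : ℝ) := by
      funext x
      rcases hval i x with h | h <;> rw [h] <;> norm_num
    rw [h2, Q.mean_const]
  have hc : coeff (u i) ∅ ^ 2 ≤ 1 := by
    rw [← hpar]
    exact Finset.single_le_sum (f := fun S => coeff (u i) S ^ 2) (fun S _ => sq_nonneg _)
      (Finset.mem_univ (∅ : Finset (Fin N)))
  have hc1 : -1 ≤ coeff (u i) ∅ := by nlinarith
  have hc2 : coeff (u i) ∅ ≤ 1 := by nlinarith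
  unfold pb
  constructor <;> linarith

/-- Symmetric gates. -/
theorem rTGsy (h1 : S_TSym) (h2 : S_TCfo) (h3 : S_TCmp) : S_TGsy := by
  intro K N M P u φ hK hC hS
  have hF : ∀ y : ℝ, (fun y : ℝ => if φ ⌊y⌋₊ then (-1 : ℝ) else 1) y = 1 ∨
      (fun y : ℝ => if φ ⌊y⌋₊ then (-1 : ℝ) else 1) y = -1 := by
    intro y
    show (if φ ⌊y⌋₊ then (-1 : ℝ) else 1) = 1 ∨ (if φ ⌊y⌋₊ then (-1 : ℝ) else 1) = -1
    by_cases h : φ ⌊y⌋₊ = true
    · right
      rw [if_pos h]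
    · left
      rw [if_neg h]
  have hfe : (fun x : Fin N → Bool => if φ ((range M).filter (fun i => u i x = -1)).card then (-1 : ℝ) else 1) =
      (fun x => (fun y : ℝ => if φ ⌊y⌋₊ then (-1 : ℝ) else 1)
        (0 + ∑ i ∈ range M, (if u i x = -1 then (fun _ : ℕ => (1 : ℝ)) i else 0))) := by
    funext x
    have e : (0 : ℝ) + ∑ i ∈ range M, (if u i x = -1 then (fun _ : ℕ => (1 : ℝ)) i else 0) =
        (((range M).filter (fun i => u i x = -1)).card : ℝ) := by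
      rw [zero_add]
      exact Finset.sum_boole _ _
    show _ = (if φ ⌊(0 : ℝ) + ∑ i ∈ range M, (if u i x = -1 then (fun _ : ℕ => (1 : ℝ)) i else 0)⌋₊
      then (-1 : ℝ) else 1)
    rw [e, Nat.floor_natCast]
  refine h3 K N M P u _ (fun T => Co (fun _ => 1) (pb u) (range M) T
    (fun y : ℝ => if φ ⌊y⌋₊ then (-1 : ℝ) else 1) 0) hC ?_ ?_ hS
  · intro S
    rw [hfe]
    exact h2 N M (fun _ => 1) (fun y : ℝ => if φ ⌊y⌋₊ then (-1 : ℝ) else 1) P u hC 0 S
  · exact h1 (fun _ => 1) (pb u) (range M) (fun y : ℝ => if φ ⌊y⌋₊ then (-1 : ℝ) else 1)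
      (fun _ _ => rfl) (fun i => TGsy_pb P u hC i) hF K hK 0

end Pool.Agent.MP3145b1.RT
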