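import Pool.Agent.Lib.MP_3145b1_co.RT.Spec

/-!
# MP_3145b1_co, project RT: threshold gates with weights of both signs
-/

set_option autoImplicit false

namespace Pool.Agent.MP3145b1.RT

open Finset Pool.Agent.MP3145b1 Pool.Agent.MP3145b1.RC Pool.Agent.MP3145b1.RD

private theorem TGth_pb {N : ℕ} (P : ℕ → Finset (Fin N)) (u : ℕ → (Fin N → Bool) → ℝ) (hC : Cp P u)
    (i : ℕ) : 0 ≤ pb u i ∧ pb u i ≤ 1 := by
  obtain ⟨_, _, hval⟩ := hC
  have hpar : ∑ S : Finset (Fin N), coeff (u i) S ^ 2 = 1 := by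
    rw [Q.parseval]
    have h2 : (fun x => u i x ^ 2) = fun _ : Fin N → Bool => (1 : ℝ) := by
      funext x
      rcases hval i x with h | h <;> rw [h] <;> norm_num
    rw [h2, Q.mean_const]
  have hc : coeff (u i) ∅ ^ 2 ≤ 1 := by
    rw [← hpar]
    exact Finset.single_le_sum (f := fun S => coeff (u i) S ^ 2) (fun S _ => sq_nonneg _)
      (Finset.mem_univ (∅ : Finset (Fin N)))
  have hc1 : -1 ≤ coeff (u i) ∅ := by nlinarith
  have hc2 : coeff (u i) ∅ ≤ 1 := by nlinarith
  unfold pb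
  constructor <;> linarith

private theorem TGth_neg {N : ℕ} (g : (Fin N → Bool) → ℝ) (S : Finset (Fin N)) :
    coeff (fun x => - g x) S = - coeff g S := by
  unfold coeff
  rw [show (∑ x : Fin N → Bool, -g x * ∏ i ∈ S, (if x i then (-1 : ℝ) else 1)) =
      -∑ x : Fin N → Bool, g x * ∏ i ∈ S, (if x i then (-1 : ℝ) else 1) by
    rw [← Finset.sum_neg_distrib]
    exact Finset.sum_congr rfl fun x _ => by ring]
  ring

private theorem TGth_sq {N : ℕ} (g : (Fin N → Bool) → ℝ) (S : Finset (Fin N)) :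
    coeff (fun x => - g x) S ^ 2 = coeff g S ^ 2 := by
  rw [TGth_neg, neg_sq]

private theorem TGth_shp {K : ℝ} {N : ℕ} (g : (Fin N → Bool) → ℝ) (h : Shp K g) :
    Shp K (fun x => - g x) := by
  have hi : influence (fun x => - g x) = influence g := by
    unfold influence
    exact Finset.sum_congr rfl fun T _ => by rw [TGth_sq]
  unfold Shp at h ⊢
  rw [hi, TGth_sq]
  rw [Finset.sum_congr rfl fun S _ => by rw [TGth_sq g S]]
  exact h

/-- Threshold gates with weights of both signs. -/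
theorem rTGth (h1 : S_TLin) (h2 : S_TCfo) (h3 : S_TCmp) : S_TGth := by
  intro K N M P u a θ1 θ2 hK hC hS
  obtain ⟨u', hu'⟩ : ∃ u' : ℕ → (Fin N → Bool) → ℝ,
      u' = fun i => if 0 ≤ a i then u i else fun x => - u i x := ⟨_, rfl⟩
  have hup : ∀ i, 0 ≤ a i → u' i = u i := fun i hi => by rw [hu']; exact if_pos hi
  have hun : ∀ i, ¬ 0 ≤ a i → u' i = fun x => - u i x := fun i hi => by rw [hu']; exact if_neg hi
  have hC' : Cp P u' := by
    obtain ⟨c1, c2, c3⟩ := hC
    refine ⟨c1, fun i => ?_, fun i x => ?_⟩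
    · by_cases hi : 0 ≤ a i
      · rw [hup i hi]; exact c2 i
      · rw [hun i hi]
        intro x y hxy
        show - u i x = - u i y
        rw [c2 i x y hxy]
    · by_cases hi : 0 ≤ a i
      · rw [hup i hi]; exact c3 i x
      · rw [hun i hi]
        show - u i x = 1 ∨ - u i x = -1
        rcases c3 i x with h | h
        · right; rw [h]
        · left; rw [h]; norm_num
  have hS' : ∀ i, Shp K (u' i) := by
    intro i
    by_cases hi : 0 ≤ a i
    · rw [hup i hi]; exact hS i
    · rw [hun i hi]; exact TGth_shp (u i) (hS i)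
  obtain ⟨σ, hσ⟩ : ∃ σ : ℝ, σ = ∑ i ∈ range M, (if 0 ≤ a i then 0 else a i) := ⟨_, rfl⟩
  have hsum : ∀ x : Fin N → Bool, ∑ i ∈ range M, (if u i x = -1 then a i else 0) =
      σ + ∑ i ∈ range M, (if u' i x = -1 then (fun j : ℕ => |a j|) i else 0) := by
    intro x
    rw [hσ, ← Finset.sum_add_distrib]
    refine Finset.sum_congr rfl fun i _ => ?_
    show _ = _ + (if u' i x = -1 then |a i| else 0)
    by_cases hi : 0 ≤ a i
    · rw [hup i hi, if_pos hi, abs_of_nonneg hi, zero_add]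
    · rw [hun i hi, if_neg hi, abs_of_neg (not_le.1 hi)]
      show _ = a i + (if - u i x = -1 then - a i else 0)
      rcases hC.2.2 i x with h | h
      · rw [h]; norm_num
      · rw [h]; norm_num
  have hfe : (fun x : Fin N → Bool => if θ1 ≤ ∑ i ∈ range M, (if u i x = -1 then a i else 0) ∧
        ∑ i ∈ range M, (if u i x = -1 then a i else 0) < θ2 then (-1 : ℝ) else 1) =
      (fun x => Og θ1 θ2 (σ + ∑ i ∈ range M, (if u' i x = -1 then (fun j : ℕ => |a j|) i else 0))) := by
    funext x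
    rw [← hsum x]
    rfl
  rw [hfe]
  refine h3 K N M P u' _ (fun T => Co (fun j : ℕ => |a j|) (pb u') (range M) T (Og θ1 θ2) σ) hC' ?_ ?_ hS'
  · intro S
    exact h2 N M (fun j : ℕ => |a j|) (Og θ1 θ2) P u' hC' σ S
  · exact h1 (fun j : ℕ => |a j|) (pb u') (range M) θ1 θ2 (fun i _ => abs_nonneg _)
      (fun i => TGth_pb P u' hC' i) K hK σ

end Pool.Agent.MP3145b1.RT
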