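import Pool.Agent.Lib.MP_3145b1_co.RT.Spec

/-!
# MP_3145b1_co, project RT, module TLin: interval gates
-/

set_option autoImplicit false

namespace Pool.Agent.MP3145b1.RT

open Finset Pool.Agent.MP3145b1 Pool.Agent.MP3145b1.RC Pool.Agent.MP3145b1.RD

/-- no variables -/
private theorem TLin_empty (a p : ℕ → ℝ) (F : ℝ → ℝ) (hF : ∀ y, F y = 1 ∨ F y = -1) :
    SH a p F ∅ := by
  intro K _ z
  have e : Co a p ∅ ∅ F z ^ 2 = 1 := by
    rw [Co_empty, Av_empty]
    rcases hF z with h | h <;> rw [h] <;> norm_num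
  have w : wt p ∅ = 1 := by
    unfold wt
    exact Finset.prod_empty
  rw [Finset.powerset_empty, Finset.sum_singleton, Finset.sum_singleton, e, w,
    Finset.card_empty]
  have h0 : K * (((0 : ℕ) : ℝ) * (1 * 1) - (1 - 1)) = 0 := by
    rw [Nat.cast_zero]; ring
  rw [h0, one_mul, add_zero]

/-- jump `0` -/
private theorem TLin_zero (a p : ℕ → ℝ) (F : ℝ → ℝ) (J : Finset ℕ) (q : ℝ) :
    ND a p F J 0 q := by
  intro z
  have h : ∀ T, Co a p J T (hA 0 F) z = 0 := fun T => by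
    rw [Co_hA, add_zero, sub_self, zero_div]
  refine le_of_eq ?_
  rw [Finset.mul_sum]
  refine Finset.sum_congr rfl fun T _ => ?_
  rw [h T]
  ring

theorem rTLin (h1 : S_TBlI) (h2 : S_TSmI) (h3 : S_TNod) (h4 : S_TTel) : S_TLin := by
  intro a p J θ1 θ2 ha hp
  revert ha
  refine Finset.induction_on_max_value a J
    (fun _ => TLin_empty a p (Og θ1 θ2) (Og_val θ1 θ2)) ?_
  intro t J ht hmax ih ha
  have ha' : ∀ i ∈ J, 0 ≤ a i := fun i hi => ha i (Finset.mem_insert_of_mem hi)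
  have hat : 0 ≤ a t := ha t (Finset.mem_insert_self t J)
  have hbd : Bd a p J (a t) := ⟨fun i hi => ⟨ha' i hi, hmax i hi⟩, hp⟩
  refine h4 a p J t (Og θ1 θ2) ht hp (Og_val θ1 θ2) ?_ (ih ha')
  rcases eq_or_lt_of_le hat with h0 | hpos
  · rw [← h0]
    exact TLin_zero a p (Og θ1 θ2) J (p t)
  · exact h3 a p J (a t) (p t) (Og θ1 θ2) hpos hbd (hp t).1 (hp t).2 (Og_val θ1 θ2)
      (fun B hB hAb z => h1 a p B θ1 θ2 (a t) (p t) z hpos (hbd.mono hB) hAb (hp t).1 (hp t).2)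
      (fun G hG r hr hv z => h2 a p G (a t) θ1 θ2 z r hpos (hbd.mono hG) hr hv)

end Pool.Agent.MP3145b1.RT
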