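import Pool.Agent.Lib.MP_3145b1_co.RT.Spec

/-!
# MP_3145b1_co, project RT, module TNod: the node inequality
-/

set_option autoImplicit false

namespace Pool.Agent.MP3145b1.RT

open Finset Pool.Agent.MP3145b1 Pool.Agent.MP3145b1.RC Pool.Agent.MP3145b1.RD

private theorem TNod_lg (U d : ℝ) : d ^ 2 * lg |U| (2 * d) ≤ U ^ 2 := by
  have hU : 0 ≤ U ^ 2 := sq_nonneg U
  by_cases hd : d = 0
  · rw [hd]
    simpa using hU
  · have h2d : (2 * d) ≠ 0 := mul_ne_zero two_ne_zero hd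
    have hd0 : 0 < |2 * d| := abs_pos.2 h2d
    have hd2 : 0 < d ^ 2 := by positivity
    set t : ℝ := |U| / |2 * d| with ht
    have ht0 : 0 ≤ t := div_nonneg (abs_nonneg _) hd0.le
    have hlog : Real.log t ≤ t ^ 2 := by
      rcases ht0.eq_or_lt with h0 | h0
      · rw [← h0]
        simp
      · have := Real.log_le_sub_one_of_pos h0
        nlinarith [sq_nonneg (t - 1)]
    have hlg : lg |U| (2 * d) ≤ t ^ 2 := max_le (sq_nonneg _) hlog
    have e : t ^ 2 = U ^ 2 / (4 * d ^ 2) := by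
      rw [ht, div_pow, sq_abs, sq_abs]
      ring
    have h3 : d ^ 2 * lg |U| (2 * d) ≤ d ^ 2 * (U ^ 2 / (4 * d ^ 2)) := by
      rw [← e]
      exact mul_le_mul_of_nonneg_left hlg hd2.le
    have h4 : d ^ 2 * (U ^ 2 / (4 * d ^ 2)) = U ^ 2 / 4 := by
      field_simp
    rw [h4] at h3
    linarith

private theorem TNod_hval {F : ℝ → ℝ} (hF : ∀ y, F y = 1 ∨ F y = -1) (A y : ℝ) :
    hA A F y = 0 ∨ hA A F y = 1 ∨ hA A F y = -1 := by
  unfold hA
  rcases hF y with h1 | h1 <;> rcases hF (y + A) with h2 | h2 <;> rw [h1, h2] <;> norm_num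

theorem rTNod (h1 : S_TPar) (h2 : S_TBig) (h3 : S_TSml) : S_TNod := by
  intro a p J A q F hA0 hB hq0 hq1 hF hblk hsm z
  have hp := hB.2
  -- the sum of the squares
  have hX : ∑ T ∈ J.powerset.erase ∅, wt p T * Co a p J T (hA A F) z ^ 2 =
      Av a p J (fun y => hA A F y ^ 2) z - Av a p J (hA A F) z ^ 2 :=
    (h1 a p J ∅ (hA A F) z (Finset.empty_subset _)).2.2.2
  have hG : ∑ T ∈ J.powerset.erase ∅, wt p T * Co a p J T (gA q A F) z ^ 2 =
      Av a p J (fun y => gA q A F y ^ 2) z - Av a p J (gA q A F) z ^ 2 :=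
    (h1 a p J ∅ (gA q A F) z (Finset.empty_subset _)).2.2.2
  have hX0 := Av_var_nonneg a hp J (hA A F) z
  set W : ℝ := Av a p J (fun y => hA A F y ^ 2) z with hW
  set m : ℝ := Av a p J (hA A F) z with hm
  have hmW : m ≤ W := Av_mono a hp J (fun y => by
    rcases TNod_hval hF A y with h | h | h <;> rw [h] <;> norm_num) z
  have hmW' : -m ≤ W := by
    have h4 : Av a p J (fun y => (-1) * hA A F y) z ≤ W := Av_mono a hp J (fun y => by
      rcases TNod_hval hF A y with h | h | h <;> rw [h] <;> norm_num) z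
    rw [Av_mul] at h4
    linarith
  have hW1 : W ≤ 1 := Av_le_const a hp J (fun y => by
    rcases TNod_hval hF A y with h | h | h <;> rw [h] <;> norm_num) z
  have hm2 : m ^ 2 ≤ W ^ 2 := sq_le_sq' (by linarith) hmW
  -- split
  have hsplit : ∑ T ∈ J.powerset.erase ∅, wt p T * (Co a p J T (hA A F) z ^ 2 *
      (1 + lg |Co a p J T (gA q A F) z| (2 * Co a p J T (hA A F) z))) =
      ∑ T ∈ J.powerset.erase ∅, wt p T * Co a p J T (hA A F) z ^ 2 +
      ∑ T ∈ J.powerset.erase ∅, wt p T * (Co a p J T (hA A F) z ^ 2 *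
        lg |Co a p J T (gA q A F) z| (2 * Co a p J T (hA A F) z)) := by
    rw [← Finset.sum_add_distrib]
    exact Finset.sum_congr rfl fun T _ => by ring
  rw [hsplit, hX]
  by_cases hW2 : W ≤ 1 / 2
  · have h5 := h3 a p J A q F hA0 hB hq0 hq1 hF hblk hsm z
    rw [← hW] at h5
    have hW0 : 0 ≤ W := by linarith
    have h6 : W / 2 ≤ W - m ^ 2 := by nlinarith
    linarith
  · have h5 := h2 a p J A q F z hp hq0 hq1 hF (not_le.1 hW2)
    rw [← hW, ← hm, ← hG] at h5
    have h6 : ∑ T ∈ J.powerset.erase ∅, wt p T * (Co a p J T (hA A F) z ^ 2 *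
        lg |Co a p J T (gA q A F) z| (2 * Co a p J T (hA A F) z)) ≤
        ∑ T ∈ J.powerset.erase ∅, wt p T * Co a p J T (gA q A F) z ^ 2 :=
      Finset.sum_le_sum fun T _ => mul_le_mul_of_nonneg_left (TNod_lg _ _) (wt_nonneg hp T)
    linarith

end Pool.Agent.MP3145b1.RT
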