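import Pool.Agent.Lib.MP_3145b1_co.RT.Spec

/-!
# Parseval with blocks
-/

set_option autoImplicit false

namespace Pool.Agent.MP3145b1.RT

open Finset Pool.Agent.MP3145b1 Pool.Agent.MP3145b1.RC Pool.Agent.MP3145b1.RD

private theorem TPar_one (a p : ℕ → ℝ) (F : ℝ → ℝ) (J : Finset ℕ) : ∀ z : ℝ,
    ∑ T ∈ J.powerset, wt p T * Co a p J T F z ^ 2 = Av a p J (fun y => F y ^ 2) z := by
  induction J using Finset.induction_on with
  | empty =>
    intro z
    rw [Finset.powerset_empty, Finset.sum_singleton, Co_empty, Av_empty, Av_empty]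
    simp [wt]
  | insert t J ht ih =>
    intro z
    rw [Finset.sum_powerset_insert ht, Av_insert _ _ _ _ ht, ← ih z, ← ih (z + a t), Finset.mul_sum,
      Finset.mul_sum, ← Finset.sum_add_distrib, ← Finset.sum_add_distrib]
    refine Finset.sum_congr rfl fun T hT => ?_
    have hTJ : T ⊆ J := Finset.mem_powerset.1 hT
    have htT : t ∉ T := fun h => ht (hTJ h)
    rw [Co_insert_not a p J T t ht hTJ, Co_insert_mem a p J T t ht hTJ, wt_insert p T t htT]
    ring

private theorem TPar_two (a p : ℕ → ℝ) (F : ℝ → ℝ) (J B : Finset ℕ) (hB : B ⊆ J) (z : ℝ) :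
    ∑ T ∈ J.powerset.filter (fun T => Disjoint T B), wt p T * Co a p J T F z ^ 2 =
      Av a p (J \ B) (fun y => Av a p B F y ^ 2) z := by
  have hset : J.powerset.filter (fun T => Disjoint T B) = (J \ B).powerset := by
    ext T
    rw [Finset.mem_filter, Finset.mem_powerset, Finset.mem_powerset]
    constructor
    · rintro ⟨h1, h2⟩ i hi
      exact Finset.mem_sdiff.2 ⟨h1 hi, fun h => Finset.disjoint_left.1 h2 hi h⟩
    · intro h
      refine ⟨fun i hi => (Finset.mem_sdiff.1 (h hi)).1, ?_⟩
      rw [Finset.disjoint_left]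
      intro i hi hiB
      exact (Finset.mem_sdiff.1 (h hi)).2 hiB
  rw [hset, ← TPar_one a p (fun y => Av a p B F y) (J \ B) z]
  refine Finset.sum_congr rfl fun T hT => ?_
  have hT' : T ⊆ J \ B := Finset.mem_powerset.1 hT
  have hd : Disjoint T B := by
    rw [Finset.disjoint_left]
    intro i hi hiB
    exact (Finset.mem_sdiff.1 (hT' hi)).2 hiB
  rw [Co_sdiff a p J T B hB hd]

theorem rTPar : S_TPar := by
  intro a p J B F z hB
  have h1 := TPar_one a p F J z
  have h2 := TPar_two a p F J B hB z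
  refine ⟨h1, h2, ?_, ?_⟩
  · have h3 := Finset.sum_filter_add_sum_filter_not J.powerset (fun T => Disjoint T B)
      (fun T => wt p T * Co a p J T F z ^ 2)
    rw [h1, h2] at h3
    have h4 : Av a p (J \ B) (fun y => Av a p B (fun y' => F y' ^ 2) y - Av a p B F y ^ 2) z =
        Av a p J (fun y => F y ^ 2) z - Av a p (J \ B) (fun y => Av a p B F y ^ 2) z := by
      rw [Av_sub a p (J \ B) (fun y => Av a p B (fun y' => F y' ^ 2) y)
        (fun y => Av a p B F y ^ 2), Av_sdiff a p J B hB (fun y => F y ^ 2) z]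
    rw [h4]
    linarith
  · have h5 := Finset.add_sum_erase J.powerset (fun T => wt p T * Co a p J T F z ^ 2)
      (Finset.empty_mem_powerset J)
    have h6 : wt p ∅ = 1 := by simp [wt]
    rw [h1, Co_empty, h6, one_mul] at h5
    linarith

end Pool.Agent.MP3145b1.RT
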