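import Pool.Agent.Lib.MP_3145b1_co.RT.Spec

set_option autoImplicit false

namespace Pool.Agent.MP3145b1.RT

open Finset Pool.Agent.MP3145b1 Pool.Agent.MP3145b1.RC Pool.Agent.MP3145b1.RD

private theorem TPos_mn (a p : ℕ → ℝ) (B : Finset ℕ) (i : ℕ) (hi : i ∉ B) :
    mn a p (insert i B) = (1 - p i) * a i + mn a p B := by
  unfold mn
  rw [Finset.sum_insert hi]

private theorem TPos_vr (a p : ℕ → ℝ) (B : Finset ℕ) (i : ℕ) (hi : i ∉ B) :
    vr a p (insert i B) = p i * (1 - p i) * a i ^ 2 + vr a p B := by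
  unfold vr
  rw [Finset.sum_insert hi]

/-- the two windows together have a large probability -/
private theorem TPos_two (h1 : S_TChb) (a p : ℕ → ℝ) (B : Finset ℕ) (θ A z c : ℝ) (hA : 0 < A)
    (hp : ∀ i, 0 ≤ p i ∧ p i ≤ 1) (hv : vr a p B ≤ A ^ 2 / 64) (hc : c ≤ A)
    (hM0 : z + mn a p B < θ - A / 2) (hM1 : θ - A / 2 ≤ z + mn a p B + c) :
    3 / 4 ≤ Av a p B (Wn θ A) z + Av a p B (Wn θ A) (z + c) := by
  have h := (h1 a p B hp z).2 (A / 2) (by linarith)
  have e : Av a p B (Wn θ A) z + Av a p B (Wn θ A) (z + c) =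
      Av a p B (fun y => Wn θ A y + Wn θ A (y + c)) z := by
    rw [Av_add a p B (Wn θ A) (fun y => Wn θ A (y + c)) z, Av_shift]
  have hmono : Av a p B (fun y => if |y - (z + mn a p B)| < A / 2 then 1 else 0) z ≤
      Av a p B (fun y => Wn θ A y + Wn θ A (y + c)) z := by
    refine Av_mono a hp B (fun y => ?_) z
    have n1 := Wn_nonneg θ A y
    have n2 := Wn_nonneg θ A (y + c)
    split_ifs with hy
    · rw [abs_lt] at hy
      by_cases hw : θ - A ≤ y
      · have : Wn θ A y = 1 := by
          unfold Wn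
          rw [if_pos ⟨hw, by linarith [hy.2]⟩]
        linarith
      · rw [not_le] at hw
        have : Wn θ A (y + c) = 1 := by
          unfold Wn
          rw [if_pos ⟨by linarith [hy.1], by linarith⟩]
        linarith
    · linarith
  have h3 : vr a p B / (A / 2) ^ 2 ≤ 1 / 16 := by
    rw [div_le_iff₀ (by positivity)]
    nlinarith
  rw [e]
  linarith

/-- the window has a large probability if the mean is near its middle -/
private theorem TPos_mid (h1 : S_TChb) (a p : ℕ → ℝ) (B : Finset ℕ) (θ A z : ℝ) (hA : 0 < A)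
    (hp : ∀ i, 0 ≤ p i ∧ p i ≤ 1) (hv : vr a p B ≤ A ^ 2 / 64)
    (hM0 : θ - A / 2 - A / 8 ≤ z + mn a p B) (hM1 : z + mn a p B ≤ θ - A / 2 + A / 8) :
    8 / 9 ≤ Av a p B (Wn θ A) z := by
  have h := (h1 a p B hp z).2 (3 * A / 8) (by linarith)
  have hmono : Av a p B (fun y => if |y - (z + mn a p B)| < 3 * A / 8 then 1 else 0) z ≤
      Av a p B (Wn θ A) z := by
    refine Av_mono a hp B (fun y => ?_) z
    have n1 := Wn_nonneg θ A y
    split_ifs with hy
    · rw [abs_lt] at hy
      have : Wn θ A y = 1 := by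
        unfold Wn
        rw [if_pos ⟨by linarith [hy.1], by linarith [hy.2]⟩]
      linarith
    · exact n1
  have h3 : vr a p B / (3 * A / 8) ^ 2 ≤ 1 / 9 := by
    rw [div_le_iff₀ (by positivity)]
    nlinarith
  linarith

private theorem TPos_small {x A : ℝ} (hA : 0 < A) (h : x ^ 2 ≤ A ^ 2 / 64) : x ≤ A / 8 := by
  by_contra hc
  rw [not_le] at hc
  nlinarith

private theorem TPos_one (h1 : S_TChb) (a p : ℕ → ℝ) (θ A : ℝ) (hA : 0 < A) (hp : ∀ i, 0 ≤ p i ∧ p i ≤ 1)
    (B : Finset ℕ) : (∀ i ∈ B, 0 ≤ a i ∧ a i ≤ A) → vr a p B ≤ A ^ 2 / 64 → ∀ z : ℝ,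
      z + mn a p B < θ - A / 2 → Av a p B (Hv θ) z ≤ 4 * Av a p B (Wn θ A) z := by
  induction B using Finset.induction_on with
  | empty =>
    intro _ _ z hz
    have h0 : mn a p ∅ = 0 := by simp [mn]
    rw [h0] at hz
    rw [Av_empty, Av_empty]
    have : Hv θ z = 0 := by
      unfold Hv
      rw [if_neg (by linarith)]
    rw [this]
    linarith [Wn_nonneg θ A z]
  | insert i B hi ih =>
    intro ha hv z hz
    have hai := ha i (Finset.mem_insert_self i B)
    have ha' : ∀ j ∈ B, 0 ≤ a j ∧ a j ≤ A := fun j hj => ha j (Finset.mem_insert_of_mem hj)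
    have hpi := hp i
    have hq : 0 ≤ 1 - p i := by linarith [hpi.2]
    rw [TPos_mn a p B i hi] at hz
    have hv2 := hv
    rw [TPos_vr a p B i hi] at hv2
    have hvi : 0 ≤ p i * (1 - p i) * a i ^ 2 := mul_nonneg (mul_nonneg hpi.1 hq) (sq_nonneg _)
    have hvB0 := vr_nonneg a hp B
    have hvB : vr a p B ≤ A ^ 2 / 64 := by linarith
    rw [Av_insert a p B i hi, Av_insert a p B i hi]
    have hqa : 0 ≤ (1 - p i) * a i := mul_nonneg hq hai.1
    have i0 := ih ha' hvB z (by linarith)
    have V0 : 0 ≤ Av a p B (Wn θ A) z := Av_nonneg a hp B (Wn_nonneg θ A) z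
    have V1 : 0 ≤ Av a p B (Wn θ A) (z + a i) := Av_nonneg a hp B (Wn_nonneg θ A) _
    have hH : ∀ y, Hv θ y ≤ 1 := fun y => by unfold Hv; split_ifs <;> norm_num
    have G0 : Av a p B (Hv θ) z ≤ 1 := Av_le_const a hp B hH z
    have G1 : Av a p B (Hv θ) (z + a i) ≤ 1 := Av_le_const a hp B hH _
    by_cases hM : z + a i + mn a p B < θ - A / 2
    · have i1 := ih ha' hvB (z + a i) hM
      have := mul_le_mul_of_nonneg_left i0 hpi.1
      have := mul_le_mul_of_nonneg_left i1 hq
      linarith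
    · rw [not_lt] at hM
      by_cases hV : 1 / 4 ≤ Av a p B (Wn θ A) (z + a i)
      · have i1 : Av a p B (Hv θ) (z + a i) ≤ 4 * Av a p B (Wn θ A) (z + a i) := by linarith
        have := mul_le_mul_of_nonneg_left i0 hpi.1
        have := mul_le_mul_of_nonneg_left i1 hq
        linarith
      · rw [not_le] at hV
        have h2 := TPos_two h1 a p B θ A z (a i) hA hp hvB hai.2 (by linarith) (by linarith)
        have h3 : 1 / 2 ≤ p i := by
          by_contra hc
          rw [not_le] at hc
          have h4 : (p i * a i) ^ 2 ≤ A ^ 2 / 64 := by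
            have : (p i * a i) ^ 2 ≤ p i * (1 - p i) * a i ^ 2 := by
              have h5 : p i * p i ≤ p i * (1 - p i) := mul_le_mul_of_nonneg_left (by linarith) hpi.1
              have h6 := mul_le_mul_of_nonneg_right h5 (sq_nonneg (a i))
              calc (p i * a i) ^ 2 = p i * p i * a i ^ 2 := by ring
                _ ≤ _ := h6
            linarith
          have h5 := TPos_small hA h4
          have h6 := TPos_mid h1 a p B θ A (z + a i) hA hp hvB (by linarith) (by nlinarith)
          linarith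
        have h7 : 1 / 2 * (1 / 2) ≤ p i * Av a p B (Wn θ A) z :=
          mul_le_mul h3 (by linarith) (by norm_num) hpi.1
        have h8 : p i * Av a p B (Hv θ) z ≤ p i * 1 := mul_le_mul_of_nonneg_left G0 hpi.1
        have h9 : (1 - p i) * Av a p B (Hv θ) (z + a i) ≤ (1 - p i) * 1 := mul_le_mul_of_nonneg_left G1 hq
        have h10 : 0 ≤ (1 - p i) * Av a p B (Wn θ A) (z + a i) := mul_nonneg hq V1
        linarith

private theorem TPos_other (h1 : S_TChb) (a p : ℕ → ℝ) (θ A : ℝ) (hA : 0 < A) (hp : ∀ i, 0 ≤ p i ∧ p i ≤ 1)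
    (B : Finset ℕ) : (∀ i ∈ B, 0 ≤ a i ∧ a i ≤ A) → vr a p B ≤ A ^ 2 / 64 → ∀ z : ℝ,
      θ - A / 2 ≤ z + mn a p B →
      Av a p B (fun y => if y < θ - A then 1 else 0) z ≤ 4 * Av a p B (Wn θ A) z := by
  induction B using Finset.induction_on with
  | empty =>
    intro _ _ z hz
    have h0 : mn a p ∅ = 0 := by simp [mn]
    rw [h0] at hz
    rw [Av_empty, Av_empty, if_neg (by linarith)]
    linarith [Wn_nonneg θ A z]
  | insert i B hi ih =>
    intro ha hv z hz
    have hai := ha i (Finset.mem_insert_self i B)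
    have ha' : ∀ j ∈ B, 0 ≤ a j ∧ a j ≤ A := fun j hj => ha j (Finset.mem_insert_of_mem hj)
    have hpi := hp i
    have hq : 0 ≤ 1 - p i := by linarith [hpi.2]
    rw [TPos_mn a p B i hi] at hz
    have hv2 := hv
    rw [TPos_vr a p B i hi] at hv2
    have hvi : 0 ≤ p i * (1 - p i) * a i ^ 2 := mul_nonneg (mul_nonneg hpi.1 hq) (sq_nonneg _)
    have hvB0 := vr_nonneg a hp B
    have hvB : vr a p B ≤ A ^ 2 / 64 := by linarith
    rw [Av_insert a p B i hi, Av_insert a p B i hi]
    have hpa : 0 ≤ p i * a i := mul_nonneg hpi.1 hai.1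
    have i1 := ih ha' hvB (z + a i) (by linarith)
    have V0 : 0 ≤ Av a p B (Wn θ A) z := Av_nonneg a hp B (Wn_nonneg θ A) z
    have V1 : 0 ≤ Av a p B (Wn θ A) (z + a i) := Av_nonneg a hp B (Wn_nonneg θ A) _
    have hH : ∀ y, (if y < θ - A then (1 : ℝ) else 0) ≤ 1 := fun y => by split_ifs <;> norm_num
    have G0 : Av a p B (fun y => if y < θ - A then 1 else 0) z ≤ 1 := Av_le_const a hp B hH z
    have G1 : Av a p B (fun y => if y < θ - A then 1 else 0) (z + a i) ≤ 1 := Av_le_const a hp B hH _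
    by_cases hM : θ - A / 2 ≤ z + mn a p B
    · have i0 := ih ha' hvB z hM
      have := mul_le_mul_of_nonneg_left i0 hpi.1
      have := mul_le_mul_of_nonneg_left i1 hq
      linarith
    · rw [not_le] at hM
      by_cases hV : 1 / 4 ≤ Av a p B (Wn θ A) z
      · have i0 : Av a p B (fun y => if y < θ - A then 1 else 0) z ≤ 4 * Av a p B (Wn θ A) z := by linarith
        have := mul_le_mul_of_nonneg_left i0 hpi.1
        have := mul_le_mul_of_nonneg_left i1 hq
        linarith
      · rw [not_le] at hV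
        have h2 := TPos_two h1 a p B θ A z (a i) hA hp hvB hai.2 hM (by linarith)
        have h3 : 1 / 2 ≤ 1 - p i := by
          by_contra hc
          rw [not_le] at hc
          have h4 : ((1 - p i) * a i) ^ 2 ≤ A ^ 2 / 64 := by
            have : ((1 - p i) * a i) ^ 2 ≤ p i * (1 - p i) * a i ^ 2 := by
              have h5 : (1 - p i) * (1 - p i) ≤ p i * (1 - p i) :=
                mul_le_mul_of_nonneg_right (by linarith) hq
              have h6 := mul_le_mul_of_nonneg_right h5 (sq_nonneg (a i))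
              calc ((1 - p i) * a i) ^ 2 = (1 - p i) * (1 - p i) * a i ^ 2 := by ring
                _ ≤ _ := h6
            linarith
          have h5 := TPos_small hA h4
          have h6 := TPos_mid h1 a p B θ A z hA hp hvB (by linarith) (by linarith)
          linarith
        have h7 : 1 / 2 * (1 / 2) ≤ (1 - p i) * Av a p B (Wn θ A) (z + a i) :=
          mul_le_mul h3 (by linarith) (by norm_num) hq
        have h8 : p i * Av a p B (fun y => if y < θ - A then 1 else 0) z ≤ p i * 1 :=
          mul_le_mul_of_nonneg_left G0 hpi.1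
        have h9 : (1 - p i) * Av a p B (fun y => if y < θ - A then 1 else 0) (z + a i) ≤ (1 - p i) * 1 :=
          mul_le_mul_of_nonneg_left G1 hq
        have h10 : 0 ≤ p i * Av a p B (Wn θ A) z := mul_nonneg hpi.1 V0
        linarith

theorem rTPos (h1 : S_TChb) : S_TPos := by
  intro a p B θ A z hA hB hv
  exact ⟨TPos_one h1 a p θ A hA hB.2 B hB.1 hv z, TPos_other h1 a p θ A hA hB.2 B hB.1 hv z⟩

end Pool.Agent.MP3145b1.RT
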