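import Pool.Agent.Lib.MP_3145b1_co.RT.Spec

/-!
# MP_3145b1_co, project RT, module TPrg: branching programs
-/

set_option autoImplicit false

namespace Pool.Agent.MP3145b1.RT

open Finset Pool.Agent.MP3145b1 Pool.Agent.MP3145b1.RC Pool.Agent.MP3145b1.RD

/-- the constant function `1` -/
private theorem TPrg_one (K : ℝ) (N : ℕ) : Shp K (fun _ : Fin N → Bool => (1 : ℝ)) := by
  have h0 : ∀ S : Finset (Fin N), S ≠ ∅ → coeff (fun _ : Fin N → Bool => (1 : ℝ)) S = 0 := by
    intro S hS
    obtain ⟨i, hi⟩ := Finset.nonempty_iff_ne_empty.mpr hS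
    exact Q.coeff_zero _ i S hi (fun _ _ => rfl)
  have h1 : coeff (fun _ : Fin N → Bool => (1 : ℝ)) ∅ = 1 := by
    rw [Q.coeff_mean]
    have : (fun x : Fin N → Bool => (1 : ℝ) * sgn x ∅) = fun _ => (1 : ℝ) := by
      funext x
      simp [sgn]
    rw [this, Q.mean_const]
  have h2 : influence (fun _ : Fin N → Bool => (1 : ℝ)) = 0 := by
    unfold influence
    apply Finset.sum_eq_zero
    intro S _
    by_cases hS : S = ∅
    · subst hS
      simp
    · rw [h0 S hS]
      simp
  unfold Shp
  rw [h2, h1]
  have h4 : ∑ S ∈ (univ : Finset (Finset (Fin N))).erase ∅,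
      hh (coeff (fun _ : Fin N → Bool => (1 : ℝ)) S ^ 2) = 0 := by
    apply Finset.sum_eq_zero
    intro S hS
    rw [h0 S (Finset.ne_of_mem_erase hS)]
    norm_num
    unfold hh
    exact Real.negMulLog_zero
  rw [h4]
  simp

/-- the function computed by a program in terms of runs -/
private theorem TPrg_run {w N : ℕ} (s : ℕ → Fin w → Bool → Fin w) (v : ℕ → Fin w → ℕ)
    (O : Fin w → ℝ) (u : ℕ → (Fin N → Bool) → ℝ) (x0 : Fin w) (y : Fin N → Bool) (n : ℕ)
    (Y : ℕ → Bool) (hY : ∀ j, Y j = true ↔ u j y = -1) :
    ∀ k i, i + k = n → Fs s v O u k i (run s v x0 Y i) y = O (run s v x0 Y n) := by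
  intro k
  induction k with
  | zero =>
    intro i hi
    rw [← hi]
    rfl
  | succ k ih =>
    intro i hi
    have h1 := ih (i + 1) (by omega)
    rw [← h1]
    simp only [Fs]
    by_cases hu : u (v i (run s v x0 Y i)) y = -1
    · rw [if_pos hu]
      have h2 : Y (v i (run s v x0 Y i)) = true := (hY _).mpr hu
      simp only [run, h2]
    · rw [if_neg hu]
      have h2 : Y (v i (run s v x0 Y i)) = false := by
        rw [← Bool.not_eq_true, hY]
        exact hu
      simp only [run, h2]

theorem rTPrg (h1 : S_Cmp) (h2 : S_Fix) : S_TPrg := by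
  intro w K0 K hPG hK N P u hC hin0 n s v x0 o hr
  obtain ⟨M0, M, v', hv', hRo, hrun⟩ := h2 w n s v x0 hr
  set O : Fin w → ℝ := fun z => if o z then -1 else 1 with hO
  set u' : ℕ → (Fin N → Bool) → ℝ := fun i => if i < M0 then u i else (fun _ => 1) with hu'
  set P' : ℕ → Finset (Fin N) := fun i => if i < M0 then P i else ∅ with hP'
  have hCp : Cp P' u' := by
    refine ⟨fun i j hij => ?_, fun i => ?_, fun i x => ?_⟩
    · simp only [hP']
      split_ifs
      · exact hC.1 i j hij
      · exact Finset.disjoint_empty_right _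
      · exact Finset.disjoint_empty_left _
      · exact Finset.disjoint_empty_left _
    · simp only [hP', hu']
      split_ifs
      · exact hC.2.1 i
      · intro x y _
        rfl
    · simp only [hu']
      split_ifs
      · exact hC.2.2 i x
      · exact Or.inl rfl
  have hin : ∀ i, Shp K (u' i) := by
    intro i
    by_cases hi : i < M0
    · have : u' i = u i := by simp only [hu', if_pos hi]
      rw [this]
      exact hin0 i
    · have : u' i = fun _ => (1 : ℝ) := by simp only [hu', if_neg hi]
      rw [this]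
      exact TPrg_one K N
  have hOv : ∀ z, O z = 1 ∨ O z = -1 := by
    intro z
    simp only [hO]
    split_ifs
    · exact Or.inr rfl
    · exact Or.inl rfl
  have hfe : (fun x : Fin N → Bool =>
      if o (run s v x0 (fun i => decide (u i x = -1)) n) then (-1 : ℝ) else 1) =
      Fs s v' O u' n 0 x0 := by
    funext y
    have e1 := TPrg_run s v' O u' x0 y n (fun j => decide (u' j y = -1))
      (fun j => by simp) n 0 (by omega)
    have e2 := hrun (fun i => decide (u i y = -1)) (fun j => decide (u' j y = -1)) (by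
      intro i hi
      simp only [hu', if_pos hi])
    rw [e2] at e1
    simp only [run] at e1
    rw [e1]
  rw [hfe]
  exact h1 w K0 K hPG hK N M n s v' O x0 P' u' hCp hv' hRo hOv hin

end Pool.Agent.MP3145b1.RT
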