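import Pool.Agent.Lib.MP_3145b1_co.RT.Spec

/-!
# MP_3145b1_co, project RT: pointwise inequality
-/

set_option autoImplicit false

namespace Pool.Agent.MP3145b1.RT

open Finset Pool.Agent.MP3145b1 Pool.Agent.MP3145b1.RC Pool.Agent.MP3145b1.RD

private theorem TPtw_log (n : ℕ) :
    Real.log ((n : ℝ) + 1) ≤ ∑ r ∈ range (n + 1), (if 1 ≤ r then (1 : ℝ) / r else 0) := by
  induction n with
  | zero => simp
  | succ n ih =>
    rw [Finset.sum_range_succ, if_pos (by omega : 1 ≤ n + 1)]
    have h0 : (0 : ℝ) < (n : ℝ) + 1 := by positivity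
    have h1 : Real.log (((n + 1 : ℕ) : ℝ) + 1) =
        Real.log ((n : ℝ) + 1) + Real.log (1 + 1 / ((n : ℝ) + 1)) := by
      rw [← Real.log_mul (by positivity) (by positivity)]
      congr 1
      push_cast
      field_simp
    have h2 : Real.log (1 + 1 / ((n : ℝ) + 1)) ≤ 1 / ((n : ℝ) + 1) := by
      have := Real.log_le_sub_one_of_pos (show 0 < 1 + 1 / ((n : ℝ) + 1) by positivity)
      linarith
    rw [h1]
    have h3 : ((n + 1 : ℕ) : ℝ) = (n : ℝ) + 1 := by push_cast; ring
    rw [h3]
    linarith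

private theorem TPtw_pt (U d π : ℝ) (hπ : 0 < π) (hπ1 : π ≤ 1) :
    d ^ 2 * lg |U| (2 * d) ≤ d ^ 2 * ((1 / 2) * Real.log (1 / π)) + π * U ^ 2 := by
  have hr : 0 ≤ π * U ^ 2 := by positivity
  have hl : 0 ≤ Real.log (1 / π) := by
    apply Real.log_nonneg
    rw [le_div_iff₀ hπ]
    linarith
  have hd2 : 0 ≤ d ^ 2 := sq_nonneg d
  by_cases hd : d = 0
  · subst hd
    simpa using hr
  · unfold lg
    rcases le_or_gt (Real.log (|U| / |2 * d|)) 0 with h | h
    · rw [max_eq_left h, mul_zero]
      have := mul_nonneg hd2 (mul_nonneg (by norm_num : (0 : ℝ) ≤ 1 / 2) hl)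
      linarith
    · rw [max_eq_right h.le]
      have hU : U ≠ 0 := by
        rintro rfl
        simp at h
      have hU2 : 0 < U ^ 2 := by positivity
      have hd3 : 0 < d ^ 2 := by positivity
      have e1 : Real.log (|U| / |2 * d|) = (1 / 2) * Real.log (U ^ 2 / (4 * d ^ 2)) := by
        have e2 : U ^ 2 / (4 * d ^ 2) = (|U| / |2 * d|) ^ 2 := by
          rw [div_pow, sq_abs, sq_abs]
          ring
        rw [e2, Real.log_pow]
        push_cast
        ring
      have e3 : Real.log (U ^ 2 / (4 * d ^ 2)) =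
          Real.log (1 / π) + Real.log (π * (U ^ 2 / (4 * d ^ 2))) := by
        rw [← Real.log_mul (by positivity) (by positivity)]
        congr 1
        field_simp
      have e4 : Real.log (π * (U ^ 2 / (4 * d ^ 2))) ≤ π * (U ^ 2 / (4 * d ^ 2)) := by
        have := Real.log_le_sub_one_of_pos (show 0 < π * (U ^ 2 / (4 * d ^ 2)) by positivity)
        linarith
      have e5 : d ^ 2 * ((1 / 2) * (π * (U ^ 2 / (4 * d ^ 2)))) = π * U ^ 2 / 8 := by
        field_simp
        ring
      have e6 : d ^ 2 * Real.log (|U| / |2 * d|) ≤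
          d ^ 2 * ((1 / 2) * Real.log (1 / π) + (1 / 2) * (π * (U ^ 2 / (4 * d ^ 2)))) := by
        apply mul_le_mul_of_nonneg_left _ hd2
        rw [e1, e3]
        linarith
      rw [mul_add, e5] at e6
      linarith

theorem rTPtw : S_TPtw := by
  intro m Bl T hex U d
  obtain ⟨β, ⟨hβm, hβ⟩, hmin⟩ : ∃ β, (β < m ∧ ¬ Disjoint T (Bl β)) ∧
      ∀ b, b < β → Disjoint T (Bl b) := by
    refine ⟨Nat.find hex, Nat.find_spec hex, fun b hb => ?_⟩
    have h1 := Nat.find_min hex hb
    by_contra h2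
    exact h1 ⟨lt_trans hb (Nat.find_spec hex).1, h2⟩
  have hβ0 : (0 : ℝ) < (β : ℝ) + 1 := by positivity
  have h1 := TPtw_pt U d (1 / ((β : ℝ) + 1) ^ 2) (by positivity) (by
    rw [div_le_one (by positivity)]
    have : (1 : ℝ) ≤ (β : ℝ) + 1 := by
      have : (0 : ℝ) ≤ β := Nat.cast_nonneg _
      linarith
    exact one_le_pow₀ this)
  have h2 : (1 / 2 : ℝ) * Real.log (1 / (1 / ((β : ℝ) + 1) ^ 2)) = Real.log ((β : ℝ) + 1) := by
    rw [one_div_one_div, Real.log_pow]
    push_cast
    ring
  rw [h2] at h1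
  have h3 : d ^ 2 * Real.log ((β : ℝ) + 1) ≤
      ∑ r ∈ range m, (if 1 ≤ r ∧ Disjoint T ((range r).biUnion Bl) then (1 : ℝ) / r * d ^ 2 else 0) := by
    calc d ^ 2 * Real.log ((β : ℝ) + 1)
        ≤ d ^ 2 * ∑ r ∈ range (β + 1), (if 1 ≤ r then (1 : ℝ) / r else 0) :=
          mul_le_mul_of_nonneg_left (TPtw_log β) (sq_nonneg d)
      _ = ∑ r ∈ range (β + 1),
          (if 1 ≤ r ∧ Disjoint T ((range r).biUnion Bl) then (1 : ℝ) / r * d ^ 2 else 0) := by
          rw [Finset.mul_sum]
          refine Finset.sum_congr rfl fun r hr => ?_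
          rw [Finset.mem_range] at hr
          by_cases h : 1 ≤ r
          · have hdj : Disjoint T ((range r).biUnion Bl) := by
              rw [Finset.disjoint_biUnion_right]
              intro b hb
              rw [Finset.mem_range] at hb
              exact hmin b (by omega)
            rw [if_pos h, if_pos ⟨h, hdj⟩, mul_comm]
          · rw [if_neg h, if_neg (fun h' => h h'.1), mul_zero]
      _ ≤ _ := by
          refine Finset.sum_le_sum_of_subset_of_nonneg ?_ ?_
          · intro r hr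
            rw [Finset.mem_range] at hr ⊢
            omega
          · intro r _ _
            split_ifs
            · positivity
            · exact le_rfl
  have h4 : 1 / ((β : ℝ) + 1) ^ 2 * U ^ 2 ≤
      ∑ b ∈ range m, (if ¬ Disjoint T (Bl b) then (1 : ℝ) / (b + 1) ^ 2 * U ^ 2 else 0) := by
    have h5 := Finset.single_le_sum
      (f := fun b : ℕ => if ¬ Disjoint T (Bl b) then (1 : ℝ) / ((b : ℝ) + 1) ^ 2 * U ^ 2 else 0)
      (s := range m) (fun b _ => by
        split_ifs
        · exact le_rfl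
        · positivity) (Finset.mem_range.2 hβm)
    rw [if_pos hβ] at h5
    exact h5
  linarith

end Pool.Agent.MP3145b1.RT
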