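import Pool.Agent.Lib.MP_3145b1_co.RT.Spec

/-!
# MP_3145b1_co, project RT, module TSmI: small ball for the interval gate
-/

set_option autoImplicit false

namespace Pool.Agent.MP3145b1.RT

open Finset Pool.Agent.MP3145b1 Pool.Agent.MP3145b1.RC Pool.Agent.MP3145b1.RD

private theorem TSmI_pt (θ1 θ2 A : ℝ) (hA0 : 0 < A) (y : ℝ) :
    |hA A (Og θ1 θ2) y| ≤ Wn θ1 A y + Wn θ2 A y ∧ |hA A (Og θ1 θ2) y| ≤ 1 := by
  have w1 := Wn_nonneg θ1 A y
  have w2 := Wn_nonneg θ2 A y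
  unfold hA
  by_cases h1 : θ1 ≤ y ∧ y < θ2
  · by_cases h2 : θ1 ≤ y + A ∧ y + A < θ2
    · have e1 : Og θ1 θ2 y = -1 := if_pos h1
      have e2 : Og θ1 θ2 (y + A) = -1 := if_pos h2
      rw [e1, e2]
      norm_num
      linarith
    · have e1 : Og θ1 θ2 y = -1 := if_pos h1
      have e2 : Og θ1 θ2 (y + A) = 1 := if_neg h2
      have h3 : θ2 ≤ y + A := by
        by_contra h
        exact h2 ⟨by linarith [h1.1], not_le.1 h⟩
      have e3 : Wn θ2 A y = 1 := if_pos ⟨by linarith, h1.2⟩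
      rw [e1, e2, e3]
      norm_num
      linarith
  · by_cases h2 : θ1 ≤ y + A ∧ y + A < θ2
    · have e1 : Og θ1 θ2 y = 1 := if_neg h1
      have e2 : Og θ1 θ2 (y + A) = -1 := if_pos h2
      have h3 : y < θ1 := by
        by_contra h
        exact h1 ⟨not_lt.1 h, by linarith [h2.2]⟩
      have e3 : Wn θ1 A y = 1 := if_pos ⟨by linarith [h2.1], h3⟩
      rw [e1, e2, e3]
      norm_num
      linarith
    · have e1 : Og θ1 θ2 y = 1 := if_neg h1
      have e2 : Og θ1 θ2 (y + A) = 1 := if_neg h2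
      rw [e1, e2]
      norm_num
      linarith

theorem rTSmI (h1 : S_TEsn) : S_TSmI := by
  intro a p G A θ1 θ2 z r hA0 hB hr hv
  have hp := hB.2
  have hr0 : (1 : ℝ) ≤ r := by exact_mod_cast hr
  have hneg : Av a p G (fun y => -1 * hA A (Og θ1 θ2) y) z = -Av a p G (hA A (Og θ1 θ2)) z := by
    rw [Av_mul]
    ring
  rcases lt_or_ge (r : ℝ) 512 with hr1 | hr1
  · have hs : 0 < Real.sqrt r := Real.sqrt_pos.2 (by linarith)
    have hs2 : Real.sqrt r ≤ 500 := by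
      rw [Real.sqrt_le_iff]
      exact ⟨by norm_num, by nlinarith⟩
    have hb : (1 : ℝ) ≤ 500 / Real.sqrt r := by
      rw [le_div_iff₀ hs]
      linarith
    have u1 : Av a p G (hA A (Og θ1 θ2)) z ≤ 1 :=
      Av_le_const a hp G (fun y => (le_abs_self _).trans (TSmI_pt θ1 θ2 A hA0 y).2) z
    have u2 : Av a p G (fun y => -1 * hA A (Og θ1 θ2) y) z ≤ 1 :=
      Av_le_const a hp G (fun y => by
        have h := (TSmI_pt θ1 θ2 A hA0 y).2
        have h' := neg_abs_le (hA A (Og θ1 θ2) y)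
        linarith) z
    rw [hneg] at u2
    rw [abs_le]
    constructor <;> linarith
  · have hx0 : (0 : ℝ) ≤ (r : ℝ) / 128 := by positivity
    have hx2 : Real.sqrt ((r : ℝ) / 128) ^ 2 = (r : ℝ) / 128 := Real.sq_sqrt hx0
    have hxn : 0 ≤ Real.sqrt ((r : ℝ) / 128) := Real.sqrt_nonneg _
    have hx : 2 ≤ Real.sqrt ((r : ℝ) / 128) := by
      apply Real.le_sqrt_of_sq_le
      linarith
    have hN1 : ((⌊Real.sqrt ((r : ℝ) / 128)⌋₊ : ℕ) : ℝ) ≤ Real.sqrt ((r : ℝ) / 128) := Nat.floor_le hxn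
    have hN2 : Real.sqrt ((r : ℝ) / 128) < (⌊Real.sqrt ((r : ℝ) / 128)⌋₊ : ℕ) + 1 :=
      Nat.lt_floor_add_one _
    generalize ⌊Real.sqrt ((r : ℝ) / 128)⌋₊ = N at hN1 hN2
    generalize hxe : Real.sqrt ((r : ℝ) / 128) = x at hx2 hxn hx hN1 hN2
    have hN3 : (1 : ℝ) < N := by linarith
    have hN4 : 1 ≤ N := by
      have h : 1 < N := by exact_mod_cast hN3
      omega
    have hNv : (N : ℝ) ^ 2 * A ^ 2 ≤ vr a p G := by
      have h : (N : ℝ) ^ 2 ≤ (r : ℝ) / 128 := by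
        rw [← hx2]
        exact pow_le_pow_left₀ (by linarith) hN1 2
      calc (N : ℝ) ^ 2 * A ^ 2 ≤ (r : ℝ) / 128 * A ^ 2 :=
            mul_le_mul_of_nonneg_right h (sq_nonneg A)
        _ = (r : ℝ) * A ^ 2 / 128 := by ring
        _ ≤ _ := hv
    have e1 := h1 a p G A θ1 z N hA0 hB hN4 hNv
    have e2 := h1 a p G A θ2 z N hA0 hB hN4 hNv
    have hsum : Av a p G (fun y => Wn θ1 A y + Wn θ2 A y) z ≤ 20 / N := by
      rw [Av_add]
      have h : (20 : ℝ) / N = 10 / N + 10 / N := by ring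
      rw [h]
      linarith
    have u1 : Av a p G (hA A (Og θ1 θ2)) z ≤ Av a p G (fun y => Wn θ1 A y + Wn θ2 A y) z :=
      Av_mono a hp G (fun y => (le_abs_self _).trans (TSmI_pt θ1 θ2 A hA0 y).1) z
    have u2 : Av a p G (fun y => -1 * hA A (Og θ1 θ2) y) z ≤
        Av a p G (fun y => Wn θ1 A y + Wn θ2 A y) z :=
      Av_mono a hp G (fun y => by
        have h := (TSmI_pt θ1 θ2 A hA0 y).1
        have h' := neg_abs_le (hA A (Og θ1 θ2) y)
        linarith) z
    rw [hneg] at u2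
    have hs : 0 < Real.sqrt r := Real.sqrt_pos.2 (by linarith)
    have hs2 : Real.sqrt r ≤ 25 / 2 * x := by
      rw [Real.sqrt_le_iff]
      refine ⟨by linarith, ?_⟩
      have h : (r : ℝ) = 128 * x ^ 2 := by rw [hx2]; ring
      rw [h]
      nlinarith [sq_nonneg x]
    have hfin : (20 : ℝ) / N ≤ 500 / Real.sqrt r := by
      rw [div_le_div_iff₀ (by linarith) hs]
      have h : x ≤ 2 * N := by linarith
      nlinarith
    rw [abs_le]
    constructor <;> linarith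

end Pool.Agent.MP3145b1.RT
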