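import Pool.Agent.Lib.MP_3145b1_co.RT.Spec

/-!
# MP_3145b1_co, project RT, module TSml: the part with the logarithm, pivotal probability at most 1/2
-/

set_option autoImplicit false

namespace Pool.Agent.MP3145b1.RT

open Finset Pool.Agent.MP3145b1 Pool.Agent.MP3145b1.RC Pool.Agent.MP3145b1.RD

private theorem TSml_abs {F : ℝ → ℝ} (hF : ∀ y, F y = 1 ∨ F y = -1) (A y : ℝ) :
    |hA A F y| = hA A F y ^ 2 := by
  unfold hA
  rcases hF y with h | h <;> rcases hF (y + A) with h' | h' <;> rw [h, h'] <;> norm_num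

private theorem TSml_av (a : ℕ → ℝ) {p : ℕ → ℝ} (hp : ∀ i, 0 ≤ p i ∧ p i ≤ 1) (G : Finset ℕ)
    {F : ℝ → ℝ} (hF : ∀ y, F y = 1 ∨ F y = -1) (A z : ℝ) :
    |Av a p G (hA A F) z| ≤ Av a p G (fun y => hA A F y ^ 2) z := by
  rw [abs_le]
  constructor
  · have h := Av_mono a hp G (F := fun y => -1 * hA A F y ^ 2) (G := hA A F) (fun y => by
      have h1 := neg_abs_le (hA A F y)
      rw [TSml_abs hF A y] at h1
      linarith) z
    rw [Av_mul a p G (-1) (fun y => hA A F y ^ 2)] at h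
    linarith
  · exact Av_mono a hp G (fun y => (le_abs_self _).trans (TSml_abs hF A y).le) z

/-- the sets which meet the block `B` -/
private theorem TSml_blk (h1 : S_TPar) (a : ℕ → ℝ) {p : ℕ → ℝ} (hp : ∀ i, 0 ≤ p i ∧ p i ≤ 1)
    {J B : Finset ℕ} (hB : B ⊆ J) {A q : ℝ} {F : ℝ → ℝ}
    (H : ∀ z, Av a p B (fun y => gA q A F y ^ 2) z - Av a p B (gA q A F) z ^ 2 ≤
      40 * Av a p B (fun y => hA A F y ^ 2) z) (z : ℝ) :
    ∑ T ∈ J.powerset.filter (fun T => ¬ Disjoint T B), wt p T * Co a p J T (gA q A F) z ^ 2 ≤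
      40 * Av a p J (fun y => hA A F y ^ 2) z := by
  rw [(h1 a p J B (gA q A F) z hB).2.2.1, Av_sdiff a p J B hB (fun y => hA A F y ^ 2) z, ← Av_mul]
  exact Av_mono a hp _ H z

/-- the sets which are disjoint from `G` -/
private theorem TSml_pre (h1 : S_TPar) (a : ℕ → ℝ) {p : ℕ → ℝ} (hp : ∀ i, 0 ≤ p i ∧ p i ≤ 1)
    {J G : Finset ℕ} (hG : G ⊆ J) {A : ℝ} {F : ℝ → ℝ} (hF : ∀ y, F y = 1 ∨ F y = -1) {c : ℝ}
    (H : ∀ z, |Av a p G (hA A F) z| ≤ c) (z : ℝ) :
    ∑ T ∈ J.powerset.filter (fun T => Disjoint T G), wt p T * Co a p J T (hA A F) z ^ 2 ≤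
      c * Av a p J (fun y => hA A F y ^ 2) z := by
  rw [(h1 a p J G (hA A F) z hG).2.1, Av_sdiff a p J G hG (fun y => hA A F y ^ 2) z, ← Av_mul]
  refine Av_mono a hp _ (fun y => ?_) z
  rw [← sq_abs, sq]
  exact mul_le_mul (H y) (TSml_av a hp G hF A y) (abs_nonneg _) ((abs_nonneg _).trans (H y))

private theorem TSml_ext (J : Finset ℕ) (P : Finset ℕ → Prop) [DecidablePred P]
    (f : Finset ℕ → ℝ) {c : ℝ} (hc : 0 ≤ c) (hf : ∀ T, 0 ≤ f T) :
    ∑ T ∈ J.powerset.erase ∅, (if P T then c * f T else 0) ≤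
      c * ∑ T ∈ J.powerset.filter P, f T := by
  rw [Finset.mul_sum, Finset.sum_filter]
  refine Finset.sum_le_sum_of_subset_of_nonneg (Finset.erase_subset _ _) fun T _ _ => ?_
  split_ifs
  · exact mul_nonneg hc (hf T)
  · exact le_rfl

/-- the variance of the first `r` blocks -/
private theorem TSml_vr (a p : ℕ → ℝ) (m : ℕ) (Bl : ℕ → Finset ℕ) (c : ℝ)
    (hdis : ∀ b b', b < m → b' < m → b ≠ b' → Disjoint (Bl b) (Bl b'))
    (hvr : ∀ b, b + 1 < m → c ≤ vr a p (Bl b)) (r : ℕ) (hr : r < m) :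
    (r : ℝ) * c ≤ vr a p ((range r).biUnion Bl) := by
  have e : vr a p ((range r).biUnion Bl) = ∑ b ∈ range r, vr a p (Bl b) := by
    unfold vr
    refine Finset.sum_biUnion ?_
    intro b hb b' hb' hne
    have hb1 : b < r := Finset.mem_range.1 hb
    have hb2 : b' < r := Finset.mem_range.1 hb'
    exact hdis b b' (hb1.trans hr) (hb2.trans hr) hne
  rw [e]
  have h := Finset.card_nsmul_le_sum (range r) (fun b => vr a p (Bl b)) c fun b hb =>
    hvr b (lt_of_le_of_lt (Nat.succ_le_of_lt (Finset.mem_range.1 hb)) hr)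
  rwa [Finset.card_range, nsmul_eq_mul] at h

theorem rTSml (h1 : S_TPar) (h2 : S_TGrp) (h3 : S_TPtw) (h4 : S_TSrs) : S_TSml := by
  intro a p J A q F hA0 hBd hq0 hq1 hF H1 H2 z
  have hp := hBd.2
  obtain ⟨m, Bl, hBl, hdis, hcov, hvr⟩ := h2 a p J A hp
  set W := Av a p J (fun y => hA A F y ^ 2) z with hW
  have hW0 : 0 ≤ W := Av_nonneg a hp J (fun y => sq_nonneg _) z
  -- the pointwise inequality
  have key : ∀ T ∈ J.powerset.erase ∅, wt p T * (Co a p J T (hA A F) z ^ 2 *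
      lg |Co a p J T (gA q A F) z| (2 * Co a p J T (hA A F) z)) ≤
      ∑ r ∈ range m, (if 1 ≤ r ∧ Disjoint T ((range r).biUnion Bl) then
        (1 : ℝ) / r * (wt p T * Co a p J T (hA A F) z ^ 2) else 0) +
      ∑ b ∈ range m, (if ¬ Disjoint T (Bl b) then
        (1 : ℝ) / (b + 1) ^ 2 * (wt p T * Co a p J T (gA q A F) z ^ 2) else 0) := by
    intro T hT
    obtain ⟨hT0, hTJ⟩ := Finset.mem_erase.1 hT
    have hTJ' : T ⊆ J := Finset.mem_powerset.1 hTJ
    obtain ⟨i, hi⟩ := Finset.nonempty_iff_ne_empty.2 hT0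
    obtain ⟨b, hb, hib⟩ := hcov i (hTJ' hi)
    have hex : ∃ b, b < m ∧ ¬ Disjoint T (Bl b) :=
      ⟨b, hb, fun h => Finset.disjoint_left.1 h hi hib⟩
    have h := mul_le_mul_of_nonneg_left (h3 m Bl T hex (Co a p J T (gA q A F) z)
      (Co a p J T (hA A F) z)) (wt_nonneg hp T)
    refine h.trans (le_of_eq ?_)
    rw [mul_add, Finset.mul_sum, Finset.mul_sum]
    congr 1
    · refine Finset.sum_congr rfl fun r _ => ?_
      split_ifs
      · ring
      · rw [mul_zero]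
    · refine Finset.sum_congr rfl fun b _ => ?_
      split_ifs <;> ring
  refine (Finset.sum_le_sum key).trans ?_
  rw [Finset.sum_add_distrib]
  have e1 : ∑ T ∈ J.powerset.erase ∅, ∑ r ∈ range m,
      (if 1 ≤ r ∧ Disjoint T ((range r).biUnion Bl) then
        (1 : ℝ) / r * (wt p T * Co a p J T (hA A F) z ^ 2) else 0) ≤ 1500 * W := by
    rw [Finset.sum_comm]
    have h5 : ∀ r ∈ range m, (∑ T ∈ J.powerset.erase ∅,
        (if 1 ≤ r ∧ Disjoint T ((range r).biUnion Bl) then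
          (1 : ℝ) / r * (wt p T * Co a p J T (hA A F) z ^ 2) else 0)) ≤
        (if 1 ≤ r then (1 : ℝ) / r * (500 / Real.sqrt r) else 0) * W := by
      intro r hrm
      have hrm' : r < m := Finset.mem_range.1 hrm
      by_cases hr : 1 ≤ r
      · have hG : (range r).biUnion Bl ⊆ J := by
          intro i hi
          obtain ⟨b, hb, hib⟩ := Finset.mem_biUnion.1 hi
          exact (hBl b ((Finset.mem_range.1 hb).trans hrm')).1 hib
        have hv := TSml_vr a p m Bl (A ^ 2 / 128) hdis hvr r hrm'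
        rw [← mul_div_assoc] at hv
        have h6 := TSml_pre h1 a hp hG hF (H2 _ hG r hr hv) z
        have h7 := TSml_ext J (fun T => Disjoint T ((range r).biUnion Bl))
          (fun T => wt p T * Co a p J T (hA A F) z ^ 2) (c := (1 : ℝ) / r) (by positivity)
          (fun T => mul_nonneg (wt_nonneg hp T) (sq_nonneg _))
        have h8 : (0 : ℝ) ≤ 1 / r := by positivity
        rw [if_pos hr, mul_assoc]
        simp only [hr, true_and]
        exact h7.trans (mul_le_mul_of_nonneg_left h6 h8)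
      · rw [if_neg hr, zero_mul]
        refine le_of_eq (Finset.sum_eq_zero fun T _ => if_neg fun h => hr h.1)
    refine (Finset.sum_le_sum h5).trans ?_
    rw [← Finset.sum_mul]
    exact mul_le_mul_of_nonneg_right (h4 m).2 hW0
  have e2 : ∑ T ∈ J.powerset.erase ∅, ∑ b ∈ range m,
      (if ¬ Disjoint T (Bl b) then
        (1 : ℝ) / (b + 1) ^ 2 * (wt p T * Co a p J T (gA q A F) z ^ 2) else 0) ≤ 80 * W := by
    rw [Finset.sum_comm]
    have h5 : ∀ b ∈ range m, (∑ T ∈ J.powerset.erase ∅, (if ¬ Disjoint T (Bl b) then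
        (1 : ℝ) / (b + 1) ^ 2 * (wt p T * Co a p J T (gA q A F) z ^ 2) else 0)) ≤
        (1 : ℝ) / (b + 1) ^ 2 * (40 * W) := by
      intro b hb
      obtain ⟨hbJ, hab⟩ := hBl b (Finset.mem_range.1 hb)
      have h6 := TSml_blk h1 a hp hbJ (H1 _ hbJ hab) z
      have h7 := TSml_ext J (fun T => ¬ Disjoint T (Bl b))
        (fun T => wt p T * Co a p J T (gA q A F) z ^ 2) (c := (1 : ℝ) / (b + 1) ^ 2)
        (by positivity) (fun T => mul_nonneg (wt_nonneg hp T) (sq_nonneg _))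
      have h8 : (0 : ℝ) ≤ 1 / (b + 1) ^ 2 := by positivity
      exact h7.trans (mul_le_mul_of_nonneg_left h6 h8)
    refine (Finset.sum_le_sum h5).trans ?_
    rw [← Finset.sum_mul]
    have h9 := mul_le_mul_of_nonneg_right (h4 m).1 (by positivity : (0 : ℝ) ≤ 40 * W)
    linarith
  linarith

end Pool.Agent.MP3145b1.RT
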