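import Pool.Agent.Lib.MP_3145b1_co.RT.Spec

/-!
# MP_3145b1_co, project RT: two sums (TSrs)
-/

set_option autoImplicit false

namespace Pool.Agent.MP3145b1.RT

open Finset Pool.Agent.MP3145b1 Pool.Agent.MP3145b1.RC Pool.Agent.MP3145b1.RD

private theorem TSrs_one (m : ℕ) : ∑ b ∈ range (m + 1), (1 : ℝ) / ((b : ℝ) + 1) ^ 2 ≤ (2 : ℝ) - 1 / ((m : ℝ) + 1) := by
  induction m with
  | zero => norm_num
  | succ m ih =>
    rw [Finset.sum_range_succ]
    have hm : (0 : ℝ) < m + 1 := by positivity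
    have hm2 : (0 : ℝ) < m + 1 + 1 := by positivity
    have h : (1 : ℝ) / ((m : ℝ) + 1 + 1) ^ 2 ≤ 1 / (m + 1) - 1 / (m + 1 + 1) := by
      have e : (1 : ℝ) / (m + 1) - 1 / (m + 1 + 1) = 1 / ((m + 1) * (m + 1 + 1)) := by
        field_simp
        ring
      rw [e]
      refine one_div_le_one_div_of_le (by positivity) ?_
      nlinarith
    push_cast
    linarith

private theorem TSrs_step (n : ℕ) : (1 : ℝ) / (n + 2) * (500 / Real.sqrt (n + 2)) ≤
    1000 / Real.sqrt (n + 1) - 1000 / Real.sqrt (n + 2) := by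
  have hs : 0 < Real.sqrt ((n : ℝ) + 2) := Real.sqrt_pos.2 (by positivity)
  have ht : 0 < Real.sqrt ((n : ℝ) + 1) := Real.sqrt_pos.2 (by positivity)
  have hs2 : Real.sqrt ((n : ℝ) + 2) ^ 2 = n + 2 := Real.sq_sqrt (by positivity)
  have ht2 : Real.sqrt ((n : ℝ) + 1) ^ 2 = n + 1 := Real.sq_sqrt (by positivity)
  have hle : Real.sqrt ((n : ℝ) + 1) ≤ Real.sqrt ((n : ℝ) + 2) := Real.sqrt_le_sqrt (by linarith)
  set s := Real.sqrt ((n : ℝ) + 2) with hsd
  set t := Real.sqrt ((n : ℝ) + 1) with htd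
  have hd : (s - t) * (s + t) = 1 := by nlinarith
  have e1 : 1000 / t - 1000 / s = 1000 * (s - t) / (t * s) := by
    field_simp
  have e2 : (1 : ℝ) / (n + 2) * (500 / s) = 500 / (s ^ 2 * s) := by
    rw [hs2]
    field_simp
  rw [e1, e2, div_le_div_iff₀ (by positivity) (by positivity)]
  have h1 : t * s ≤ s * s := mul_le_mul_of_nonneg_right hle hs.le
  have h2 : 1 ≤ (s - t) * (2 * s) := by nlinarith
  nlinarith [mul_pos hs hs, mul_pos ht hs, mul_le_mul_of_nonneg_right h2 (mul_pos hs hs).le]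

private theorem TSrs_two (n : ℕ) :
    ∑ r ∈ range (n + 2), (if 1 ≤ r then (1 : ℝ) / r * (500 / Real.sqrt r) else 0) ≤
      1500 - 1000 / Real.sqrt (n + 1) := by
  induction n with
  | zero =>
    rw [Finset.sum_range_succ, Finset.sum_range_one]
    norm_num
  | succ n ih =>
    rw [Finset.sum_range_succ, if_pos (by omega)]
    have h := TSrs_step n
    push_cast at ih ⊢
    rw [show (n : ℝ) + 1 + 1 = n + 2 by ring]
    linarith

theorem rTSrs : S_TSrs := by
  intro m
  constructor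
  · cases m with
    | zero => norm_num
    | succ m =>
      have h := TSrs_one m
      have h1 : (0 : ℝ) ≤ 1 / (m + 1) := by positivity
      linarith
  · match m with
    | 0 => norm_num
    | 1 => norm_num
    | n + 2 =>
      have h := TSrs_two n
      have h1 : (0 : ℝ) ≤ 1000 / Real.sqrt (n + 1) := by positivity
      linarith

end Pool.Agent.MP3145b1.RT
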