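import Pool.Agent.Lib.MP_3145b1_co.RT.Spec

/-!
# MP_3145b1_co, project RT, module TStp: block inequality for one step
-/

set_option autoImplicit false

namespace Pool.Agent.MP3145b1.RT

open Finset Pool.Agent.MP3145b1 Pool.Agent.MP3145b1.RC Pool.Agent.MP3145b1.RD

private theorem TStp_val (q A θ y : ℝ) (hA : 0 < A) :
    gA q A (Hv θ) y = if y < θ - A then 0 else if y < θ then 1 - q else 1 := by
  unfold gA Hv
  by_cases h1 : y < θ - A
  · rw [if_neg (not_le.2 (by linarith) : ¬ θ ≤ y), if_neg (not_le.2 (by linarith) : ¬ θ ≤ y + A),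
      if_pos h1]
    ring
  · by_cases h2 : y < θ
    · rw [if_neg (not_le.2 h2), if_pos (by linarith : θ ≤ y + A), if_neg h1, if_pos h2]
      ring
    · rw [if_pos (not_lt.1 h2), if_pos (by linarith : θ ≤ y + A), if_neg h1, if_neg h2]
      ring

private theorem TStp_wn (A θ y : ℝ) :
    Wn θ A y = if y < θ - A then 0 else if y < θ then 1 else 0 := by
  unfold Wn
  by_cases h1 : y < θ - A
  · rw [if_pos h1, if_neg (fun h => absurd h.1 (not_le.2 h1))]
  · by_cases h2 : y < θ
    · rw [if_neg h1, if_pos h2, if_pos ⟨not_lt.1 h1, h2⟩]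
    · rw [if_neg h1, if_neg h2, if_neg (fun h => h2 h.2)]

private theorem TStp_sq (q A θ y : ℝ) (hA : 0 < A) (hq0 : 0 ≤ q) (hq1 : q ≤ 1) :
    gA q A (Hv θ) y ^ 2 ≤ Wn θ A y + Hv θ y := by
  rw [TStp_val q A θ y hA, TStp_wn]
  unfold Hv
  by_cases h1 : y < θ - A
  · rw [if_pos h1, if_pos h1, if_neg (not_le.2 (by linarith) : ¬ θ ≤ y)]
    norm_num
  · by_cases h2 : y < θ
    · rw [if_neg h1, if_pos h2, if_neg h1, if_pos h2, if_neg (not_le.2 h2)]
      nlinarith
    · rw [if_neg h1, if_neg h2, if_neg h1, if_neg h2, if_pos (not_lt.1 h2)]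
      norm_num

private theorem TStp_sq' (q A θ y : ℝ) (hA : 0 < A) (hq0 : 0 ≤ q) (hq1 : q ≤ 1) :
    (gA q A (Hv θ) y - 1) ^ 2 ≤ Wn θ A y + (if y < θ - A then 1 else 0) := by
  rw [TStp_val q A θ y hA, TStp_wn]
  by_cases h1 : y < θ - A
  · rw [if_pos h1, if_pos h1, if_pos h1]
    norm_num
  · by_cases h2 : y < θ
    · rw [if_neg h1, if_pos h2, if_neg h1, if_pos h2, if_neg h1]
      nlinarith
    · rw [if_neg h1, if_neg h2, if_neg h1, if_neg h2, if_neg h1]
      norm_num

/-- **TStp** (block inequality for one step) -/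
theorem rTStp (h1 : S_TPos) : S_TStp := by
  intro a p B θ A q z hA hBd hAb hq0 hq1
  have hp := hBd.2
  rcases hAb with hc | hv
  · obtain ⟨i, rfl⟩ := Finset.card_eq_one.1 hc
    have e : ∀ (F : ℝ → ℝ) (w : ℝ), Av a p {i} F w = p i * F w + (1 - p i) * F (w + a i) := by
      intro F w
      have := Av_insert a p ∅ i (Finset.notMem_empty i) F w
      rw [Av_empty, Av_empty] at this
      exact this
    have hi : i ∈ ({i} : Finset ℕ) := Finset.mem_singleton_self i
    have ha0 : 0 ≤ a i := (hBd.1 i hi).1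
    have haA : a i ≤ A := (hBd.1 i hi).2
    have hp0 : 0 ≤ p i := (hp i).1
    have hp1 : p i ≤ 1 := (hp i).2
    rw [e, e, e]
    have hvar : ∀ x y : ℝ, p i * x ^ 2 + (1 - p i) * y ^ 2 - (p i * x + (1 - p i) * y) ^ 2 =
        p i * (1 - p i) * (x - y) ^ 2 := by
      intro x y; ring
    rw [hvar, TStp_val q A θ z hA, TStp_val q A θ (z + a i) hA, TStp_wn, TStp_wn]
    have hpp : p i * (1 - p i) ≤ p i := by nlinarith
    have hpp' : p i * (1 - p i) ≤ 1 - p i := by nlinarith
    have hpp0 : 0 ≤ p i * (1 - p i) := mul_nonneg hp0 (by linarith)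
    by_cases h1 : z < θ - A
    · rw [if_pos h1, if_pos h1]
      by_cases h2 : z + a i < θ - A
      · rw [if_pos h2, if_pos h2]
        norm_num
      · rw [if_neg h2, if_neg h2, if_pos (by linarith : z + a i < θ),
          if_pos (by linarith : z + a i < θ)]
        have : (0 - (1 - q)) ^ 2 ≤ 1 := by nlinarith
        nlinarith
    · by_cases h2 : z < θ
      · rw [if_neg h1, if_pos h2, if_neg h1, if_pos h2,
          if_neg (not_lt.2 (by linarith) : ¬ z + a i < θ - A),
          if_neg (not_lt.2 (by linarith) : ¬ z + a i < θ - A)]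
        by_cases h3 : z + a i < θ
        · rw [if_pos h3, if_pos h3]
          nlinarith
        · rw [if_neg h3, if_neg h3]
          have : (1 - q - 1) ^ 2 ≤ 1 := by nlinarith
          nlinarith
      · rw [if_neg h1, if_neg h2, if_neg h1, if_neg h2,
          if_neg (not_lt.2 (by linarith) : ¬ z + a i < θ - A),
          if_neg (not_lt.2 (by linarith) : ¬ z + a i < θ - A),
          if_neg (not_lt.2 (by linarith) : ¬ z + a i < θ),
          if_neg (not_lt.2 (by linarith) : ¬ z + a i < θ)]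
        norm_num
  · obtain ⟨P1, P2⟩ := h1 a p B θ A z hA hBd hv
    by_cases hm : z + mn a p B < θ - A / 2
    · have e1 := P1 hm
      have e2 : Av a p B (fun y => gA q A (Hv θ) y ^ 2) z ≤
          Av a p B (fun y => Wn θ A y + Hv θ y) z :=
        Av_mono a hp B (fun y => TStp_sq q A θ y hA hq0 hq1) z
      rw [Av_add a p B (Wn θ A) (Hv θ) z] at e2
      have e3 := sq_nonneg (Av a p B (gA q A (Hv θ)) z)
      linarith
    · have e1 := P2 (not_lt.1 hm)
      have e2 := Av_var_le a p B (gA q A (Hv θ)) 1 z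
      have e3 : Av a p B (fun y => (gA q A (Hv θ) y - 1) ^ 2) z ≤
          Av a p B (fun y => Wn θ A y + (if y < θ - A then 1 else 0)) z :=
        Av_mono a hp B (fun y => TStp_sq' q A θ y hA hq0 hq1) z
      rw [Av_add a p B (Wn θ A) (fun y => if y < θ - A then 1 else 0) z] at e3
      linarith

end Pool.Agent.MP3145b1.RT
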