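import Pool.Agent.Lib.MP_3145b1_co.RT.Spec

/-!
# TSym: symmetric gates
-/

set_option autoImplicit false

namespace Pool.Agent.MP3145b1.RT

open Finset Pool.Agent.MP3145b1 Pool.Agent.MP3145b1.RC Pool.Agent.MP3145b1.RD

private theorem TSym_empty (a p : ℕ → ℝ) (F : ℝ → ℝ) (hF : ∀ y, F y = 1 ∨ F y = -1) : SH a p F ∅ := by
  intro K _ z
  have hc : Co a p ∅ ∅ F z ^ 2 = 1 := by
    rw [Co_empty, Av_empty]
    rcases hF z with h | h <;> rw [h] <;> norm_num
  have hw : wt p ∅ = 1 := by simp [wt]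
  rw [Finset.powerset_empty, Finset.sum_singleton, Finset.sum_singleton, hc, hw, Finset.card_empty]
  norm_num

/-- **TSym** (symmetric gates). -/
theorem rTSym (h1 : S_TBlS) (h2 : S_TSmS) (h3 : S_TNod) (h4 : S_TTel) : S_TSym := by
  intro a p J F ha hp hF
  induction J using Finset.induction_on with
  | empty => exact TSym_empty a p F hF
  | insert t J ht ih =>
    have haJ : ∀ i ∈ J, a i = 1 := fun i hi => ha i (Finset.mem_insert_of_mem hi)
    have hat : a t = 1 := ha t (Finset.mem_insert_self _ _)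
    have hBd : Bd a p J 1 := ⟨fun i hi => by rw [haJ i hi]; norm_num, hp⟩
    refine h4 a p J t F ht hp hF ?_ (ih haJ)
    rw [hat]
    exact h3 a p J 1 (p t) F one_pos hBd (hp t).1 (hp t).2 hF
      (fun B hB hAb z => h1 a p B F (p t) z (hBd.mono hB) (fun i hi => haJ i (hB hi)) hAb (hp t).1 (hp t).2 hF)
      (fun G hG r hr hv z => h2 a p G F z r (hBd.mono hG) (fun i hi => haJ i (hG hi)) hF hr hv)

end Pool.Agent.MP3145b1.RT
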