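import Pool.Agent.Lib.MP_3145b1_co.RT.Spec

/-!
# MP_3145b1_co, project RT: one more variable
-/

set_option autoImplicit false

namespace Pool.Agent.MP3145b1.RT

open Finset Pool.Agent.MP3145b1 Pool.Agent.MP3145b1.RC Pool.Agent.MP3145b1.RD

private theorem TTel_hh (x : ℝ) : hh (x ^ 2) ≤ 2 * (|x| - x ^ 2) := by
  by_cases hx : x = 0
  · subst hx
    simp [hh, Real.negMulLog]
  · have hp : 0 < |x| := abs_pos.2 hx
    have h1 : Real.log (|x|⁻¹) ≤ |x|⁻¹ - 1 := Real.log_le_sub_one_of_pos (inv_pos.2 hp)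
    rw [Real.log_inv] at h1
    have h2 : Real.log (x ^ 2) = 2 * Real.log |x| := by
      rw [← sq_abs, Real.log_pow]; norm_num
    have h3 : x ^ 2 * |x|⁻¹ = |x| := by
      rw [← sq_abs, sq, mul_assoc, mul_inv_cancel₀ hp.ne', mul_one]
    have h4 := mul_le_mul_of_nonneg_left h1 (sq_nonneg x)
    rw [mul_sub, h3, mul_one] at h4
    unfold hh Real.negMulLog
    rw [h2]
    linarith [h4]

private theorem TTel_hA_val (A : ℝ) (F : ℝ → ℝ) (hF : ∀ y, F y = 1 ∨ F y = -1) (y : ℝ) :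
    hA A F y ≤ hA A F y ^ 2 ∧ -1 * hA A F y ≤ hA A F y ^ 2 := by
  unfold hA
  rcases hF y with h | h <;> rcases hF (y + A) with h' | h' <;> rw [h, h'] <;> norm_num

private theorem TTel_abs (a : ℕ → ℝ) {p : ℕ → ℝ} (hp : ∀ i, 0 ≤ p i ∧ p i ≤ 1) (J : Finset ℕ) (A : ℝ)
    (F : ℝ → ℝ) (hF : ∀ y, F y = 1 ∨ F y = -1) (z : ℝ) :
    |Av a p J (hA A F) z| ≤ Av a p J (fun y => hA A F y ^ 2) z := by
  rw [abs_le]
  constructor
  · have h := Av_mono a hp J (F := fun y => -1 * hA A F y) (G := fun y => hA A F y ^ 2)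
      (fun y => (TTel_hA_val A F hF y).2) z
    rw [Av_mul a p J (-1) (hA A F) z] at h
    linarith
  · exact Av_mono a hp J (fun y => (TTel_hA_val A F hF y).1) z

theorem rTTel (h1 : S_TPar) (h2 : S_GTw) : S_TTel := by
  intro a p J t F ht hp hF hND hSH K hK z
  have hP0 : 0 ≤ p t := (hp t).1
  have hP1 : p t ≤ 1 := (hp t).2
  obtain ⟨P, hP⟩ : ∃ P : ℝ, P = p t := ⟨_, rfl⟩
  obtain ⟨A, hA'⟩ : ∃ A : ℝ, A = a t := ⟨_, rfl⟩
  rw [← hP] at hP0 hP1
  have hv : 0 ≤ P * (1 - P) := mul_nonneg hP0 (by linarith)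
  obtain ⟨c0, hc0⟩ : ∃ c : Finset ℕ → ℝ, ∀ T, Co a p J T F z = c T := ⟨_, fun _ => rfl⟩
  obtain ⟨c1, hc1⟩ : ∃ c : Finset ℕ → ℝ, ∀ T, Co a p J T F (z + A) = c T := ⟨_, fun _ => rfl⟩
  have hU : ∀ T, Co a p J T (gA P A F) z = P * c0 T + (1 - P) * c1 T := fun T => by
    rw [Co_gA, hc0, hc1]
  have hO : ∀ T, Co a p J T (hA A F) z = (c0 T - c1 T) / 2 := fun T => by
    rw [Co_hA, hc0, hc1]
  have hN : ∀ T ∈ J.powerset, Co a p (insert t J) T F z = P * c0 T + (1 - P) * c1 T := fun T hT => by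
    rw [Co_insert_not a p J T t ht (Finset.mem_powerset.1 hT), ← hP, ← hA', hc0, hc1]
  have hM : ∀ T ∈ J.powerset, Co a p (insert t J) (insert t T) F z = (c0 T - c1 T) / 2 := fun T hT => by
    rw [Co_insert_mem a p J T t ht (Finset.mem_powerset.1 hT), ← hA', hc0, hc1]
  have htT : ∀ T ∈ J.powerset, t ∉ T := fun T hT h => ht (Finset.mem_powerset.1 hT h)
  have hwt0 : wt p ∅ = 1 := by unfold wt; simp
  have hemp : (∅ : Finset ℕ) ∈ J.powerset := Finset.empty_mem_powerset J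
  -- the node inequality
  have hnd : ∑ T ∈ J.powerset.erase ∅, wt p T * (((c0 T - c1 T) / 2) ^ 2 *
      (1 + lg |P * c0 T + (1 - P) * c1 T| (2 * ((c0 T - c1 T) / 2)))) ≤
      4000 * ∑ T ∈ J.powerset.erase ∅, wt p T * ((c0 T - c1 T) / 2) ^ 2 := by
    have h := hND z
    rw [← hP, ← hA'] at h
    simp only [hU, hO] at h
    exact h
  -- the induction hypothesis
  have hs0 : ∑ T ∈ J.powerset.erase ∅, wt p T * hh (c0 T ^ 2) ≤
      K * (∑ T ∈ J.powerset, (T.card : ℝ) * (wt p T * c0 T ^ 2) - (1 - c0 ∅ ^ 2)) := by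
    have h := hSH K hK z
    simp only [hc0] at h
    rw [← Finset.add_sum_erase J.powerset (fun T => wt p T * hh (c0 T ^ 2)) hemp] at h
    simp only [hwt0, one_mul] at h
    linarith
  have hs1 : ∑ T ∈ J.powerset.erase ∅, wt p T * hh (c1 T ^ 2) ≤
      K * (∑ T ∈ J.powerset, (T.card : ℝ) * (wt p T * c1 T ^ 2) - (1 - c1 ∅ ^ 2)) := by
    have h := hSH K hK (z + A)
    simp only [hc1] at h
    rw [← Finset.add_sum_erase J.powerset (fun T => wt p T * hh (c1 T ^ 2)) hemp] at h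
    simp only [hwt0, one_mul] at h
    linarith
  -- Parseval and the first coefficient
  have hW : |(c0 ∅ - c1 ∅) / 2| ≤ ∑ T ∈ J.powerset, wt p T * ((c0 T - c1 T) / 2) ^ 2 := by
    have h := (h1 a p J ∅ (hA A F) z (Finset.empty_subset J)).1
    simp only [hO] at h
    rw [h, ← hO ∅, Co_empty]
    exact TTel_abs a hp J A F hF z
  have hWX : ∑ T ∈ J.powerset, wt p T * ((c0 T - c1 T) / 2) ^ 2 =
      ((c0 ∅ - c1 ∅) / 2) ^ 2 + ∑ T ∈ J.powerset.erase ∅, wt p T * ((c0 T - c1 T) / 2) ^ 2 := by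
    rw [← Finset.add_sum_erase J.powerset (fun T => wt p T * ((c0 T - c1 T) / 2) ^ 2) hemp]
    simp only [hwt0, one_mul]
  -- the terms with nonempty T
  have hterm : ∑ T ∈ J.powerset.erase ∅, wt p T * (hh ((P * c0 T + (1 - P) * c1 T) ^ 2) +
      4 * (P * (1 - P)) * hh (((c0 T - c1 T) / 2) ^ 2)) ≤
      28 * (P * (1 - P)) * (∑ T ∈ J.powerset.erase ∅, wt p T * (((c0 T - c1 T) / 2) ^ 2 *
        (1 + lg |P * c0 T + (1 - P) * c1 T| (2 * ((c0 T - c1 T) / 2))))) +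
      P * (∑ T ∈ J.powerset.erase ∅, wt p T * hh (c0 T ^ 2)) +
      (1 - P) * (∑ T ∈ J.powerset.erase ∅, wt p T * hh (c1 T ^ 2)) := by
    rw [Finset.mul_sum, Finset.mul_sum, Finset.mul_sum, ← Finset.sum_add_distrib, ← Finset.sum_add_distrib]
    refine Finset.sum_le_sum fun T _ => ?_
    have h := h2 P (c0 T) (c1 T) hP0 hP1
    have hw : 0 ≤ wt p T := wt_nonneg hp T
    have h' := mul_le_mul_of_nonneg_left h hw
    rw [show (2 : ℝ) * ((c0 T - c1 T) / 2) = c0 T - c1 T by ring]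
    unfold dlp at h'
    linarith [h']
  have hX : 0 ≤ ∑ T ∈ J.powerset.erase ∅, wt p T * ((c0 T - c1 T) / 2) ^ 2 :=
    Finset.sum_nonneg fun T _ => mul_nonneg (wt_nonneg hp T) (sq_nonneg _)
  -- the energy
  have hen : ∑ T ∈ J.powerset, (T.card : ℝ) * (wt p T * (P * c0 T + (1 - P) * c1 T) ^ 2) +
      ∑ T ∈ J.powerset, ((T.card : ℝ) + 1) * (4 * (P * (1 - P)) * wt p T * ((c0 T - c1 T) / 2) ^ 2) =
      P * (∑ T ∈ J.powerset, (T.card : ℝ) * (wt p T * c0 T ^ 2)) +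
      (1 - P) * (∑ T ∈ J.powerset, (T.card : ℝ) * (wt p T * c1 T ^ 2)) +
      4 * (P * (1 - P)) * ∑ T ∈ J.powerset, wt p T * ((c0 T - c1 T) / 2) ^ 2 := by
    rw [Finset.mul_sum, Finset.mul_sum, Finset.mul_sum, ← Finset.sum_add_distrib, ← Finset.sum_add_distrib,
      ← Finset.sum_add_distrib]
    exact Finset.sum_congr rfl fun T _ => by ring
  rw [Finset.sum_powerset_insert ht, Finset.sum_powerset_insert ht]
  have e1 : ∑ T ∈ J.powerset, wt p T * hh (Co a p (insert t J) T F z ^ 2) +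
      ∑ T ∈ J.powerset, wt p (insert t T) * hh (Co a p (insert t J) (insert t T) F z ^ 2) =
      hh ((P * c0 ∅ + (1 - P) * c1 ∅) ^ 2) + 4 * (P * (1 - P)) * hh (((c0 ∅ - c1 ∅) / 2) ^ 2) +
      ∑ T ∈ J.powerset.erase ∅, wt p T * (hh ((P * c0 T + (1 - P) * c1 T) ^ 2) +
      4 * (P * (1 - P)) * hh (((c0 T - c1 T) / 2) ^ 2)) := by
    rw [← Finset.sum_add_distrib]
    have e : ∑ T ∈ J.powerset, (wt p T * hh (Co a p (insert t J) T F z ^ 2) +
        wt p (insert t T) * hh (Co a p (insert t J) (insert t T) F z ^ 2)) =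
        ∑ T ∈ J.powerset, wt p T * (hh ((P * c0 T + (1 - P) * c1 T) ^ 2) +
        4 * (P * (1 - P)) * hh (((c0 T - c1 T) / 2) ^ 2)) := by
      refine Finset.sum_congr rfl fun T hT => ?_
      rw [hN T hT, hM T hT, wt_insert p T t (htT T hT), ← hP]
      ring
    rw [e, ← Finset.add_sum_erase J.powerset (fun T => wt p T * (hh ((P * c0 T + (1 - P) * c1 T) ^ 2) +
      4 * (P * (1 - P)) * hh (((c0 T - c1 T) / 2) ^ 2))) hemp]
    simp only [hwt0, one_mul]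
  have e2 : ∑ T ∈ J.powerset, (T.card : ℝ) * (wt p T * Co a p (insert t J) T F z ^ 2) =
      ∑ T ∈ J.powerset, (T.card : ℝ) * (wt p T * (P * c0 T + (1 - P) * c1 T) ^ 2) :=
    Finset.sum_congr rfl fun T hT => by rw [hN T hT]
  have e3 : ∑ T ∈ J.powerset, ((insert t T).card : ℝ) *
        (wt p (insert t T) * Co a p (insert t J) (insert t T) F z ^ 2) =
      ∑ T ∈ J.powerset, ((T.card : ℝ) + 1) * (4 * (P * (1 - P)) * wt p T * ((c0 T - c1 T) / 2) ^ 2) :=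
    Finset.sum_congr rfl fun T hT => by
      rw [hM T hT, wt_insert p T t (htT T hT), ← hP, Finset.card_insert_of_notMem (htT T hT)]
      push_cast
      ring
  rw [e1, e2, e3, hen, hN ∅ hemp]
  have hh0 := TTel_hh ((c0 ∅ - c1 ∅) / 2)
  -- products
  generalize (∑ T ∈ J.powerset.erase ∅, wt p T * (hh ((P * c0 T + (1 - P) * c1 T) ^ 2) +
      4 * (P * (1 - P)) * hh (((c0 T - c1 T) / 2) ^ 2))) = SU at *
  generalize (∑ T ∈ J.powerset.erase ∅, wt p T * (((c0 T - c1 T) / 2) ^ 2 *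
      (1 + lg |P * c0 T + (1 - P) * c1 T| (2 * ((c0 T - c1 T) / 2))))) = L at *
  generalize (∑ T ∈ J.powerset.erase ∅, wt p T * ((c0 T - c1 T) / 2) ^ 2) = X at *
  generalize (∑ T ∈ J.powerset, wt p T * ((c0 T - c1 T) / 2) ^ 2) = W at *
  generalize (∑ T ∈ J.powerset.erase ∅, wt p T * hh (c0 T ^ 2)) = H0 at *
  generalize (∑ T ∈ J.powerset.erase ∅, wt p T * hh (c1 T ^ 2)) = H1 at *
  generalize (∑ T ∈ J.powerset, (T.card : ℝ) * (wt p T * c0 T ^ 2)) = Q0 at *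
  generalize (∑ T ∈ J.powerset, (T.card : ℝ) * (wt p T * c1 T ^ 2)) = Q1 at *
  generalize |(c0 ∅ - c1 ∅) / 2| = O at *
  generalize hh (((c0 ∅ - c1 ∅) / 2) ^ 2) = HO at *
  generalize hh ((P * c0 ∅ + (1 - P) * c1 ∅) ^ 2) = HU at *
  have m1 := mul_le_mul_of_nonneg_left hnd hv
  have m2 := mul_le_mul_of_nonneg_left hs0 hP0
  have m3 := mul_le_mul_of_nonneg_left hs1 (sub_nonneg.2 hP1)
  have m4 := mul_le_mul_of_nonneg_left hh0 hv
  have m5 := mul_le_mul_of_nonneg_left hW hv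
  have m6 := mul_nonneg (mul_nonneg hv hX) (sub_nonneg.2 hK)
  have m7 := mul_nonneg hv hX
  subst hWX
  linarith [m1, m2, m3, m4, m5, m6, m7, hterm]

end Pool.Agent.MP3145b1.RT
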