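import Pool.Agent.Lib.MP_3145b1_co.RD.Asm
import Pool.Agent.Lib.MP_3145b1_co.RT.TPar
import Pool.Agent.Lib.MP_3145b1_co.RT.TChb
import Pool.Agent.Lib.MP_3145b1_co.RT.TPos
import Pool.Agent.Lib.MP_3145b1_co.RT.TStp
import Pool.Agent.Lib.MP_3145b1_co.RT.TBlI
import Pool.Agent.Lib.MP_3145b1_co.RT.TChf
import Pool.Agent.Lib.MP_3145b1_co.RT.TEsn
import Pool.Agent.Lib.MP_3145b1_co.RT.TSmI
import Pool.Agent.Lib.MP_3145b1_co.RT.TBlS
import Pool.Agent.Lib.MP_3145b1_co.RT.TSmS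
import Pool.Agent.Lib.MP_3145b1_co.RT.TGrp
import Pool.Agent.Lib.MP_3145b1_co.RT.TPtw
import Pool.Agent.Lib.MP_3145b1_co.RT.TSrs
import Pool.Agent.Lib.MP_3145b1_co.RT.TBig
import Pool.Agent.Lib.MP_3145b1_co.RT.TSml
import Pool.Agent.Lib.MP_3145b1_co.RT.TNod
import Pool.Agent.Lib.MP_3145b1_co.RT.TTel
import Pool.Agent.Lib.MP_3145b1_co.RT.TLin
import Pool.Agent.Lib.MP_3145b1_co.RT.TSym
import Pool.Agent.Lib.MP_3145b1_co.RT.TCfo
import Pool.Agent.Lib.MP_3145b1_co.RT.TFml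
import Pool.Agent.Lib.MP_3145b1_co.RT.TCmp
import Pool.Agent.Lib.MP_3145b1_co.RT.TGth
import Pool.Agent.Lib.MP_3145b1_co.RT.TGsy
import Pool.Agent.Lib.MP_3145b1_co.RT.TPrg
import Pool.Agent.Lib.MP_3145b1_co.RT.TFin

/-!
# MP_3145b1_co, project RT: assembly
-/

set_option autoImplicit false

namespace Pool.Agent.MP3145b1.RT

open Finset Pool.Agent.MP3145b1 Pool.Agent.MP3145b1.RC Pool.Agent.MP3145b1.RD

theorem tPos : S_TPos := rTPos rTChb

theorem tStp : S_TStp := rTStp tPos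

theorem tBlI : S_TBlI := rTBlI tStp

theorem tEsn : S_TEsn := rTEsn rTChf

theorem tSmI : S_TSmI := rTSmI tEsn

theorem tBlS : S_TBlS := rTBlS tPos

theorem tSmS : S_TSmS := rTSmS rTPar

theorem tSml : S_TSml := rTSml rTPar rTGrp rTPtw rTSrs

theorem tNod : S_TNod := rTNod rTPar rTBig tSml

theorem tTel : S_TTel := rTTel rTPar (rGTw rMTg)

theorem tLin : S_TLin := rTLin tBlI tSmI tNod tTel

theorem tSym : S_TSym := rTSym tBlS tSmS tNod tTel

theorem tCfo : S_TCfo := rTCfo rPrd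

theorem tFml : S_TFml := rTFml rSmm aVsm rHpr

theorem tCmp : S_TCmp := rTCmp aVsm tFml

theorem tGth : S_TGth := rTGth tLin tCfo tCmp

theorem tGsy : S_TGsy := rTGsy tSym tCfo tCmp

theorem tPrg : S_TPrg := rTPrg aCmp rFix

/-- the entropy-influence inequality for read-once compositions of branching programs of width `w`,
threshold gates and symmetric gates -/
theorem fin : ∃ C : ℝ, 0 < C ∧ ∀ w : ℕ, 1 ≤ w → ∀ (N : ℕ) (f : (Fin N → Bool) → ℝ), RG w f →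
    ∑ S ∈ (univ : Finset (Finset (Fin N))).erase ∅, coeff f S ^ 2 * Real.logb 2 (1 / coeff f S ^ 2) ≤
      C * w * (influence f - (1 - coeff f ∅ ^ 2)) ∧
    specEntropy f ≤ C * w * influence f ∧
    ∃ S : Finset (Fin N), (2 : ℝ) ^ (-(C * w * influence f / 2)) ≤ |coeff f S| :=
  rTFin gVar gPg tGth tGsy tPrg

end Pool.Agent.MP3145b1.RT
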