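import Pool.Agent.Lib.MP_3145b1_co.RD.Spec

/-!
# MP_3145b1_co, project RT: threshold gates and symmetric gates

Definitions and basic lemmas. The variables are natural numbers; the bit `i` is `false` with
probability `p i` and `true` with probability `1 - p i`, and a true bit adds `a i` to the sum. `F : ℝ → ℝ`
is a function of the sum. All operators `Av`, `Df`, `Co` commute with each other and with translations.
-/

set_option autoImplicit false

namespace Pool.Agent.MP3145b1.RT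

open Finset Pool.Agent.MP3145b1 Pool.Agent.MP3145b1.RC Pool.Agent.MP3145b1.RD

/-- expectation of `F (z + sum over the true bits of B)` -/
noncomputable def Av (a p : ℕ → ℝ) (B : Finset ℕ) (F : ℝ → ℝ) (z : ℝ) : ℝ :=
  ∑ S ∈ B.powerset, (∏ i ∈ S, (1 - p i)) * (∏ i ∈ B \ S, p i) * F (z + ∑ i ∈ S, a i)

/-- iterated half difference -/
noncomputable def Df (a : ℕ → ℝ) (T : Finset ℕ) (F : ℝ → ℝ) (z : ℝ) : ℝ :=
  ∑ S ∈ T.powerset, (-1) ^ S.card / 2 ^ T.card * F (z + ∑ i ∈ S, a i)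

/-- coefficient at `T` of the function `F (z + sum over the true bits of J)` (`T ⊆ J`) -/
noncomputable def Co (a p : ℕ → ℝ) (J T : Finset ℕ) (F : ℝ → ℝ) (z : ℝ) : ℝ :=
  Av a p (J \ T) (Df a T F) z

/-- mean of the sum over `B` -/
noncomputable def mn (a p : ℕ → ℝ) (B : Finset ℕ) : ℝ := ∑ i ∈ B, (1 - p i) * a i

/-- variance of the sum over `B` -/
noncomputable def vr (a p : ℕ → ℝ) (B : Finset ℕ) : ℝ := ∑ i ∈ B, p i * (1 - p i) * a i ^ 2

/-- the weights of the variables of `B` are in `[0, A]` and the probabilities in `[0, 1]` -/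
def Bd (a p : ℕ → ℝ) (B : Finset ℕ) (A : ℝ) : Prop :=
  (∀ i ∈ B, 0 ≤ a i ∧ a i ≤ A) ∧ ∀ i, 0 ≤ p i ∧ p i ≤ 1

/-- the window `[θ - A, θ)` -/
noncomputable def Wn (θ A : ℝ) (y : ℝ) : ℝ := if θ - A ≤ y ∧ y < θ then 1 else 0

/-- the interval gate: `-1` on `[θ1, θ2)`, otherwise `1` -/
noncomputable def Og (θ1 θ2 : ℝ) (y : ℝ) : ℝ := if θ1 ≤ y ∧ y < θ2 then -1 else 1

/-- the function after averaging over a bit with jump `A` and probability `q` of `false` -/
noncomputable def gA (q A : ℝ) (F : ℝ → ℝ) (y : ℝ) : ℝ := q * F y + (1 - q) * F (y + A)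

/-- the half difference with jump `A` -/
noncomputable def hA (A : ℝ) (F : ℝ → ℝ) (y : ℝ) : ℝ := (F y - F (y + A)) / 2

/-- admissible block: one variable, or variance at most `A^2/64` -/
def Ab (a p : ℕ → ℝ) (B : Finset ℕ) (A : ℝ) : Prop := B.card = 1 ∨ vr a p B ≤ A ^ 2 / 64

/-! ### Averages -/

theorem Av_empty (a p : ℕ → ℝ) (F : ℝ → ℝ) (z : ℝ) : Av a p ∅ F z = F z := by
  simp [Av]

theorem Av_insert (a p : ℕ → ℝ) (B : Finset ℕ) (i : ℕ) (hi : i ∉ B) (F : ℝ → ℝ) (z : ℝ) :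
    Av a p (insert i B) F z = p i * Av a p B F z + (1 - p i) * Av a p B F (z + a i) := by
  unfold Av
  rw [Finset.sum_powerset_insert hi, Finset.mul_sum, Finset.mul_sum]
  congr 1
  · refine Finset.sum_congr rfl fun S hS => ?_
    have hS' : S ⊆ B := Finset.mem_powerset.1 hS
    have hiS : i ∉ S := fun h => hi (hS' h)
    rw [Finset.insert_sdiff_of_notMem _ hiS, Finset.prod_insert (fun h => hi (Finset.mem_sdiff.1 h).1)]
    ring
  · refine Finset.sum_congr rfl fun S hS => ?_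
    have hS' : S ⊆ B := Finset.mem_powerset.1 hS
    have hiS : i ∉ S := fun h => hi (hS' h)
    have e : insert i B \ insert i S = B \ S := by
      ext j
      simp only [Finset.mem_sdiff, Finset.mem_insert]
      constructor
      · rintro ⟨h1 | h1, h2⟩
        · exact absurd (Or.inl h1) h2
        · exact ⟨h1, fun h => h2 (Or.inr h)⟩
      · rintro ⟨h1, h2⟩
        refine ⟨Or.inr h1, ?_⟩
        rintro (h | h)
        · exact hi (h ▸ h1)
        · exact h2 h
    rw [Finset.prod_insert hiS, Finset.sum_insert hiS, e]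
    rw [show z + (a i + ∑ j ∈ S, a j) = z + a i + ∑ j ∈ S, a j by ring]
    ring

theorem Av_add (a p : ℕ → ℝ) (B : Finset ℕ) (F G : ℝ → ℝ) (z : ℝ) :
    Av a p B (fun y => F y + G y) z = Av a p B F z + Av a p B G z := by
  unfold Av
  rw [← Finset.sum_add_distrib]
  exact Finset.sum_congr rfl fun S _ => by ring

theorem Av_sub (a p : ℕ → ℝ) (B : Finset ℕ) (F G : ℝ → ℝ) (z : ℝ) :
    Av a p B (fun y => F y - G y) z = Av a p B F z - Av a p B G z := by
  unfold Av
  rw [← Finset.sum_sub_distrib]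
  exact Finset.sum_congr rfl fun S _ => by ring

theorem Av_mul (a p : ℕ → ℝ) (B : Finset ℕ) (c : ℝ) (F : ℝ → ℝ) (z : ℝ) :
    Av a p B (fun y => c * F y) z = c * Av a p B F z := by
  unfold Av
  rw [Finset.mul_sum]
  exact Finset.sum_congr rfl fun S _ => by ring

theorem Av_sum {ι : Type} (a p : ℕ → ℝ) (B : Finset ℕ) (I : Finset ι) (F : ι → ℝ → ℝ) (z : ℝ) :
    Av a p B (fun y => ∑ j ∈ I, F j y) z = ∑ j ∈ I, Av a p B (F j) z := by
  unfold Av
  rw [Finset.sum_comm]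
  exact Finset.sum_congr rfl fun S _ => by rw [Finset.mul_sum]

theorem Av_const (a p : ℕ → ℝ) (B : Finset ℕ) (c : ℝ) (z : ℝ) : Av a p B (fun _ => c) z = c := by
  induction B using Finset.induction_on generalizing z with
  | empty => rw [Av_empty]
  | insert i B hi ih => rw [Av_insert _ _ _ _ hi, ih, ih]; ring

theorem Av_shift (a p : ℕ → ℝ) (B : Finset ℕ) (F : ℝ → ℝ) (c z : ℝ) :
    Av a p B (fun y => F (y + c)) z = Av a p B F (z + c) := by
  unfold Av
  exact Finset.sum_congr rfl fun S _ => by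
    dsimp only
    rw [show z + ∑ i ∈ S, a i + c = z + c + ∑ i ∈ S, a i by ring]

theorem Av_mono (a : ℕ → ℝ) {p : ℕ → ℝ} (hp : ∀ i, 0 ≤ p i ∧ p i ≤ 1) (B : Finset ℕ) {F G : ℝ → ℝ}
    (h : ∀ y, F y ≤ G y) (z : ℝ) : Av a p B F z ≤ Av a p B G z := by
  unfold Av
  refine Finset.sum_le_sum fun S _ => mul_le_mul_of_nonneg_left (h _) (mul_nonneg ?_ ?_)
  · exact Finset.prod_nonneg fun i _ => by linarith [(hp i).2]
  · exact Finset.prod_nonneg fun i _ => (hp i).1

theorem Av_nonneg (a : ℕ → ℝ) {p : ℕ → ℝ} (hp : ∀ i, 0 ≤ p i ∧ p i ≤ 1) (B : Finset ℕ) {F : ℝ → ℝ}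
    (h : ∀ y, 0 ≤ F y) (z : ℝ) : 0 ≤ Av a p B F z := by
  have := Av_mono a hp B (F := fun _ => 0) (G := F) h z
  rwa [Av_const] at this

theorem Av_le_const (a : ℕ → ℝ) {p : ℕ → ℝ} (hp : ∀ i, 0 ≤ p i ∧ p i ≤ 1) (B : Finset ℕ) {F : ℝ → ℝ}
    {c : ℝ} (h : ∀ y, F y ≤ c) (z : ℝ) : Av a p B F z ≤ c := by
  have := Av_mono a hp B (F := F) (G := fun _ => c) h z
  rwa [Av_const] at this

theorem Av_congr (a p : ℕ → ℝ) (B : Finset ℕ) {F G : ℝ → ℝ} (h : ∀ y, F y = G y) (z : ℝ) :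
    Av a p B F z = Av a p B G z := by
  rw [show F = G from funext h]

/-- only the values `F (z + sum over S)`, `S ⊆ B`, matter -/
theorem Av_mono_on (a : ℕ → ℝ) {p : ℕ → ℝ} (hp : ∀ i, 0 ≤ p i ∧ p i ≤ 1) (B : Finset ℕ) {F G : ℝ → ℝ}
    (z : ℝ) (h : ∀ S, S ⊆ B → F (z + ∑ i ∈ S, a i) ≤ G (z + ∑ i ∈ S, a i)) : Av a p B F z ≤ Av a p B G z := by
  unfold Av
  refine Finset.sum_le_sum fun S hS =>
    mul_le_mul_of_nonneg_left (h S (Finset.mem_powerset.1 hS)) (mul_nonneg ?_ ?_)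
  · exact Finset.prod_nonneg fun i _ => by linarith [(hp i).2]
  · exact Finset.prod_nonneg fun i _ => (hp i).1

/-- the variance of `F` is nonnegative -/
theorem Av_var_nonneg (a : ℕ → ℝ) {p : ℕ → ℝ} (hp : ∀ i, 0 ≤ p i ∧ p i ≤ 1) (B : Finset ℕ) (F : ℝ → ℝ) (z : ℝ) :
    Av a p B F z ^ 2 ≤ Av a p B (fun y => F y ^ 2) z := by
  have h := Av_nonneg a hp B (F := fun y => (F y - Av a p B F z) ^ 2) (fun y => sq_nonneg _) z
  have e : Av a p B (fun y => (F y - Av a p B F z) ^ 2) z =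
      Av a p B (fun y => F y ^ 2) z - Av a p B F z ^ 2 := by
    have e1 : (fun y => (F y - Av a p B F z) ^ 2) = fun y => F y ^ 2 - (2 * Av a p B F z * F y -
        Av a p B F z ^ 2) := by funext y; ring
    rw [e1, Av_sub a p B (fun y => F y ^ 2) (fun y => 2 * Av a p B F z * F y - Av a p B F z ^ 2),
      Av_sub a p B (fun y => 2 * Av a p B F z * F y) (fun _ => Av a p B F z ^ 2), Av_mul, Av_const]
    ring
  rw [e] at h
  linarith

/-- the variance of `F` is at most the second moment of `F - c` -/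
theorem Av_var_le (a p : ℕ → ℝ) (B : Finset ℕ) (F : ℝ → ℝ) (c z : ℝ) :
    Av a p B (fun y => F y ^ 2) z - Av a p B F z ^ 2 ≤ Av a p B (fun y => (F y - c) ^ 2) z := by
  have e1 : (fun y => (F y - c) ^ 2) = fun y => F y ^ 2 - (2 * c * F y - c ^ 2) := by funext y; ring
  rw [e1, Av_sub a p B (fun y => F y ^ 2) (fun y => 2 * c * F y - c ^ 2),
    Av_sub a p B (fun y => 2 * c * F y) (fun _ => c ^ 2), Av_mul, Av_const]
  nlinarith [sq_nonneg (Av a p B F z - c)]

/-- disjoint sets of variables: iterated average -/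
theorem Av_union (a p : ℕ → ℝ) (B C : Finset ℕ) (h : Disjoint B C) (F : ℝ → ℝ) (z : ℝ) :
    Av a p (B ∪ C) F z = Av a p B (fun y => Av a p C F y) z := by
  induction B using Finset.induction_on generalizing z with
  | empty => rw [Finset.empty_union, Av_empty]
  | insert i B hi ih =>
    have hd : Disjoint B C := Finset.disjoint_of_subset_left (Finset.subset_insert _ _) h
    have hiC : i ∉ C := Finset.disjoint_left.1 h (Finset.mem_insert_self _ _)
    have hi' : i ∉ B ∪ C := by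
      rw [Finset.mem_union]; rintro (h' | h')
      · exact hi h'
      · exact hiC h'
    rw [Finset.insert_union, Av_insert _ _ _ _ hi', Av_insert _ _ _ _ hi, ih hd, ih hd]

theorem Av_sdiff (a p : ℕ → ℝ) (J B : Finset ℕ) (h : B ⊆ J) (F : ℝ → ℝ) (z : ℝ) :
    Av a p J F z = Av a p (J \ B) (fun y => Av a p B F y) z := by
  rw [← Av_union a p (J \ B) B Finset.sdiff_disjoint, Finset.sdiff_union_of_subset h]

/-! ### Differences and coefficients -/

theorem Df_empty (a : ℕ → ℝ) (F : ℝ → ℝ) (z : ℝ) : Df a ∅ F z = F z := by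
  simp [Df]

theorem Df_insert (a : ℕ → ℝ) (T : Finset ℕ) (i : ℕ) (hi : i ∉ T) (F : ℝ → ℝ) (z : ℝ) :
    Df a (insert i T) F z = (Df a T F z - Df a T F (z + a i)) / 2 := by
  unfold Df
  rw [Finset.sum_powerset_insert hi, Finset.card_insert_of_notMem hi, sub_div, Finset.sum_div,
    Finset.sum_div, sub_eq_add_neg, ← Finset.sum_neg_distrib]
  congr 1
  · exact Finset.sum_congr rfl fun S _ => by rw [pow_succ]; field_simp
  · refine Finset.sum_congr rfl fun S hS => ?_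
    have hiS : i ∉ S := fun h => hi (Finset.mem_powerset.1 hS h)
    rw [Finset.card_insert_of_notMem hiS, Finset.sum_insert hiS,
      show z + (a i + ∑ j ∈ S, a j) = z + a i + ∑ j ∈ S, a j by ring, pow_succ, pow_succ]
    field_simp

theorem Df_shift (a : ℕ → ℝ) (T : Finset ℕ) (F : ℝ → ℝ) (c z : ℝ) :
    Df a T (fun y => F (y + c)) z = Df a T F (z + c) := by
  unfold Df
  exact Finset.sum_congr rfl fun S _ => by
    dsimp only
    rw [show z + ∑ i ∈ S, a i + c = z + c + ∑ i ∈ S, a i by ring]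

/-- `Df` commutes with `Av` -/
theorem Df_Av (a p : ℕ → ℝ) (T B : Finset ℕ) (F : ℝ → ℝ) (z : ℝ) :
    Df a T (fun y => Av a p B F y) z = Av a p B (fun y => Df a T F y) z := by
  unfold Df
  rw [Av_sum]
  refine Finset.sum_congr rfl fun S _ => ?_
  rw [Av_mul a p B _ (fun y => F (y + ∑ i ∈ S, a i)), Av_shift]

theorem Co_empty (a p : ℕ → ℝ) (J : Finset ℕ) (F : ℝ → ℝ) (z : ℝ) : Co a p J ∅ F z = Av a p J F z := by
  unfold Co
  rw [Finset.sdiff_empty]
  exact Av_congr a p J (fun y => Df_empty a F y) z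

theorem Co_insert_not (a p : ℕ → ℝ) (J T : Finset ℕ) (t : ℕ) (ht : t ∉ J) (hT : T ⊆ J) (F : ℝ → ℝ)
    (z : ℝ) : Co a p (insert t J) T F z = p t * Co a p J T F z + (1 - p t) * Co a p J T F (z + a t) := by
  unfold Co
  rw [Finset.insert_sdiff_of_notMem _ (fun h => ht (hT h)),
    Av_insert _ _ _ _ (fun h => ht (Finset.mem_sdiff.1 h).1)]

theorem Co_insert_mem (a p : ℕ → ℝ) (J T : Finset ℕ) (t : ℕ) (ht : t ∉ J) (hT : T ⊆ J) (F : ℝ → ℝ)
    (z : ℝ) : Co a p (insert t J) (insert t T) F z = (Co a p J T F z - Co a p J T F (z + a t)) / 2 := by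
  unfold Co
  have e : insert t J \ insert t T = J \ T := by
    ext j
    simp only [Finset.mem_sdiff, Finset.mem_insert]
    constructor
    · rintro ⟨h1 | h1, h2⟩
      · exact absurd (Or.inl h1) h2
      · exact ⟨h1, fun h => h2 (Or.inr h)⟩
    · rintro ⟨h1, h2⟩
      refine ⟨Or.inr h1, ?_⟩
      rintro (h | h)
      · exact ht (h ▸ h1)
      · exact h2 h
  rw [e, ← Av_shift a p (J \ T) (Df a T F) (a t) z, ← Av_sub, div_eq_inv_mul, ← Av_mul]
  refine Av_congr a p _ (fun y => ?_) z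
  rw [Df_insert a T t (fun h => ht (hT h))]
  ring

theorem Co_shift (a p : ℕ → ℝ) (J T : Finset ℕ) (F : ℝ → ℝ) (c z : ℝ) :
    Co a p J T (fun y => F (y + c)) z = Co a p J T F (z + c) := by
  unfold Co
  rw [← Av_shift]
  exact Av_congr a p _ (fun y => Df_shift a T F c y) z

theorem Co_lin (a p : ℕ → ℝ) (J T : Finset ℕ) (F G : ℝ → ℝ) (c d z : ℝ) :
    Co a p J T (fun y => c * F y + d * G y) z = c * Co a p J T F z + d * Co a p J T G z := by
  unfold Co
  rw [← Av_mul, ← Av_mul, ← Av_add]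
  refine Av_congr a p _ (fun y => ?_) z
  unfold Df
  rw [Finset.mul_sum, Finset.mul_sum, ← Finset.sum_add_distrib]
  exact Finset.sum_congr rfl fun S _ => by ring

/-- the coefficients of `gA` -/
theorem Co_gA (a p : ℕ → ℝ) (J T : Finset ℕ) (F : ℝ → ℝ) (q A z : ℝ) :
    Co a p J T (gA q A F) z = q * Co a p J T F z + (1 - q) * Co a p J T F (z + A) := by
  have h := Co_lin a p J T F (fun y => F (y + A)) q (1 - q) z
  rw [Co_shift] at h
  exact h

/-- the coefficients of `hA` -/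
theorem Co_hA (a p : ℕ → ℝ) (J T : Finset ℕ) (F : ℝ → ℝ) (A z : ℝ) :
    Co a p J T (hA A F) z = (Co a p J T F z - Co a p J T F (z + A)) / 2 := by
  have h := Co_lin a p J T F (fun y => F (y + A)) (1 / 2) (-(1 / 2)) z
  rw [Co_shift] at h
  have e : hA A F = fun y => 1 / 2 * F y + -(1 / 2) * F (y + A) := by
    funext y; unfold hA; ring
  rw [e, h]; ring

/-- averaging over `B ⊆ J \ T` first -/
theorem Co_sdiff (a p : ℕ → ℝ) (J T B : Finset ℕ) (hB : B ⊆ J) (hd : Disjoint T B) (F : ℝ → ℝ) (z : ℝ) :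
    Co a p J T F z = Co a p (J \ B) T (fun y => Av a p B F y) z := by
  unfold Co
  have hB' : B ⊆ J \ T := fun i hi => Finset.mem_sdiff.2 ⟨hB hi, fun h => Finset.disjoint_left.1 hd h hi⟩
  rw [Av_sdiff a p (J \ T) B hB', show (J \ T) \ B = (J \ B) \ T by
    rw [sdiff_sdiff_left, sdiff_sdiff_left, sup_comm]]
  exact Av_congr a p _ (fun y => (Df_Av a p T B F y).symm) z

theorem vr_nonneg (a : ℕ → ℝ) {p : ℕ → ℝ} (hp : ∀ i, 0 ≤ p i ∧ p i ≤ 1) (B : Finset ℕ) : 0 ≤ vr a p B := by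
  unfold vr
  exact Finset.sum_nonneg fun i _ => mul_nonneg (mul_nonneg (hp i).1 (by linarith [(hp i).2])) (sq_nonneg _)

theorem lg_nonneg (x y : ℝ) : 0 ≤ lg x y := le_max_left _ _

theorem wt_pos_le {p : ℕ → ℝ} (hp : ∀ i, 0 ≤ p i ∧ p i ≤ 1) (T : Finset ℕ) : 0 ≤ wt p T := wt_nonneg hp T

theorem Wn_nonneg (θ A y : ℝ) : 0 ≤ Wn θ A y := by unfold Wn; split_ifs <;> norm_num

theorem Wn_le (θ A y : ℝ) : Wn θ A y ≤ 1 := by unfold Wn; split_ifs <;> norm_num

theorem Og_val (θ1 θ2 y : ℝ) : Og θ1 θ2 y = 1 ∨ Og θ1 θ2 y = -1 := by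
  unfold Og; split_ifs <;> simp

theorem Bd.mono {a p : ℕ → ℝ} {B C : Finset ℕ} {A : ℝ} (h : Bd a p C A) (hs : B ⊆ C) : Bd a p B A :=
  ⟨fun i hi => h.1 i (hs hi), h.2⟩

end Pool.Agent.MP3145b1.RT
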