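import Pool.Agent.Lib.MP_3145b1_co.RT.Def

/-!
# MP_3145b1_co, project RT (architect helper95): threshold gates and symmetric gates

THEOREM. There is an absolute constant `C` such that for all `w ≥ 1` and all `f` in `RG w` (read-once compositions of
read-once branching programs of width `w`, ARBITRARY linear threshold / interval gates and ARBITRARY symmetric gates):
`Ent(f) - h(f^(∅)^2) ≤ C w (I(f) - Var f)`, `Ent(f) ≤ C w I(f)`, and a coefficient is at least `2 ^ (- C w I(f) / 2)`.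

RULES. Module X: file Pool/Agent/Lib/MP_3145b1_co/RT/X.lean, `import Pool.Agent.Lib.MP_3145b1_co.RT.Spec`,
`set_option autoImplicit false`, `namespace Pool.Agent.MP3145b1.RT`,
`open Finset Pool.Agent.MP3145b1 Pool.Agent.MP3145b1.RC Pool.Agent.MP3145b1.RD`, final theorem
`theorem rX (h1 : S_A) ... : S_X` (the statements under Uses, in this order, are the hypotheses). Auxiliary lemmas
private, names X_. Definitions and basic lemmas: RT/Def.lean (READ FIRST: Av, Df, Co, mn, vr, Bd, Wn, Og, gA, hA, Ab and the lemmas).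
Notation in the proofs: `v_i = p i (1 - p i)`, `Var_B F z = Av B (F^2) z - (Av B F z)^2` (`≥ 0`, `≤ Av B ((F - c)^2) z`: Av_var_nonneg, Av_var_le).
-/

set_option autoImplicit false

namespace Pool.Agent.MP3145b1.RT

open Finset Pool.Agent.MP3145b1 Pool.Agent.MP3145b1.RC Pool.Agent.MP3145b1.RD

/-- the step function -/
noncomputable def Hv (θ : ℝ) (y : ℝ) : ℝ := if θ ≤ y then 1 else 0

/-- node inequality for the last variable `t` and the set `J` of the other variables -/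
def ND (a p : ℕ → ℝ) (F : ℝ → ℝ) (J : Finset ℕ) (A q : ℝ) : Prop := ∀ z : ℝ,
  ∑ T ∈ J.powerset.erase ∅, wt p T * (Co a p J T (hA A F) z ^ 2 *
    (1 + lg |Co a p J T (gA q A F) z| (2 * Co a p J T (hA A F) z))) ≤
  4000 * ∑ T ∈ J.powerset.erase ∅, wt p T * Co a p J T (hA A F) z ^ 2

/-- sharp entropy inequality for the function `F (z + sum over J)` -/
def SH (a p : ℕ → ℝ) (F : ℝ → ℝ) (J : Finset ℕ) : Prop := ∀ K : ℝ, 30000 ≤ K → ∀ z : ℝ,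
  ∑ T ∈ J.powerset, wt p T * hh (Co a p J T F z ^ 2) ≤ hh (Co a p J ∅ F z ^ 2) +
    K * (∑ T ∈ J.powerset, (T.card : ℝ) * (wt p T * Co a p J T F z ^ 2) - (1 - Co a p J ∅ F z ^ 2))

/-! ## Part 1: averages -/

/-- **TPar** (Parseval). Uses: nothing.
Proof. (1) with `B = ∅` is the induction: `∑_{T ⊆ J} wt T Co J T F z^2 = Av J (F^2) z` for all `z`, Finset.induction_on `J`, Finset.sum_powerset_insert (`t ∉ J`), Co_insert_not, Co_insert_mem, wt_insert (RC/Def.lean), Av_insert: with `c0 = Co J T F z`, `c1 = Co J T F (z + a t)`: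
`(p c0 + (1-p) c1)^2 + 4 p (1-p) ((c0 - c1)/2)^2 = p c0^2 + (1-p) c1^2`. For general `B`: the `T ⊆ J` with `Disjoint T B` are the `T ⊆ J \ B`, Co_sdiff, and the case `B = ∅` for `J \ B` and the function `fun y => Av B F y`. (2) is `(1)` for all `T` minus `(1)` (Av_sdiff, Av_sub). (3): the term of `T = ∅` is `(Av J F z)^2` (Co_empty, `wt p ∅ = 1`). -/
def S_TPar : Prop := ∀ (a p : ℕ → ℝ) (J B : Finset ℕ) (F : ℝ → ℝ) (z : ℝ), B ⊆ J →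
  (∑ T ∈ J.powerset, wt p T * Co a p J T F z ^ 2 = Av a p J (fun y => F y ^ 2) z) ∧
  (∑ T ∈ J.powerset.filter (fun T => Disjoint T B), wt p T * Co a p J T F z ^ 2 =
    Av a p (J \ B) (fun y => Av a p B F y ^ 2) z) ∧
  (∑ T ∈ J.powerset.filter (fun T => ¬ Disjoint T B), wt p T * Co a p J T F z ^ 2 =
    Av a p (J \ B) (fun y => Av a p B (fun y' => F y' ^ 2) y - Av a p B F y ^ 2) z) ∧
  (∑ T ∈ J.powerset.erase ∅, wt p T * Co a p J T F z ^ 2 = Av a p J (fun y => F y ^ 2) z - Av a p J F z ^ 2)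

/-- **TChb** (Chebyshev). Uses: nothing.
Proof. (1) induction on `B` (Av_insert; `mn`, `vr` of `insert i B`: Finset.sum_insert). (2) `if |y - c| < r then 1 else 0 ≥ 1 - (y - c)^2 / r^2` with `c = z + mn`, Av_mono, Av_sub, Av_const, Av_mul, (1). -/
def S_TChb : Prop := ∀ (a p : ℕ → ℝ) (B : Finset ℕ), (∀ i, 0 ≤ p i ∧ p i ≤ 1) → ∀ z : ℝ,
  (∀ c : ℝ, Av a p B (fun y => (y - c) ^ 2) z = vr a p B + (z + mn a p B - c) ^ 2) ∧
  (∀ r : ℝ, 0 < r → 1 - vr a p B / r ^ 2 ≤ Av a p B (fun y => if |y - (z + mn a p B)| < r then 1 else 0) z)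

/-- **TPos** (one-sided lemma). Uses: S_TChb.
Proof. `w = θ - A`, `mid = θ - A/2`, `V z = Av B Wn z`. (1) Finset.induction_on `B`, for all `z`. `B = ∅`: `z < mid` so the left side is `0`. `insert i B` (`B'`): `p = p i`, `q = 1 - p`, `M0 = z + mn B`, `M1 = M0 + a i`, `z + mn B' = p M0 + q M1 < mid`, so `M0 < mid`. `G0, V0` = values of the two averages over `B` at `z`, `G1, V1` at `z + a i`; `G0, G1 ≤ 1`.
If `M1 < mid`: induction for both. If `M1 ≥ mid`: if `V1 ≥ 1/4`: `G1 ≤ 1 ≤ 4 V1`, and `G0 ≤ 4 V0` by induction. If `V1 < 1/4`: (a) `V0 + V1 ≥ 3/4`: for `y` with `|y - M0| < A/2`: `Wn y + Wn (y + a i) ≥ 1` (`y + A ≥ ..`: if `y ≥ w` then `y < θ` because `y < M0 + A/2 < θ`; if `y < w` then `y + a i ≤ y + A < θ` and `y + a i > M1 - A/2 ≥ w`),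
so `V0 + V1 ≥ Av B (if |y - (z + mn B)| < A/2 then 1 else 0) z ≥ 1 - 4 vr B/A^2 ≥ 3/4` (Av_shift, Av_add, S_TChb (2), `vr B ≤ vr B' ≤ A^2/64`). So `V0 ≥ 1/2`. (b) `p ≥ 1/2`: otherwise `p ≤ q`, `(p a_i)^2 ≤ p q a_i^2 ≤ vr B' ≤ A^2/64`, `p a_i ≤ A/8`, `M1 = (p M0 + q M1) + p a_i < mid + A/8`, and for `|y - M1| < 3A/8`: `w < y < θ`
(`M1 ≥ mid`, `y > mid - 3A/8 > w`, `y < mid + A/8 + 3A/8 = θ`), so `V1 ≥ 1 - 64 vr B/(9 A^2) ≥ 8/9`, a contradiction. So `4 (p V0 + q V1) ≥ 4 p V0 ≥ 1 ≥` left side. (2) mirror image, the same induction: `mid ≤ p M0 + q M1 ≤ M1`. `B = ∅`: `z ≥ mid > w`: `0`. If `M0 ≥ mid`: induction. If `M0 < mid`: if `V0 ≥ 1/4`: `G0 ≤ 1 ≤ 4 V0`, `G1 ≤ 4 V1`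
by induction. Otherwise `V0 + V1 ≥ 3/4` as in (a) (it uses only `M0 < mid ≤ M1`), `V1 ≥ 1/2`, and `q ≥ 1/2`: otherwise `q ≤ p`, `q a_i ≤ A/8`, `M0 = (p M0 + q M1) - q a_i ≥ mid - A/8`, for `|y - M0| < 3A/8`: `y > w` and `y < mid + 3A/8 < θ`, `V0 ≥ 8/9`, a contradiction. -/
def S_TPos : Prop := ∀ (a p : ℕ → ℝ) (B : Finset ℕ) (θ A z : ℝ), 0 < A → Bd a p B A → vr a p B ≤ A ^ 2 / 64 →
  (z + mn a p B < θ - A / 2 → Av a p B (Hv θ) z ≤ 4 * Av a p B (Wn θ A) z) ∧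
  (θ - A / 2 ≤ z + mn a p B → Av a p B (fun y => if y < θ - A then 1 else 0) z ≤ 4 * Av a p B (Wn θ A) z)

/-- **TStp** (block inequality for one step). Uses: S_TPos.
Proof. `g = gA q A (Hv θ)`: `g y = 0` for `y < θ - A`, `g y = 1 - q` on the window, `g y = 1` for `y ≥ θ`; `0 ≤ g ≤ 1`. Case `vr ≤ A^2/64`: if `z + mn < θ - A/2`: `g^2 ≤ Wn + Hv`, so `Var g ≤ Av (g^2) ≤ 5 Av Wn` (S_TPos (1)). Otherwise `(g - 1)^2 ≤ Wn + (if y < θ - A then 1 else 0)`, Av_var_le with `c = 1`, S_TPos (2).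
Case `B = {i}` (card 1): `Av {i} F z = p_i F z + (1 - p_i) F (z + a_i)` (Av_insert, Av_empty), `Var g = p_i (1 - p_i) (g z - g (z + a_i))^2`, `0 ≤ a_i ≤ A`. If both `z`, `z + a_i` are below the window or both `≥ θ`: `0`. If one of them is in the window then `Wn = 1` there and `Var g ≤ p_i (1 - p_i) ≤ min (p_i, 1 - p_i) ≤ Av Wn`. `z < θ - A`, `z + a_i ≥ θ` is impossible. -/
def S_TStp : Prop := ∀ (a p : ℕ → ℝ) (B : Finset ℕ) (θ A q z : ℝ), 0 < A → Bd a p B A → Ab a p B A → 0 ≤ q → q ≤ 1 →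
  Av a p B (fun y => gA q A (Hv θ) y ^ 2) z - Av a p B (gA q A (Hv θ)) z ^ 2 ≤ 5 * Av a p B (Wn θ A) z

/-- **TBlI** (block inequality for the interval gate). Uses: S_TStp.
Proof. `g = gA q A (Og θ1 θ2)`, `h = hA A (Og θ1 θ2)`. (i) `θ2 ≤ θ1`: `Og = 1`, `g = 1`, `Var g = 0` (Av_const), the right side is `≥ 0`. (ii) `θ1 < θ2`, `θ2 - θ1 < A`: `g y ≠ 1` implies that exactly one of `y`, `y + A` is in `[θ1, θ2)`, so `h y ^2 = 1`; `(g - 1)^2 ≤ 4 h^2`, Av_var_le with `c = 1`.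
(iii) `θ2 - θ1 ≥ A`: `Og = 1 - 2 (Hv θ1 - Hv θ2)`, `g = 1 - 2 (s1 - s2)` with `s_j = gA q A (Hv θ_j)`, `Var g = 4 Var (s1 - s2) ≤ 8 (Var s1 + Var s2)` (`Var (s1 - s2) + Var (s1 + s2) = 2 Var s1 + 2 Var s2`, Av_var_nonneg), S_TStp, and `h^2 = Wn θ1 A + Wn θ2 A` (the two windows are disjoint). -/
def S_TBlI : Prop := ∀ (a p : ℕ → ℝ) (B : Finset ℕ) (θ1 θ2 A q z : ℝ), 0 < A → Bd a p B A → Ab a p B A →
  0 ≤ q → q ≤ 1 →
  Av a p B (fun y => gA q A (Og θ1 θ2) y ^ 2) z - Av a p B (gA q A (Og θ1 θ2)) z ^ 2 ≤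
    40 * Av a p B (fun y => hA A (Og θ1 θ2) y ^ 2) z

/-- **TChf** (characteristic function). Uses: nothing.
Proof. `C z = Av B (fun y => cos (s (y - c))) z`, `D z = Av B (fun y => sin (s (y - c))) z`. Claim by induction on `B` for all `z`: `C z ^2 + D z ^2 ≤ exp (-(4/5) s^2 vr B)`. `B = ∅`: `1`. `insert i B`, `x = s a_i`, `|x| ≤ 1`: by Real.cos_add, Real.sin_add and linearity (Av_shift, Av_sub, Av_add, Av_mul): `C (z + a_i) = cos x C z - sin x D z`, `D (z + a_i) = cos x D z + sin x C z` (averages over `B`).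
So for `insert i B` the sum of the squares is `(C^2 + D^2) ((p + (1-p) cos x)^2 + ((1-p) sin x)^2) = (C^2 + D^2) (1 - 2 v_i (1 - cos x))`, `1 - cos x ≥ (2/5) x^2` for `|x| ≤ 1` (Real.cos_bound: `|cos x - (1 - x^2/2)| ≤ |x|^4 (5/96)`), `1 - u ≤ exp (-u)` (Real.add_one_le_exp). Then `C z ≤ sqrt (..)`, i.e. `C z ≤ exp (-(2/5) s^2 vr B)` (abs_le_of_sq_le or nlinarith; `exp (2 x) = (exp x)^2`). -/
def S_TChf : Prop := ∀ (a p : ℕ → ℝ) (B : Finset ℕ) (A s c z : ℝ), Bd a p B A → 0 ≤ A → |s| * A ≤ 1 →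
  Av a p B (fun y => Real.cos (s * (y - c))) z ≤ Real.exp (-(2 / 5) * s ^ 2 * vr a p B)

/-- **TEsn** (small ball). Uses: S_TChf.
Proof. `c = θ - A/2`, `s = 1/(N A)`. `X y = ∑ j ∈ range N, cos (j s (y - c))`, `Y y = ∑ j ∈ range N, sin (j s (y - c))`. (a) on the window `|y - c| ≤ A/2`, `|j s (y - c)| ≤ 1/2`, `cos ≥ 7/8` (Real.one_sub_sq_div_two_le_cos), so `X^2 + Y^2 ≥ (49/64) N^2`; so `(49/64) N^2 Wn y ≤ X y^2 + Y y^2` for all `y`.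
(b) `X^2 + Y^2 = ∑ j, ∑ j', cos ((j - j') s (y - c))` (Finset.sum_mul_sum, Real.cos_sub), so by S_TChf (`|(j - j') s| A ≤ 1`) and `N^2 A^2 ≤ vr B`: `(49/64) N^2 Av Wn ≤ ∑ j, ∑ j', exp (-(2/5) (j - j')^2) ≤ ∑ j, ∑ j', r ^ |j - j'|` with `r = exp (-(2/5)) ≤ 0.68` (`(j - j')^2 ≥ |j - j'|` for integers; `exp (2/5) ≥ 1 + 2/5 + 2/25 = 1.48`).
(c) for every `j < N`: `∑ j' ∈ range N, r ^ |j - j'| ≤ 2/(1 - r) ≤ 7` (split in `j' ≤ j` and `j' > j`, geometric sums). So `Av Wn ≤ 7 N (64/49)/N^2 ≤ 10/N`. -/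
def S_TEsn : Prop := ∀ (a p : ℕ → ℝ) (B : Finset ℕ) (A θ z : ℝ) (N : ℕ), 0 < A → Bd a p B A → 1 ≤ N →
  (N : ℝ) ^ 2 * A ^ 2 ≤ vr a p B → Av a p B (Wn θ A) z ≤ 10 / N

/-- **TSmI** (small ball for the interval gate). Uses: S_TEsn.
Proof. `h = hA A (Og θ1 θ2)`; `|h| ≤ Wn θ1 A + Wn θ2 A` (if `θ1 < θ2` and exactly one of `y`, `y + A` is in `[θ1, θ2)`: `y < θ1 ≤ y + A` gives `Wn θ1 A y = 1`; `y < θ2 ≤ y + A` gives `Wn θ2 A y = 1`; one of the two holds) and `|h| ≤ 1`, so `|Av h| ≤ Av |h| ≤ min (1, Av Wn θ1 + Av Wn θ2)`. `r < 512`: `1 ≤ 500/sqrt r`. `r ≥ 512`: `N = ⌊sqrt (r/128)⌋₊ ≥ 2`,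
`N ≥ sqrt (r/128)/2`, `N^2 A^2 ≤ r A^2/128 ≤ vr G`: `|Av h| ≤ 20/N ≤ 40 sqrt 128/sqrt r ≤ 500/sqrt r` (`sqrt 128 ≤ 12`). -/
def S_TSmI : Prop := ∀ (a p : ℕ → ℝ) (G : Finset ℕ) (A θ1 θ2 z : ℝ) (r : ℕ), 0 < A → Bd a p G A → 1 ≤ r →
  (r : ℝ) * A ^ 2 / 128 ≤ vr a p G → |Av a p G (hA A (Og θ1 θ2)) z| ≤ 500 / Real.sqrt r

/-- **TBlS** (block inequality for symmetric gates). Uses: S_TPos.
Proof. `a i = 1` on `B`, so only the values at `z + k`, `k ≤ B.card` (`k` natural) matter (Av_mono_on; `∑ i ∈ S, a i = S.card`). `g = gA q 1 F`, `h = hA 1 F`, `h^2` is `0` or `1`, `|g| ≤ 1`. `h (z+k) = 0` iff `F (z+k) = F (z+k+1)`, then `g (z+k) = F (z+k)`. Case `B = {i}`: `Var g = v_i (g z - g (z+1))^2`; if `h z = h (z+1) = 0` then `g z = g (z+1)`;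
otherwise `(..)^2 ≤ 4` and `v_i ≤ min (p_i, 1 - p_i)`: `Var g ≤ 4 (p_i h(z)^2 + (1 - p_i) h(z+1)^2)`. Case `vr ≤ 1/64`: `μ = z + mn B`, `n = B.card`, `0 ≤ mn B ≤ n`; `k0` = least natural number with `z + k0 > μ - 1/2` (`k0 ≤ n`). `c = F (z + k0)`. For `k0 ≤ k ≤ n`: if `h (z + k') = 0` for all `k' ∈ [k0, k]` then `g (z + k) = c`.
For `k < k0`: if `h (z + k') = 0` for all `k' ∈ [k, k0)` then `g (z + k) = c`. Let `k1` = least `k ∈ [k0, n]` with `h (z + k) ≠ 0` and `k2` = largest `k < k0` with `h (z + k) ≠ 0` (each may not exist). So `(g (z+k) - c)^2 ≤ 4` is nonzero only for `k ≥ k1` or `k ≤ k2`. With `θ1 = z + k1 + 1`: `Wn θ1 1 (z + k) = 1` iff `k = k1`, `μ < θ1 - 1/2`, S_TPos (1): `Av (Hv θ1) ≤ 4 Av (Wn θ1 1)`.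
With `θ2 = z + k2 + 1`: `θ2 - 1/2 ≤ μ`, S_TPos (2). So `Var g ≤ Av ((g - c)^2) ≤ 4 (Av Wn1 + Av Hv θ1) + 4 (Av Wn2 + Av (if y < θ2 - 1 ..)) ≤ 20 (Av Wn1 + Av Wn2) ≤ 20 Av (h^2)` (`k1 ≠ k2`; a term is absent if the index does not exist; do the four cases, or define the indicator functions by `∃`). -/
def S_TBlS : Prop := ∀ (a p : ℕ → ℝ) (B : Finset ℕ) (F : ℝ → ℝ) (q z : ℝ), Bd a p B 1 → (∀ i ∈ B, a i = 1) →
  Ab a p B 1 → 0 ≤ q → q ≤ 1 → (∀ y, F y = 1 ∨ F y = -1) →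
  Av a p B (fun y => gA q 1 F y ^ 2) z - Av a p B (gA q 1 F) z ^ 2 ≤ 40 * Av a p B (fun y => hA 1 F y ^ 2) z

/-- **TSmS** (small mean for symmetric gates). Uses: S_TPar.
Proof. For `i ∈ G`: `d_i y = Co G {i} F y = Av (G \ {i}) (hA 1 F) y` (`Df {i} F = hA 1 F` as `a i = 1`: Df_insert, Df_empty). Bessel at every `y`: `∑_{i ∈ G} 4 v_i d_i(y)^2 ≤ ∑_{T ⊆ G} wt T (Co G T F y)^2 = Av G (F^2) y = 1` (S_TPar (1); the sets `{i}`, `wt p {i} = 4 v_i`). `Av G h z = p_i d_i(z) + (1 - p_i) d_i(z+1)` (Av_insert for `G = insert i (G \ {i})`), so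
`(Av G h z)^2 ≤ d_i(z)^2 + d_i(z+1)^2`. Multiply by `4 v_i`, sum over `i ∈ G`: `4 vr G (Av G h z)^2 ≤ 2` (`vr G = ∑ v_i`). So `(Av G h z)^2 ≤ 64/r`, `|Av G h z| ≤ 8/sqrt r`. -/
def S_TSmS : Prop := ∀ (a p : ℕ → ℝ) (G : Finset ℕ) (F : ℝ → ℝ) (z : ℝ) (r : ℕ), Bd a p G 1 → (∀ i ∈ G, a i = 1) →
  (∀ y, F y = 1 ∨ F y = -1) → 1 ≤ r → (r : ℝ) * 1 ^ 2 / 128 ≤ vr a p G → |Av a p G (hA 1 F) z| ≤ 500 / Real.sqrt r

/-! ## Part 2: the node inequality -/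

/-- **TGrp** (blocks). Uses: nothing.
Proof. Finset.induction_on `J`. `J = ∅`: `m = 0`. `insert i J` (`i ∉ J`), blocks `Bl 0, .., Bl (m-1)` for `J`: (i) `m = 0`, or the last block has `vr ≥ A^2/128`: append `{i}` as the block number `m`. (ii) the last block has `vr < A^2/128` and `vr {i} < A^2/128`: replace the last block by `insert i (Bl (m-1))` (`vr ≤ A^2/64`).
(iii) the last block has `vr < A^2/128` and `vr {i} ≥ A^2/128`: `Bl' 0 = {i}`, `Bl' (b+1) = Bl b`, `m + 1` blocks. -/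
def S_TGrp : Prop := ∀ (a p : ℕ → ℝ) (J : Finset ℕ) (A : ℝ), (∀ i, 0 ≤ p i ∧ p i ≤ 1) →
  ∃ (m : ℕ) (Bl : ℕ → Finset ℕ), (∀ b, b < m → Bl b ⊆ J ∧ Ab a p (Bl b) A) ∧
    (∀ b b', b < m → b' < m → b ≠ b' → Disjoint (Bl b) (Bl b')) ∧ (∀ i ∈ J, ∃ b, b < m ∧ i ∈ Bl b) ∧
    ∀ b, b + 1 < m → A ^ 2 / 128 ≤ vr a p (Bl b)

/-- **TPtw** (pointwise inequality). Uses: nothing.
Proof. (1) for `0 < π ≤ 1`: `d^2 lg |U| (2 d) ≤ (1/2) d^2 log (1/π) + π U^2`: `d = 0` clear; `lg = max 0 (log (|U|/|2 d|))`; if it is `0` the right side is `≥ 0`; otherwise `U ≠ 0`, `log (|U|/|2d|) = (1/2) log (1/π) + (1/2) log (π U^2/(4 d^2))` and `log x ≤ x`. (2) let `β < m` be the least index with `¬ Disjoint T (Bl β)`, `π = 1/(β+1)^2`: `(1/2) log (1/π) = log (β + 1) ≤ ∑_{r=1}^β 1/r`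
(induction on `β`: `log ((β+2)/(β+1)) ≤ 1/(β+1)`), and for `1 ≤ r ≤ β` the set `T` is disjoint from `Bl 0, .., Bl (r-1)` (`r ≤ β < m`, `r ∈ range m`); the second sum on the right contains the term of `β`. -/
def S_TPtw : Prop := ∀ (m : ℕ) (Bl : ℕ → Finset ℕ) (T : Finset ℕ), (∃ b, b < m ∧ ¬ Disjoint T (Bl b)) → ∀ U d : ℝ,
  d ^ 2 * lg |U| (2 * d) ≤
    ∑ r ∈ range m, (if 1 ≤ r ∧ Disjoint T ((range r).biUnion Bl) then (1 : ℝ) / r * d ^ 2 else 0) +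
    ∑ b ∈ range m, (if ¬ Disjoint T (Bl b) then (1 : ℝ) / (b + 1) ^ 2 * U ^ 2 else 0)

/-- **TSrs** (two sums). Uses: nothing.
Proof. `∑_{b<m} 1/(b+1)^2 ≤ 2 - 1/m` for `m ≥ 1` and `∑_{1≤r<m} 1/(r sqrt r) ≤ 3 - 2/sqrt m` for `m ≥ 1` by induction (`1/(r sqrt r) ≤ 2/sqrt r - 2/sqrt (r+1)` fails for the first ones by a factor: use `1/(r sqrt r) ≤ 2/sqrt (r-1) - 2/sqrt r` for `r ≥ 2`, and `1` for `r = 1`; so the sum is `≤ 1 + 2 = 3`). -/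
def S_TSrs : Prop := ∀ m : ℕ, ∑ b ∈ range m, (1 : ℝ) / (b + 1) ^ 2 ≤ 2 ∧
  ∑ r ∈ range m, (if 1 ≤ r then (1 : ℝ) / r * (500 / Real.sqrt r) else 0) ≤ 1500

/-- **TBig** (pivotal probability larger than 1/2). Uses: nothing.
Proof. `h = hA A F` has values `0, 1, -1`, `g = gA q A F`. `P1 = Av J (if h y = 1 then 1 else 0) z`, `P2` the same with `-1`. `Av (h^2) = P1 + P2 > 1/2`, `Av h = P1 - P2`, `P1, P2 ≥ 0`, `P1 + P2 ≤ 1`. If `P1 ≥ 1/4`: for `h y = 1`: `F y = 1`, `F (y+A) = -1`, `g y = 2q - 1 =: c`; `|g| ≤ 1`, `|c| ≤ 1`, so `(g - c)^2 ≤ 4 (1 - [h = 1])`, `Var g ≤ 4 (1 - P1)`,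
and `Var h = P1 + P2 - (P1 - P2)^2 = P1 (1 - P1) + P2 (1 - P2 + 2 P1) ≥ P1 (1 - P1) ≥ (1 - P1)/4`. If `P2 ≥ 1/4` the same with `c = 1 - 2q`. -/
def S_TBig : Prop := ∀ (a p : ℕ → ℝ) (J : Finset ℕ) (A q : ℝ) (F : ℝ → ℝ) (z : ℝ), (∀ i, 0 ≤ p i ∧ p i ≤ 1) →
  0 ≤ q → q ≤ 1 → (∀ y, F y = 1 ∨ F y = -1) → 1 / 2 < Av a p J (fun y => hA A F y ^ 2) z →
  Av a p J (fun y => gA q A F y ^ 2) z - Av a p J (gA q A F) z ^ 2 ≤
    16 * (Av a p J (fun y => hA A F y ^ 2) z - Av a p J (hA A F) z ^ 2)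

/-- **TSml** (the part with the logarithm, pivotal probability at most 1/2). Uses: S_TPar, S_TGrp, S_TPtw, S_TSrs.
Proof. `g = gA q A F`, `h = hA A F`, `W = Av J (h^2) z`. Blocks of S_TGrp, `G_r = (range r).biUnion Bl`. Every `T ⊆ J`, `T ≠ ∅` meets a block with index `< m`. S_TPtw with `U = Co J T g z`, `d = Co J T h z`, multiply by `wt T ≥ 0`, sum over `T`, exchange the sums. (a) `∑_{T ≠ ∅, T meets Bl b} wt U^2 ≤ Av (J \ Bl b) (Var_{Bl b} g) ≤ 40 Av (J \ Bl b) (Av (Bl b) (h^2)) = 40 W`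
(S_TPar (3), hypothesis, Av_mono, Av_sdiff); so the second part is `≤ 2 * 40 W` (S_TSrs). (b) for `1 ≤ r < m`: `G_r ⊆ J`, `vr G_r = ∑_{b<r} vr (Bl b) ≥ r A^2/128` (disjoint blocks, `b + 1 ≤ r < m`), `∑_{T, Disjoint T G_r} wt d^2 = Av (J \ G_r) ((Av G_r h)^2)` (S_TPar (2)), `(Av G_r h y)^2 ≤ (500/sqrt r) Av G_r (h^2) y` (`|Av h| ≤ Av (h^2)` since `|h| = h^2`; hypothesis),
so it is `≤ (500/sqrt r) W` and the first part is `≤ 1500 W`. Total `≤ 1580 W`. -/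
def S_TSml : Prop := ∀ (a p : ℕ → ℝ) (J : Finset ℕ) (A q : ℝ) (F : ℝ → ℝ), 0 < A → Bd a p J A → 0 ≤ q → q ≤ 1 →
  (∀ y, F y = 1 ∨ F y = -1) →
  (∀ B, B ⊆ J → Ab a p B A → ∀ z, Av a p B (fun y => gA q A F y ^ 2) z - Av a p B (gA q A F) z ^ 2 ≤
    40 * Av a p B (fun y => hA A F y ^ 2) z) →
  (∀ G, G ⊆ J → ∀ r : ℕ, 1 ≤ r → (r : ℝ) * A ^ 2 / 128 ≤ vr a p G → ∀ z,
    |Av a p G (hA A F) z| ≤ 500 / Real.sqrt r) →
  ∀ z, ∑ T ∈ J.powerset.erase ∅, wt p T * (Co a p J T (hA A F) z ^ 2 *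
    lg |Co a p J T (gA q A F) z| (2 * Co a p J T (hA A F) z)) ≤ 1580 * Av a p J (fun y => hA A F y ^ 2) z

/-- **TNod** (node inequality). Uses: S_TPar, S_TBig, S_TSml.
Proof. `W = Av J (h^2) z`, `X = ∑_{T ≠ ∅} wt (Co h)^2 = W - (Av J h z)^2` (S_TPar (4)), `|Av J h z| ≤ W ≤ 1` (`|h| = h^2 ≤ 1`). If `W ≤ 1/2`: `X ≥ W - W^2 ≥ W/2`, S_TSml: left side `≤ X + 1580 W ≤ 3161 X`. If `W > 1/2`: `d^2 lg |U| (2 d) ≤ U^2` (`log x ≤ x`: `d^2 log (|U|/|2d|) ≤ d^2 (1/2) (U^2/(4 d^2))`; `d = 0` clear), so left side `≤ X + ∑_{T ≠ ∅} wt (Co g)^2 = X + Var_J g ≤ 17 X`. -/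
def S_TNod : Prop := ∀ (a p : ℕ → ℝ) (J : Finset ℕ) (A q : ℝ) (F : ℝ → ℝ), 0 < A → Bd a p J A → 0 ≤ q → q ≤ 1 →
  (∀ y, F y = 1 ∨ F y = -1) →
  (∀ B, B ⊆ J → Ab a p B A → ∀ z, Av a p B (fun y => gA q A F y ^ 2) z - Av a p B (gA q A F) z ^ 2 ≤
    40 * Av a p B (fun y => hA A F y ^ 2) z) →
  (∀ G, G ⊆ J → ∀ r : ℕ, 1 ≤ r → (r : ℝ) * A ^ 2 / 128 ≤ vr a p G → ∀ z,
    |Av a p G (hA A F) z| ≤ 500 / Real.sqrt r) → ND a p F J A q

/-- **TTel** (one more variable). Uses: S_TPar, S_GTw.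
Proof. `p = p t`, `v = p (1-p)`, `c0 T = Co J T F z`, `c1 T = Co J T F (z + a t)`, `U T = p c0 + (1-p) c1 = Co J T (gA (p t) (a t) F) z` (Co_gA), `Om T = (c0 - c1)/2 = Co J T (hA (a t) F) z` (Co_hA). `∑_{T ⊆ insert t J} wt hh (Co^2) = ∑_{T ⊆ J} wt T (hh (U^2) + 4 v hh (Om^2)) = ∑_{T ⊆ J} wt T (dlp p c0 c1 + p hh (c0^2) + (1-p) hh (c1^2))`
(Finset.sum_powerset_insert, Co_insert_not, Co_insert_mem, wt_insert, definition of dlp). For `T = ∅` use `dlp + p hh (c0^2) + (1-p) hh (c1^2) = hh (U^2) + 4 v hh (Om^2)` and `hh (Om^2) = -2 Om^2 log |Om| ≤ 2 (|Om| - Om^2)` (`log (1/x) ≤ 1/x - 1`). For `T ≠ ∅` S_GTw: `dlp p c0 c1 ≤ 28 v (Om^2 (1 + lg |U| (2 Om)))`, and ND.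
The same expansion for `B(J) = ∑_T |T| wt Co^2 - (1 - Co_∅^2)`: `B(insert t J)(z) = p B(J)(z) + (1-p) B(J)(z + a t) + 4 v X`, `X = ∑_{T ⊆ J, T ≠ ∅} wt T (Om T)^2` (`|insert t T| = |T| + 1`, `U^2 + 4 v Om^2 = p c0^2 + (1-p) c1^2`). With `W = ∑_{T ⊆ J} wt Om^2 = Av J (h^2) z` (S_TPar (1)), `Om ∅ = Av J h z`, `|Om ∅| ≤ W` (`|h| = h^2`): `2 (|Om ∅| - Om_∅^2) ≤ 2 X`.
Total: `LHS(insert t J)(z) - hh (U_∅^2) ≤ p (LHS(J)(z) - hh (c0_∅^2)) + (1-p) (LHS(J)(z + a t) - hh (c1_∅^2)) + 28 v * 4000 X + 8 v X ≤ K (p B(z) + (1-p) B(z + a t)) + 4 v 28002 X ≤ K B(insert t J)(z)`. -/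
def S_TTel : Prop := ∀ (a p : ℕ → ℝ) (J : Finset ℕ) (t : ℕ) (F : ℝ → ℝ), t ∉ J → (∀ i, 0 ≤ p i ∧ p i ≤ 1) →
  (∀ y, F y = 1 ∨ F y = -1) → ND a p F J (a t) (p t) → SH a p F J → SH a p F (insert t J)

/-- **TLin** (interval gates). Uses: S_TBlI, S_TSmI, S_TNod, S_TTel.
Proof. Finset.induction_on_max_value with `a` (the inserted variable `t` has `a i ≤ a t` for `i ∈ J`); the statement for all `J` with `0 ≤ a i` on `J`. `J = ∅`: `Co ∅ ∅ F z = F z = ± 1`: `hh 1 ≤ hh 1 + K (0 - 0)`. Step: S_TTel; ND: if `a t = 0`: `hA 0 F = 0`, so `Co (hA ..) = 0` (Co_hA with `A = 0`), both sides `0`. If `a t > 0`: S_TNod with `A = a t`, `q = p t`, S_TBlI, S_TSmI (Bd.mono). -/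
def S_TLin : Prop := ∀ (a p : ℕ → ℝ) (J : Finset ℕ) (θ1 θ2 : ℝ), (∀ i ∈ J, 0 ≤ a i) → (∀ i, 0 ≤ p i ∧ p i ≤ 1) →
  SH a p (Og θ1 θ2) J

/-- **TSym** (symmetric gates). Uses: S_TBlS, S_TSmS, S_TNod, S_TTel.
Proof. Finset.induction_on `J`, S_TTel, S_TNod with `A = a t = 1`, S_TBlS, S_TSmS. -/
def S_TSym : Prop := ∀ (a p : ℕ → ℝ) (J : Finset ℕ) (F : ℝ → ℝ), (∀ i ∈ J, a i = 1) → (∀ i, 0 ≤ p i ∧ p i ≤ 1) →
  (∀ y, F y = 1 ∨ F y = -1) → SH a p F J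

/-! ## Part 3: compositions -/

/-- Sharp entropy inequality of `f` with the constant `K` -/
def Shp (K : ℝ) {N : ℕ} (f : (Fin N → Bool) → ℝ) : Prop :=
  ∑ S ∈ (univ : Finset (Finset (Fin N))).erase ∅, hh (coeff f S ^ 2) ≤ K * (influence f - (1 - coeff f ∅ ^ 2))

/-- **Read-once compositions of branching programs of width `w`, threshold gates and symmetric gates**: the
smallest class of functions `(Fin N → Bool) → {1, -1}` which contains the constants and the variables, with `f`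
also `-f`, and with functions `u i` (`i : ℕ`) of pairwise disjoint sets `P i` of variables also
(prog) every function computed by a read-once branching program with `w` states per level whose nodes read the
values of the `u i` (as in `RO w`); (thr) the function which is `-1` iff the sum of the real weights `a i` over
the `i < M` with `u i x = -1` is in `[θ1, θ2)`; (sym) every function of the number of the `i < M` with `u i x = -1`. -/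
inductive RG (w : ℕ) {N : ℕ} : ((Fin N → Bool) → ℝ) → Prop
  | const (c : Bool) : RG w (fun _ => if c then -1 else 1)
  | var (b : Fin N) : RG w (fun x => if x b then -1 else 1)
  | neg (f : (Fin N → Bool) → ℝ) (hf : RG w f) : RG w (fun x => - f x)
  | prog (P : ℕ → Finset (Fin N)) (u : ℕ → (Fin N → Bool) → ℝ)
      (hP : ∀ i j, i ≠ j → Disjoint (P i) (P j)) (hd : ∀ i, Dp (P i) (u i)) (hu : ∀ i, RG w (u i))
      (n : ℕ) (s : ℕ → Fin w → Bool → Fin w) (v : ℕ → Fin w → ℕ) (x0 : Fin w) (o : Fin w → Bool)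
      (hr : ReadOnce s v n x0) :
      RG w (fun x => if o (run s v x0 (fun i => decide (u i x = -1)) n) then -1 else 1)
  | thr (P : ℕ → Finset (Fin N)) (u : ℕ → (Fin N → Bool) → ℝ)
      (hP : ∀ i j, i ≠ j → Disjoint (P i) (P j)) (hd : ∀ i, Dp (P i) (u i)) (hu : ∀ i, RG w (u i))
      (M : ℕ) (a : ℕ → ℝ) (θ1 θ2 : ℝ) :
      RG w (fun x => if θ1 ≤ ∑ i ∈ range M, (if u i x = -1 then a i else 0) ∧
        ∑ i ∈ range M, (if u i x = -1 then a i else 0) < θ2 then -1 else 1)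
  | sym (P : ℕ → Finset (Fin N)) (u : ℕ → (Fin N → Bool) → ℝ)
      (hP : ∀ i j, i ≠ j → Disjoint (P i) (P j)) (hd : ∀ i, Dp (P i) (u i)) (hu : ∀ i, RG w (u i))
      (M : ℕ) (φ : ℕ → Bool) :
      RG w (fun x => if φ ((range M).filter (fun i => u i x = -1)).card then -1 else 1)

/-- **TCfo** (Fourier coefficients of a gate). Uses: S_Prd. MODEL: RC/Cfo.lean (same proof, simpler).
Proof. Induction on `M` for all `z`. `M = 0`: the constant function `F z`; `S = ∅`: `F z = 1 * F z` (`Lp P 0 ψ ∅ = 1`, `Co ∅ ∅ F z = F z`); `S ≠ ∅`: the coefficient is `0` (S_Prd (2), `P = ∅`) and `Lp = 0`. `M + 1`, `range (M+1) = insert M (range M)`, `g_0 =` the function for `(M, z)`, `g_1 =` the function for `(M, z + a M)`: the function is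
`(1/2)(g_0 + g_1) + (1/2) u_M (g_0 - g_1)` (`u_M` is `1` or `-1`). `g_0, g_1` depend only on `(range M).biUnion P`, disjoint from `P M`. S_Prd (1): `coeff (u_M g) S = coeff u_M (S ∩ P M) * coeff g (S \ P M)`. If `S ∩ P M = ∅` (`M ∉ TT P (M+1) S`): `coeff = pb M * coeff g_0 S + (1 - pb M) * coeff g_1 S`, Co_insert_not.
If `S ∩ P M ≠ ∅`: `coeff g_j S = 0`, `coeff = coeff u_M (S ∩ P M) * (coeff g_0 S' - coeff g_1 S')/2`, `S' = S \ P M`, `TT P (M+1) S = insert M (TT P M S')`, Co_insert_mem, `Lp P (M+1) ψ S = ψ M (S ∩ P M) * Lp P M ψ S'`. -/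
def S_TCfo : Prop := ∀ (N M : ℕ) (a : ℕ → ℝ) (F : ℝ → ℝ) (P : ℕ → Finset (Fin N)) (u : ℕ → (Fin N → Bool) → ℝ),
  Cp P u → ∀ (z : ℝ) (S : Finset (Fin N)),
    coeff (fun x => F (z + ∑ i ∈ range M, (if u i x = -1 then a i else 0))) S =
      Lp P M (fun i R => coeff (u i) R) S * Co a (pb u) (range M) (TT P M S) F z

/-- **TFml** (entropy and influence of a composition). Uses: S_Smm, S_Vsm, S_Hpr. MODEL: RC/Fml.lean (the same proof: replace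
`Cf s v (pb u) o T n 0 x` by `c T`, `Fs s v o u n 0 x` by `f`; the formula S_Cfo is now the hypothesis). -/
def S_TFml : Prop := ∀ (N M : ℕ) (P : ℕ → Finset (Fin N)) (u : ℕ → (Fin N → Bool) → ℝ) (f : (Fin N → Bool) → ℝ)
  (c : Finset ℕ → ℝ), Cp P u → (∀ S, coeff f S = Lp P M (fun i R => coeff (u i) R) S * c (TT P M S)) →
  (∑ S : Finset (Fin N), hh (coeff f S ^ 2) = ∑ T ∈ (range M).powerset, wt (pb u) T * hh (c T ^ 2) +
      ∑ i ∈ range M, (∑ S ∈ (univ : Finset (Finset (Fin N))).erase ∅, hh (coeff (u i) S ^ 2)) *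
        ∑ T ∈ (range M).powerset.filter (fun T => i ∉ T), wt (pb u) T * c (insert i T) ^ 2) ∧
  (influence f = ∑ i ∈ range M, influence (u i) *
        ∑ T ∈ (range M).powerset.filter (fun T => i ∉ T), wt (pb u) T * c (insert i T) ^ 2) ∧
  (∑ T ∈ (range M).powerset, (T.card : ℝ) * (wt (pb u) T * c T ^ 2) =
    ∑ i ∈ range M, 4 * (pb u i * (1 - pb u i)) *
        ∑ T ∈ (range M).powerset.filter (fun T => i ∉ T), wt (pb u) T * c (insert i T) ^ 2) ∧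
  coeff f ∅ = c ∅

/-- **TCmp** (the sharp entropy inequality is preserved by composition). Uses: S_Vsm, S_TFml. MODEL: RC/Cmp.lean (the same proof). -/
def S_TCmp : Prop := ∀ (K : ℝ) (N M : ℕ) (P : ℕ → Finset (Fin N)) (u : ℕ → (Fin N → Bool) → ℝ) (f : (Fin N → Bool) → ℝ)
  (c : Finset ℕ → ℝ), Cp P u → (∀ S, coeff f S = Lp P M (fun i R => coeff (u i) R) S * c (TT P M S)) →
  (∑ T ∈ (range M).powerset, wt (pb u) T * hh (c T ^ 2) ≤ hh (c ∅ ^ 2) +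
    K * (∑ T ∈ (range M).powerset, (T.card : ℝ) * (wt (pb u) T * c T ^ 2) - (1 - c ∅ ^ 2))) →
  (∀ i, Shp K (u i)) → Shp K f

/-- **TGth** (threshold gates with weights of both signs). Uses: S_TLin, S_TCfo, S_TCmp.
Proof. `u' i = u i` if `0 ≤ a i` and `- u i` otherwise (the same sets `P i`; `Cp P u'`; `Shp K (u' i)`: `coeff (-g) S = - coeff g S`, the same squares, the same influence), `a' i = |a i|`, `σ = ∑_{i<M, a i < 0} a i`. `∑ (if u i x = -1 then a i else 0) = σ + ∑ (if u' i x = -1 then a' i else 0)` (for `a i < 0`: `u i x = -1` iff not `u' i x = -1`). So `f x = Og θ1 θ2 (σ + ..)`.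
S_TCfo with `F = Og θ1 θ2`, `z = σ`; S_TLin with `p = pb u'`, `J = range M` (`pb u' i ∈ [0, 1]`: `|coeff (u' i) ∅| ≤ 1`; if it is easier take this from S_Vsm-like arguments: `coeff g ∅` is the mean of values `1, -1`), S_TCmp with `c T = Co a' (pb u') (range M) T F σ`. -/
def S_TGth : Prop := ∀ (K : ℝ) (N M : ℕ) (P : ℕ → Finset (Fin N)) (u : ℕ → (Fin N → Bool) → ℝ) (a : ℕ → ℝ) (θ1 θ2 : ℝ),
  30000 ≤ K → Cp P u → (∀ i, Shp K (u i)) →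
  Shp K (fun x => if θ1 ≤ ∑ i ∈ range M, (if u i x = -1 then a i else 0) ∧
        ∑ i ∈ range M, (if u i x = -1 then a i else 0) < θ2 then (-1 : ℝ) else 1)

/-- **TGsy** (symmetric gates). Uses: S_TSym, S_TCfo, S_TCmp.
Proof. `a i = 1`, `F y = if φ ⌊y⌋₊ then -1 else 1`, `z = 0`: `∑ (if u i x = -1 then 1 else 0) = card` (Finset.sum_boole), Nat.floor_natCast. S_TCfo, S_TSym, S_TCmp. -/
def S_TGsy : Prop := ∀ (K : ℝ) (N M : ℕ) (P : ℕ → Finset (Fin N)) (u : ℕ → (Fin N → Bool) → ℝ) (φ : ℕ → Bool),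
  30000 ≤ K → Cp P u → (∀ i, Shp K (u i)) →
  Shp K (fun x => if φ ((range M).filter (fun i => u i x = -1)).card then (-1 : ℝ) else 1)

/-- **TPrg** (branching programs). Uses: S_Cmp, S_Fix. MODEL: RC/Clo.lean, the case `comp`. -/
def S_TPrg : Prop := ∀ (w : ℕ) (K0 K : ℝ), PG w K0 → K0 ≤ K → ∀ (N : ℕ) (P : ℕ → Finset (Fin N))
  (u : ℕ → (Fin N → Bool) → ℝ), Cp P u → (∀ i, Shp K (u i)) →
  ∀ (n : ℕ) (s : ℕ → Fin w → Bool → Fin w) (v : ℕ → Fin w → ℕ) (x0 : Fin w) (o : Fin w → Bool), ReadOnce s v n x0 →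
  Shp K (fun x => if o (run s v x0 (fun i => decide (u i x = -1)) n) then (-1 : ℝ) else 1)

/-- **TFin** (final statement). Uses: S_GVar, S_GPg, S_TGth, S_TGsy, S_TPrg. MODEL: RC/Clo.lean (cases const, var), RC/Fin.lean, RD/GFn.lean.
Proof. `K = 4706 * (7000000 * w) ≥ 30000`, `PG w K` (S_GPg, S_GVar with `C = 7000000 w`). Induction on `RG w f`: all values are `1` or `-1` and `Shp K f`: const, var as in RC/Clo.lean; neg: `coeff (-f) S = - coeff f S`; prog: S_TPrg; thr: S_TGth; sym: S_TGsy. Then as in RD/GFn.lean (`C = 4706 * 7000000 / log 2`). -/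
def S_TFin : Prop := ∃ C : ℝ, 0 < C ∧ ∀ w : ℕ, 1 ≤ w → ∀ (N : ℕ) (f : (Fin N → Bool) → ℝ), RG w f →
  ∑ S ∈ (univ : Finset (Finset (Fin N))).erase ∅, coeff f S ^ 2 * Real.logb 2 (1 / coeff f S ^ 2) ≤
    C * w * (influence f - (1 - coeff f ∅ ^ 2)) ∧
  specEntropy f ≤ C * w * influence f ∧ ∃ S : Finset (Fin N), (2 : ℝ) ^ (-(C * w * influence f / 2)) ≤ |coeff f S|

end Pool.Agent.MP3145b1.RT
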