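import Pool.Agent.Lib.MP_3145b1_co.RT.Spec

/-!
# MP_3145b1_co, project RT: small mean for symmetric gates

Bessel inequality for the coefficients at the singletons.
-/

set_option autoImplicit false

namespace Pool.Agent.MP3145b1.RT

open Finset Pool.Agent.MP3145b1 Pool.Agent.MP3145b1.RC Pool.Agent.MP3145b1.RD

/-- Bessel inequality, singletons only -/
private theorem TSmS_bessel (h1 : S_TPar) (a p : ℕ → ℝ) (hp : ∀ i, 0 ≤ p i ∧ p i ≤ 1)
    (G : Finset ℕ) (F : ℝ → ℝ) (hF : ∀ y, F y = 1 ∨ F y = -1) (z : ℝ) :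
    ∑ i ∈ G, wt p {i} * Co a p G {i} F z ^ 2 ≤ 1 := by
  have h := (h1 a p G ∅ F z (Finset.empty_subset _)).1
  have hF2 : Av a p G (fun y => F y ^ 2) z = 1 := by
    have e : (fun y => F y ^ 2) = fun _ => (1 : ℝ) := by
      funext y
      rcases hF y with h' | h' <;> rw [h'] <;> norm_num
    rw [e, Av_const]
  have hinj : ∑ i ∈ G, wt p {i} * Co a p G {i} F z ^ 2 =
      ∑ T ∈ G.image (fun i => ({i} : Finset ℕ)), wt p T * Co a p G T F z ^ 2 := by
    rw [Finset.sum_image]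
    intro i _ j _ hij
    exact Finset.singleton_injective hij
  rw [hinj, ← hF2, ← h]
  refine Finset.sum_le_sum_of_subset_of_nonneg ?_
    (fun T _ _ => mul_nonneg (wt_nonneg hp T) (sq_nonneg _))
  intro T hT
  obtain ⟨i, hi, rfl⟩ := Finset.mem_image.1 hT
  exact Finset.mem_powerset.2 (Finset.singleton_subset_iff.2 hi)

/-- the weight of a singleton -/
private theorem TSmS_wt (p : ℕ → ℝ) (i : ℕ) : wt p {i} = 4 * (p i * (1 - p i)) := by
  unfold wt
  rw [Finset.prod_singleton]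

/-- the coefficient at a singleton -/
private theorem TSmS_co (a p : ℕ → ℝ) (G : Finset ℕ) (F : ℝ → ℝ) (i : ℕ) (hi : a i = 1) (y : ℝ) :
    Co a p G {i} F y = Av a p (G \ {i}) (hA 1 F) y := by
  unfold Co
  refine Av_congr a p _ (fun x => ?_) y
  have e : ({i} : Finset ℕ) = insert i ∅ := rfl
  rw [e, Df_insert a ∅ i (Finset.notMem_empty i), Df_empty, Df_empty, hi]
  rfl

/-- the mean is a convex combination of two coefficients -/
private theorem TSmS_sq (a p : ℕ → ℝ) (hp : ∀ i, 0 ≤ p i ∧ p i ≤ 1) (G : Finset ℕ) (F : ℝ → ℝ)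
    (i : ℕ) (hiG : i ∈ G) (hi : a i = 1) (z : ℝ) :
    Av a p G (hA 1 F) z ^ 2 ≤ Co a p G {i} F z ^ 2 + Co a p G {i} F (z + 1) ^ 2 := by
  have e : insert i (G \ {i}) = G := by
    ext j
    simp only [Finset.mem_insert, Finset.mem_sdiff, Finset.mem_singleton]
    constructor
    · rintro (h | h)
      · exact h ▸ hiG
      · exact h.1
    · intro h
      by_cases hj : j = i
      · exact Or.inl hj
      · exact Or.inr ⟨h, hj⟩
  have hn : i ∉ G \ {i} := fun h => (Finset.mem_sdiff.1 h).2 (Finset.mem_singleton_self i)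
  have h := Av_insert a p (G \ {i}) i hn (hA 1 F) z
  rw [e, hi, ← TSmS_co a p G F i hi z, ← TSmS_co a p G F i hi (z + 1)] at h
  rw [h]
  set c := Co a p G {i} F z
  set d := Co a p G {i} F (z + 1)
  have hp1 := (hp i).1
  have hp2 := (hp i).2
  have h3 : (p i * c + (1 - p i) * d) ^ 2 ≤ p i * c ^ 2 + (1 - p i) * d ^ 2 := by
    nlinarith [mul_nonneg (mul_nonneg hp1 (by linarith : 0 ≤ 1 - p i)) (sq_nonneg (c - d))]
  have h4 : p i * c ^ 2 ≤ c ^ 2 := mul_le_of_le_one_left (sq_nonneg _) hp2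
  have h5 : (1 - p i) * d ^ 2 ≤ d ^ 2 := mul_le_of_le_one_left (sq_nonneg _) (by linarith)
  linarith

/-- **TSmS** (small mean for symmetric gates) -/
theorem rTSmS (h1 : S_TPar) : S_TSmS := by
  intro a p G F z r hB ha hF hr hv
  have hp := hB.2
  have b1 := TSmS_bessel h1 a p hp G F hF z
  have b2 := TSmS_bessel h1 a p hp G F hF (z + 1)
  set X := Av a p G (hA 1 F) z with hX
  have hsum : ∑ i ∈ G, wt p {i} * X ^ 2 ≤
      ∑ i ∈ G, wt p {i} * Co a p G {i} F z ^ 2 + ∑ i ∈ G, wt p {i} * Co a p G {i} F (z + 1) ^ 2 := by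
    rw [← Finset.sum_add_distrib]
    refine Finset.sum_le_sum fun i hi => ?_
    rw [← mul_add]
    exact mul_le_mul_of_nonneg_left (TSmS_sq a p hp G F i hi (ha i hi) z) (wt_nonneg hp _)
  have hvr : ∑ i ∈ G, wt p {i} * X ^ 2 = 4 * vr a p G * X ^ 2 := by
    rw [← Finset.sum_mul]
    congr 1
    unfold vr
    rw [Finset.mul_sum]
    refine Finset.sum_congr rfl fun i hi => ?_
    rw [TSmS_wt, ha i hi]
    ring
  have hr0 : (0 : ℝ) < r := by
    have : (1 : ℝ) ≤ r := by exact_mod_cast hr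
    linarith
  have hkey : X ^ 2 * r ≤ 64 := by
    have h2 : 4 * vr a p G * X ^ 2 ≤ 2 := by rw [← hvr]; linarith
    have h3 : (r : ℝ) * 1 ^ 2 / 128 * X ^ 2 ≤ vr a p G * X ^ 2 :=
      mul_le_mul_of_nonneg_right hv (sq_nonneg _)
    nlinarith
  have hs : 0 < Real.sqrt r := Real.sqrt_pos.2 hr0
  rw [le_div_iff₀ hs]
  have hq : (|X| * Real.sqrt r) ^ 2 ≤ 500 ^ 2 := by
    rw [mul_pow, sq_abs, Real.sq_sqrt hr0.le]
    linarith
  exact abs_le_of_sq_le_sq' hq (by norm_num) |>.2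

end Pool.Agent.MP3145b1.RT
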